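import Pool.Agent.MP_85210c_gt.Mg.Volume
import Pool.Agent.MP_85210c_gt.Defs

/-!
# Coordinate-free form, arbitrary measure spaces
-/

set_option autoImplicit false

open MeasureTheory Set Filter
open scoped ENNReal NNReal Topology

namespace Pool.Agent.MP85210c

variable {n : ℕ} {p : ℝ}

theorem coe_comb {α : Type*} [MeasurableSpace α] {μ : Measure α} {q : ℝ≥0∞}
    (f : Fin n → Lp ℝ q μ) (g : Fin n → α → ℝ) (hg : ∀ i, ⇑(f i) =ᵐ[μ] g i) (x : Fin n → ℝ) :
    ⇑(∑ i, x i • f i) =ᵐ[μ] fun t => ∑ i, x i * g i t := by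
  have a1 : ∀ᵐ t ∂μ, ∀ i, (x i • f i) t = x i * g i t := by
    rw [ae_all_iff]
    intro i
    filter_upwards [Lp.coeFn_smul (x i) (f i), hg i] with t a b
    rw [a, Pi.smul_apply, b, smul_eq_mul]
  filter_upwards [Lp.coeFn_fun_finsetSum Finset.univ fun i => x i • f i, a1] with t a b
  rw [a]
  exact Finset.sum_congr rfl fun i _ => b i

/-- change of density: finitely many functions in `L_p` live on a finite measure -/
theorem exists_finite {α : Type*} [MeasurableSpace α] {μ : Measure α} (hp : 0 < p)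
    (f : Fin n → Lp ℝ (ENNReal.ofReal p) μ) :
    ∃ (ν : Measure α) (_ : IsFiniteMeasure ν) (h : Fin n → Lp ℝ (ENNReal.ofReal p) ν),
      ∀ x : Fin n → ℝ, ‖∑ i, x i • h i‖ = ‖∑ i, x i • f i‖ := by
  have hq0 : ENNReal.ofReal p ≠ 0 := by simpa using hp
  let g : Fin n → α → ℝ := fun i => (Lp.aestronglyMeasurable (f i)).mk _
  have hgm : ∀ i, Measurable (g i) := fun i =>
    (Lp.aestronglyMeasurable (f i)).stronglyMeasurable_mk.measurable
  have hg : ∀ i, ⇑(f i) =ᵐ[μ] g i := fun i => (Lp.aestronglyMeasurable (f i)).ae_eq_mk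
  let w : α → ℝ := fun t => ∑ i, |g i t|
  have hwm : Measurable w := Finset.measurable_sum _ fun i _ => (hgm i).abs
  have hw0 : ∀ t, 0 ≤ w t := fun t => Finset.sum_nonneg fun i _ => abs_nonneg _
  have hgw : ∀ i t, |g i t| ≤ w t := fun i t =>
    Finset.single_le_sum (f := fun i => |g i t|) (fun i _ => abs_nonneg _) (Finset.mem_univ i)
  have hwL : MemLp w (ENNReal.ofReal p) μ :=
    memLp_finsetSum _ fun i _ => ((Lp.memLp (f i)).ae_eq (hg i)).abs
  have hdm : Measurable fun t => ‖w t‖ₑ ^ p := hwm.enorm.pow_const _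
  let ν := μ.withDensity fun t => ‖w t‖ₑ ^ p
  have hν : IsFiniteMeasure ν := by
    refine isFiniteMeasure_withDensity ?_
    have := hwL.2
    rw [eLpNorm_lt_top_iff_lintegral_rpow_enorm_lt_top hq0 ENNReal.ofReal_ne_top,
      ENNReal.toReal_ofReal hp.le] at this
    exact this.ne
  have hL : ∀ i, MemLp (fun t => g i t / w t) (ENNReal.ofReal p) ν := fun i =>
    MemLp.of_bound ((hgm i).div hwm).aestronglyMeasurable 1 (Eventually.of_forall fun t => by
      rw [Real.norm_eq_abs, abs_div, abs_of_nonneg (hw0 t)]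
      exact div_le_one_of_le₀ (hgw i t) (hw0 t))
  refine ⟨ν, hν, fun i => (hL i).toLp _, fun x => ?_⟩
  rw [Lp.norm_def, Lp.norm_def, eLpNorm_congr_ae (coe_comb f g hg x),
    eLpNorm_congr_ae (coe_comb _ _ (fun i => (hL i).coeFn_toLp) x),
    eLpNorm_eq_lintegral_rpow_enorm_toReal hq0 ENNReal.ofReal_ne_top,
    eLpNorm_eq_lintegral_rpow_enorm_toReal hq0 ENNReal.ofReal_ne_top,
    ENNReal.toReal_ofReal hp.le, lintegral_withDensity_eq_lintegral_mul _ hdm
      (g := fun t => ‖∑ i, x i * (g i t / w t)‖ₑ ^ p)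
      ((Finset.measurable_sum _ fun i _ => ((hgm i).div hwm).const_mul _).enorm.pow_const _)]
  congr 3
  ext t
  rw [Pi.mul_apply, ← ENNReal.mul_rpow_of_nonneg _ _ hp.le, ← enorm_mul, Finset.mul_sum]
  congr 2
  refine Finset.sum_congr rfl fun i _ => ?_
  rcases (hw0 t).eq_or_lt with h | h
  · have : g i t = 0 := abs_nonpos_iff.1 (h ▸ hgw i t)
    simp [this]
  · field_simp

theorem mahler_any {α : Type*} [MeasurableSpace α] {μ : Measure α}
    (h1 : 1 < p) (h2 : p < 2) (f : Fin n → Lp ℝ (ENNReal.ofReal p) μ)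
    (hf : ∀ x : Fin n → ℝ, ‖∑ i, x i • f i‖ = 0 → x = 0) :
    ENNReal.ofReal (VP n p * VP n (p / (p - 1))) ≤
      volume {x : Fin n → ℝ | ‖∑ i, x i • f i‖ ≤ 1} *
      volume {y : Fin n → ℝ | ∀ x : Fin n → ℝ, ‖∑ i, x i • f i‖ ≤ 1 → ∑ i, x i * y i ≤ 1} := by
  obtain ⟨ν, hν, h, hh⟩ := exists_finite (by linarith) f
  simp only [← hh]
  refine mahler_Lp h1 h2 h (Fintype.linearIndependent_iff.2 fun x hx i => ?_)
  have := hf x (by rw [← hh, hx, Lp.norm_zero])
  rw [this]; rfl

theorem vol_toLp (K : Set (EuclideanSpace ℝ (Fin n))) :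
    volume K = volume {x : Fin n → ℝ | WithLp.toLp 2 x ∈ K} :=
  ((PiLp.volume_preserving_toLp (Fin n)).measure_preimage_emb
    (MeasurableEquiv.toLp 2 (Fin n → ℝ)).measurableEmbedding K).symm

theorem polar_toLp (K : Set (EuclideanSpace ℝ (Fin n))) :
    {y : Fin n → ℝ | WithLp.toLp 2 y ∈ polarBody K} =
      {y | ∀ x : Fin n → ℝ, WithLp.toLp 2 x ∈ K → ∑ i, x i * y i ≤ 1} := by
  ext y
  simp only [polarBody, mem_ofPred_eq]
  constructor
  · intro h x hx
    have := h _ hx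
    simpa [PiLp.inner_apply, mul_comm] using this
  · intro h x hx
    have := h x.ofLp hx
    simpa [PiLp.inner_apply, mul_comm] using this

theorem main {α : Type*} [MeasurableSpace α] {μ : Measure α} [Fact (1 ≤ ENNReal.ofReal p)]
    (h1 : 1 < p) (h2 : p < 2) {X : Type*} [NormedAddCommGroup X] [NormedSpace ℝ X]
    (J : X →ₗᵢ[ℝ] Lp ℝ (ENNReal.ofReal p) μ) (T : X ≃ₗ[ℝ] EuclideanSpace ℝ (Fin n)) :
    volumeProduct {x : EuclideanSpace ℝ (Fin n) | ∑ i, |x i| ^ p ≤ 1} ≤
      volumeProduct (T '' Metric.closedBall 0 1) := by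
  have : FiniteDimensional ℝ X := T.symm.finiteDimensional
  set K := T '' Metric.closedBall 0 1 with hK
  have hmem : ∀ z, z ∈ K ↔ ‖T.symm z‖ ≤ 1 := fun z => by
    rw [hK, T.image_eq_preimage_symm]; simp
  let f : Fin n → Lp ℝ (ENNReal.ofReal p) μ := fun i => J (T.symm (EuclideanSpace.single i 1))
  have hf : ∀ x : Fin n → ℝ, ‖∑ i, x i • f i‖ = ‖T.symm (WithLp.toLp 2 x)‖ := fun x => by
    rw [← J.norm_map]
    congr 1
    simp only [f, ← map_smul, ← map_sum]
    congr 2
    ext j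
    simp [Finset.sum_apply, Pi.single_apply]
  have m := mahler_any h1 h2 f fun x hx => by
    rw [hf, norm_eq_zero, T.symm.map_eq_zero_iff] at hx
    simpa using hx
  have r := reference_le n h1
  have hKc : IsCompact K := (isCompact_closedBall 0 1).image
    (T : X →ₗ[ℝ] EuclideanSpace ℝ (Fin n)).continuous_of_finiteDimensional
  have hPb : Bornology.IsBounded (polarBody K) := by
    let S := (T.symm : EuclideanSpace ℝ (Fin n) →ₗ[ℝ] X).toContinuousLinearMap
    refine (Metric.isBounded_closedBall (x := 0) (r := ‖S‖ + 1)).subset fun y hy => ?_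
    rw [mem_closedBall_zero_iff]
    by_cases h0 : y = 0
    · rw [h0, norm_zero]; positivity
    have hy0 : 0 < ‖y‖ := norm_pos_iff.2 h0
    have hS : 0 < ‖S‖ + 1 := by positivity
    have a1 := hy (((‖S‖ + 1) * ‖y‖)⁻¹ • y) ((hmem _).2 (by
      have := S.le_opNorm (((‖S‖ + 1) * ‖y‖)⁻¹ • y)
      refine le_trans this ?_
      rw [norm_smul, Real.norm_eq_abs, abs_of_pos (by positivity)]
      rw [mul_inv, mul_assoc, inv_mul_cancel₀ hy0.ne', mul_one, ← div_eq_mul_inv, div_le_one hS]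
      linarith))
    rw [real_inner_smul_left, real_inner_self_eq_norm_sq, inv_mul_le_iff₀ (by positivity)] at a1
    nlinarith
  have e1 : volume K * volume (polarBody K) ≠ ⊤ :=
    ENNReal.mul_ne_top hKc.measure_lt_top.ne hPb.measure_lt_top.ne
  unfold volumeProduct
  simp only [Measure.real, ← ENNReal.toReal_mul]
  refine ENNReal.toReal_mono e1 ?_
  rw [vol_toLp, vol_toLp (polarBody _), polar_toLp, vol_toLp K, vol_toLp (polarBody K), polar_toLp]
  simp only [hmem, ← hf]
  exact r.trans m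

end Pool.Agent.MP85210c
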