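import Mathlib
import Pool.Agent.Lib.PrekopaLeindler.Basic

-- part MP_85210c_gt.Basic
section

/-! # Elementary lemmas -/

set_option autoImplicit false

open MeasureTheory Set Filter
open scoped ENNReal NNReal Topology

namespace Pool.Agent.MP85210c

theorem two_point_aux1 {p : ℝ} (h1 : 1 < p) (h2 : p ≤ 2) {x : ℝ} (hx : x ∈ Icc (0 : ℝ) 1) :
    2 * (p - 1) * x ≤ (1 + x) ^ (p - 1) - (1 - x) ^ (p - 1) := by
  have hm : MonotoneOn (fun x : ℝ => (1 + x) ^ (p - 1) - (1 - x) ^ (p - 1) - 2 * (p - 1) * x)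
      (Icc 0 1) := by
    refine monotoneOn_of_hasDerivWithinAt_nonneg (convex_Icc 0 1)
      (f' := fun x => (p - 1) * ((1 + x) ^ (p - 2) + (1 - x) ^ (p - 2) - 2)) ?_ ?_ ?_
    · refine Continuous.continuousOn ?_
      refine Continuous.sub (Continuous.sub ?_ ?_) (by fun_prop)
      · exact (continuous_const.add continuous_id).rpow_const fun _ => Or.inr (by linarith)
      · exact (continuous_const.sub continuous_id).rpow_const fun _ => Or.inr (by linarith)
    · intro x hx
      rw [interior_Icc] at hx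
      have a1 : HasDerivAt (fun x : ℝ => (1 + x) ^ (p - 1)) (1 * (p - 1) * (1 + x) ^ (p - 1 - 1)) x :=
        ((hasDerivAt_id x).const_add 1).rpow_const (Or.inl (by simp; linarith [hx.1]))
      have a2 : HasDerivAt (fun x : ℝ => (1 - x) ^ (p - 1))
          (-1 * (p - 1) * (1 - x) ^ (p - 1 - 1)) x :=
        ((hasDerivAt_id x).const_sub 1).rpow_const (Or.inl (by simp; linarith [hx.2]))
      have a3 : HasDerivAt (fun x : ℝ => 2 * (p - 1) * x) (2 * (p - 1) * 1) x :=
        (hasDerivAt_id x).const_mul _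
      refine (((a1.sub a2).sub a3).congr_deriv ?_).hasDerivWithinAt
      rw [show p - 1 - 1 = p - 2 by ring]; ring
    · intro x hx
      rw [interior_Icc] at hx
      have b1 : 0 < (1 + x) ^ (p - 2) := Real.rpow_pos_of_pos (by linarith [hx.1]) _
      have b2 : 0 < (1 - x) ^ (p - 2) := Real.rpow_pos_of_pos (by linarith [hx.2]) _
      have b3 : 1 ≤ (1 + x) ^ (p - 2) * (1 - x) ^ (p - 2) := by
        rw [← Real.mul_rpow (by linarith [hx.1]) (by linarith [hx.2])]
        exact Real.one_le_rpow_of_pos_of_le_one_of_nonpos (by nlinarith [hx.1, hx.2])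
          (by nlinarith [hx.1]) (by linarith)
      refine mul_nonneg (by linarith) ?_
      by_contra hc
      nlinarith [sq_nonneg ((1 + x) ^ (p - 2) - (1 - x) ^ (p - 2))]
  have := hm (left_mem_Icc.2 zero_le_one) hx hx.1
  simp at this
  linarith

theorem two_point_aux2 {p : ℝ} (h1 : 1 < p) (h2 : p ≤ 2) {x : ℝ} (hx : x ∈ Icc (0 : ℝ) 1) :
    2 + p * (p - 1) * x ^ 2 ≤ (1 + x) ^ p + (1 - x) ^ p := by
  have hm : MonotoneOn (fun x : ℝ => (1 + x) ^ p + (1 - x) ^ p - p * (p - 1) * x ^ 2)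
      (Icc 0 1) := by
    refine monotoneOn_of_hasDerivWithinAt_nonneg (convex_Icc 0 1)
      (f' := fun x => p * ((1 + x) ^ (p - 1) - (1 - x) ^ (p - 1) - 2 * (p - 1) * x)) ?_ ?_ ?_
    · refine Continuous.continuousOn ?_
      refine Continuous.sub (Continuous.add ?_ ?_) (by fun_prop)
      · exact (continuous_const.add continuous_id).rpow_const fun _ => Or.inr (by linarith)
      · exact (continuous_const.sub continuous_id).rpow_const fun _ => Or.inr (by linarith)
    · intro x hx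
      rw [interior_Icc] at hx
      have a1 : HasDerivAt (fun x : ℝ => (1 + x) ^ p) (1 * p * (1 + x) ^ (p - 1)) x :=
        ((hasDerivAt_id x).const_add 1).rpow_const (Or.inr h1.le)
      have a2 : HasDerivAt (fun x : ℝ => (1 - x) ^ p) (-1 * p * (1 - x) ^ (p - 1)) x :=
        ((hasDerivAt_id x).const_sub 1).rpow_const (Or.inr h1.le)
      have a3 : HasDerivAt (fun x : ℝ => p * (p - 1) * x ^ 2) (p * (p - 1) * (2 * x)) x := by
        simpa using (hasDerivAt_pow 2 x).const_mul (p * (p - 1))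
      refine (((a1.add a2).sub a3).congr_deriv ?_).hasDerivWithinAt
      ring
    · intro x hx
      have := two_point_aux1 h1 h2 (interior_subset hx)
      exact mul_nonneg (by linarith) (by linarith)
  have := hm (left_mem_Icc.2 zero_le_one) hx hx.1
  simp at this
  linarith

theorem two_point_aux3 {p : ℝ} (h1 : 1 < p) (h2 : p ≤ 2) (x : ℝ) :
    2 + p * (p - 1) * min (x ^ 2) 1 ≤ |1 + x| ^ p + |1 - x| ^ p := by
  wlog hx : 0 ≤ x generalizing x
  · have := this (-x) (by linarith)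
    rwa [neg_sq, ← sub_eq_add_neg, sub_neg_eq_add, add_comm (|1 - x| ^ p)] at this
  by_cases hx1 : x ≤ 1
  · rw [min_eq_left (by nlinarith), abs_of_nonneg (by linarith), abs_of_nonneg (by linarith)]
    exact two_point_aux2 h1 h2 ⟨hx, hx1⟩
  · rw [min_eq_right (by nlinarith)]
    have := two_point_aux2 h1 h2 (right_mem_Icc.2 zero_le_one)
    rw [sub_self, Real.zero_rpow (by linarith), one_pow, add_zero] at this
    have h3 : (1 + 1 : ℝ) ^ p ≤ |1 + x| ^ p :=
      Real.rpow_le_rpow (by norm_num) (by rw [abs_of_nonneg (by linarith)]; linarith) (by linarith)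
    have h4 : 0 ≤ |1 - x| ^ p := by positivity
    linarith

/-- Uniform convexity of `|·| ^ p` for `1 < p ≤ 2`. -/
theorem two_point {p : ℝ} (h1 : 1 < p) (h2 : p ≤ 2) (a b : ℝ) :
    2 * |a| ^ p + p * (p - 1) * (|a| ^ (p - 2) * min (b ^ 2) (a ^ 2)) ≤
      |a + b| ^ p + |a - b| ^ p := by
  rcases eq_or_ne a 0 with rfl | ha
  · rw [min_eq_right (by nlinarith [sq_nonneg b])]
    simp [Real.zero_rpow (by linarith : p ≠ 0)]
    positivity
  have hA : 0 < |a| := abs_pos.2 ha
  have h := mul_le_mul_of_nonneg_left (two_point_aux3 h1 h2 (b / a))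
    (Real.rpow_pos_of_pos hA p).le
  have e1 : |a + b| ^ p = |a| ^ p * |1 + b / a| ^ p := by
    rw [← Real.mul_rpow hA.le (abs_nonneg _), ← abs_mul]; congr 2; field_simp
  have e2 : |a - b| ^ p = |a| ^ p * |1 - b / a| ^ p := by
    rw [← Real.mul_rpow hA.le (abs_nonneg _), ← abs_mul]; congr 2; field_simp
  have e3 : |a| ^ (p - 2) * min (b ^ 2) (a ^ 2) = |a| ^ p * min ((b / a) ^ 2) 1 := by
    have : min (b ^ 2) (a ^ 2) = a ^ 2 * min ((b / a) ^ 2) 1 := by
      rw [mul_min_of_nonneg _ _ (sq_nonneg a)]; congr 1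
      · field_simp
      · ring
    rw [this, ← mul_assoc, ← sq_abs a, ← Real.rpow_natCast, ← Real.rpow_add hA]
    norm_num
  rw [e1, e2, e3]
  linarith

theorem integrable_exp_neg_norm {k : ℕ} {c : ℝ} (hc : 0 < c) :
    Integrable fun x : Fin k → ℝ => Real.exp (-(c * ‖x‖)) := by
  have h := (integrable_one_add_norm (E := Fin k → ℝ) (μ := volume) (r := ((k + 1 : ℕ) : ℝ))
    (by simp)).const_mul (((k + 1).factorial : ℝ) * Real.exp c / c ^ (k + 1))
  refine h.mono' (Continuous.aestronglyMeasurable (by fun_prop)) (Eventually.of_forall fun x => ?_)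
  rw [Real.norm_eq_abs, abs_of_pos (Real.exp_pos _), Real.rpow_neg (by positivity),
    Real.rpow_natCast]
  have h1 := Real.pow_div_factorial_le_exp (c * (1 + ‖x‖)) (by positivity) (k + 1)
  rw [div_le_iff₀ (by positivity), mul_pow, mul_add, mul_one, Real.exp_add] at h1
  rw [Real.exp_neg, ← div_eq_mul_inv, div_div, le_div_iff₀ (by positivity), ← div_eq_inv_mul,
    div_le_iff₀ (by positivity)]
  linarith

theorem exists_coercive {ι : Type*} [Fintype ι] {k : ℕ} (v : ι → Fin k → ℝ)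
    (hv : ∀ x, (∀ j, x ⬝ᵥ v j = 0) → x = 0) :
    ∃ c : ℝ, 0 < c ∧ ∀ x, c * ‖x‖ ≤ ∑ j, |x ⬝ᵥ v j| := by
  let L : (Fin k → ℝ) →ₗ[ℝ] (ι → ℝ) :=
    { toFun := fun x j => x ⬝ᵥ v j
      map_add' := fun x y => by ext j; simp
      map_smul' := fun a x => by ext j; simp }
  obtain ⟨K, hK, hL⟩ := L.exists_antilipschitzWith
    (LinearMap.ker_eq_bot'.2 fun x hx => hv x fun j => congrFun hx j)
  refine ⟨(K : ℝ)⁻¹, by positivity, fun x => ?_⟩
  have h1 : ‖x‖ ≤ K * ‖L x‖ := ZeroHomClass.bound_of_antilipschitz L hL x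
  have h2 : ‖L x‖ ≤ ∑ j, |x ⬝ᵥ v j| := by
    refine (pi_norm_le_iff_of_nonneg (by positivity)).2 fun j => ?_
    exact Finset.single_le_sum (f := fun j => |x ⬝ᵥ v j|) (fun _ _ => abs_nonneg _)
      (Finset.mem_univ j)
  rw [inv_mul_le_iff₀ (by positivity)]
  exact h1.trans (by gcongr)

theorem ae_dot_ne {k : ℕ} {v : Fin k → ℝ} {b : ℝ} (h : v ≠ 0 ∨ b ≠ 0) :
    ∀ᵐ x : Fin k → ℝ, x ⬝ᵥ v + b ≠ 0 := by
  by_cases hv : v = 0
  · have hb : b ≠ 0 := h.resolve_left (not_not.2 hv)
    simp [hv, hb]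
  let L : (Fin k → ℝ) →ₗ[ℝ] ℝ :=
    { toFun := fun x => x ⬝ᵥ v
      map_add' := fun x y => by simp
      map_smul' := fun a x => by simp }
  have hvv : v ⬝ᵥ v ≠ 0 := fun h => hv (dotProduct_self_eq_zero.1 h)
  have h0 : volume (LinearMap.ker L : Set (Fin k → ℝ)) = 0 := by
    refine Measure.addHaar_submodule _ _ fun h => hvv ?_
    have : v ∈ LinearMap.ker L := h ▸ Submodule.mem_top
    exact this
  rw [← measure_preimage_add_right _ ((b / (v ⬝ᵥ v)) • v)] at h0
  filter_upwards [measure_eq_zero_iff_ae_notMem.1 h0] with x hx hc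
  apply hx
  show (x + (b / (v ⬝ᵥ v)) • v) ⬝ᵥ v = 0
  rw [add_dotProduct, smul_dotProduct, smul_eq_mul, div_mul_cancel₀ _ hvv, hc]

theorem abs_sub_one_le_rpow {p : ℝ} (hp : 1 ≤ p) (a : ℝ) : |a| - 1 ≤ |a| ^ p := by
  by_cases h : |a| ≤ 1
  · have : 0 ≤ |a| ^ p := by positivity
    linarith
  · have : |a| ^ (1 : ℝ) ≤ |a| ^ p := Real.rpow_le_rpow_of_exponent_le (by linarith) hp
    rw [Real.rpow_one] at this
    linarith

theorem second_diff {Θ Θ' : ℝ → ℝ} {t Θ'' : ℝ} (h1 : ∀ᶠ s in 𝓝 t, HasDerivAt Θ (Θ' s) s)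
    (h2 : HasDerivAt Θ' Θ'' t) :
    Tendsto (fun h => (Θ (t + h) + Θ (t - h) - 2 * Θ t) / h ^ 2) (𝓝[>] 0) (𝓝 Θ'') := by
  have c1 : Tendsto (fun h : ℝ => t + h) (𝓝 0) (𝓝 t) := by
    have : Continuous fun h : ℝ => t + h := by fun_prop
    simpa using this.tendsto 0
  have c2 : Tendsto (fun h : ℝ => t - h) (𝓝 0) (𝓝 t) := by
    have : Continuous fun h : ℝ => t - h := by fun_prop
    simpa using this.tendsto 0
  refine HasDerivAt.lhopital_zero_nhdsGT (f' := fun h => Θ' (t + h) - Θ' (t - h))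
    (g' := fun h => 2 * h) ?_ ?_ ?_ ?_ ?_ ?_
  · filter_upwards [nhdsWithin_le_nhds (c1 h1), nhdsWithin_le_nhds (c2 h1)] with h a b
    have a1 : HasDerivAt (fun h => Θ (t + h)) (Θ' (t + h)) h := HasDerivAt.comp_const_add t h a
    have b1 : HasDerivAt (fun h => Θ (t - h)) (-Θ' (t - h)) h := HasDerivAt.comp_const_sub t h b
    exact ((a1.add b1).sub_const _).congr_deriv (by ring)
  · exact Eventually.of_forall fun h => by simpa using hasDerivAt_pow 2 h
  · filter_upwards [self_mem_nhdsWithin] with h hh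
    exact mul_ne_zero two_ne_zero (ne_of_gt hh)
  · have hc := h1.self_of_nhds.continuousAt
    have := ((hc.tendsto.comp c1).add (hc.tendsto.comp c2)).sub_const (2 * Θ t)
    rw [show Θ t + Θ t - 2 * Θ t = 0 by ring] at this
    exact this.mono_left nhdsWithin_le_nhds
  · have : Continuous fun h : ℝ => h ^ 2 := by fun_prop
    have := this.tendsto 0
    simp only [ne_eq, OfNat.ofNat_ne_zero, not_false_eq_true, zero_pow] at this
    exact this.mono_left nhdsWithin_le_nhds
  · have a : HasDerivAt (fun h => Θ' (t + h)) Θ'' 0 :=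
      HasDerivAt.comp_const_add t 0 (by simpa using h2)
    have b : HasDerivAt (fun h => Θ' (t - h)) (-Θ'') 0 :=
      HasDerivAt.comp_const_sub t 0 (by simpa using h2)
    have := ((a.sub b).tendsto_slope_zero_right).div_const 2
    rw [show (Θ'' - -Θ'') / 2 = Θ'' by ring] at this
    refine this.congr fun h => ?_
    simp only [zero_add, Pi.sub_apply, add_zero, sub_zero, sub_self, smul_eq_mul]
    ring

end Pool.Agent.MP85210c

end

-- part MP_85210c_gt.Stable
section

/-!
# One-sided stable laws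

For `0 < α ≤ 1` there is a probability measure `ρ` on `ℝ≥0` with Laplace transform
`exp (-τ ^ α)`.
-/

set_option autoImplicit false

open MeasureTheory Set Filter
open scoped ENNReal NNReal Topology

namespace Pool.Agent.MP85210c

/-- Moment functions of probability measures on the unit interval. -/
def IsLT (f : ℝ → ℝ) : Prop :=
  ∃ μ : Measure unitInterval, IsProbabilityMeasure μ ∧ ∀ τ, 0 < τ → f τ = ∫ y, (y : ℝ) ^ τ ∂μ

theorem cont_rpow_I {τ : ℝ} (hτ : 0 < τ) : Continuous fun y : unitInterval => (y : ℝ) ^ τ :=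
  continuous_subtype_val.rpow_const fun _ => Or.inr hτ.le

theorem integrable_rpow_I {τ : ℝ} (hτ : 0 < τ) (μ : Measure unitInterval) [IsFiniteMeasure μ] :
    Integrable (fun y : unitInterval => (y : ℝ) ^ τ) μ :=
  (cont_rpow_I hτ).integrable_of_hasCompactSupport (HasCompactSupport.of_compactSpace _)

theorem IsLT.congr {f g : ℝ → ℝ} (hf : IsLT f) (h : ∀ τ, 0 < τ → g τ = f τ) : IsLT g := by
  obtain ⟨μ, hμ, hf⟩ := hf
  exact ⟨μ, hμ, fun τ hτ => (h τ hτ).trans (hf τ hτ)⟩

theorem isLT_one : IsLT fun _ => 1 :=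
  ⟨Measure.dirac 1, inferInstance, fun τ _ => by simp⟩

theorem IsLT.mul {f g : ℝ → ℝ} (hf : IsLT f) (hg : IsLT g) : IsLT fun τ => f τ * g τ := by
  obtain ⟨μ, hμ, hf⟩ := hf
  obtain ⟨ν, hν, hg⟩ := hg
  have hm : Continuous fun z : unitInterval × unitInterval => z.1 * z.2 := by
    refine Continuous.subtype_mk (f := fun z : unitInterval × unitInterval => (z.1 : ℝ) * z.2) (by fun_prop) _
  refine ⟨(μ.prod ν).map fun z => z.1 * z.2,
    Measure.isProbabilityMeasure_map hm.measurable.aemeasurable, fun τ hτ => ?_⟩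
  beta_reduce
  rw [integral_map hm.measurable.aemeasurable (cont_rpow_I hτ).aestronglyMeasurable, hf τ hτ,
    hg τ hτ, ← integral_prod_mul]
  refine integral_congr_ae (Eventually.of_forall fun z => ?_)
  simp only [Set.Icc.coe_mul]
  rw [Real.mul_rpow z.1.2.1 z.2.2.1]

theorem IsLT.pow {f : ℝ → ℝ} (hf : IsLT f) (n : ℕ) : IsLT fun τ => f τ ^ n := by
  induction n with
  | zero => simpa using isLT_one
  | succ n ih => simpa [pow_succ] using ih.mul hf

theorem isLT_lim {f : ℕ → ℝ → ℝ} {g : ℝ → ℝ} (hf : ∀ᶠ n in atTop, IsLT (f n))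
    (h : ∀ τ, 0 < τ → Tendsto (fun n => f n τ) atTop (𝓝 (g τ))) : IsLT g := by
  let L : ProbabilityMeasure unitInterval → (Ioi (0 : ℝ) → ℝ) :=
    fun μ τ => ∫ y, (y : ℝ) ^ (τ : ℝ) ∂(μ : Measure unitInterval)
  have hL : Continuous L := continuous_pi fun τ =>
    ProbabilityMeasure.continuous_integral_continuousMap
      (⟨_, cont_rpow_I τ.2⟩ : C(unitInterval, ℝ))
  have hc : IsClosed (range L) := (isCompact_range hL).isClosed
  have hg : (fun τ : Ioi (0 : ℝ) => g τ) ∈ range L := by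
    refine hc.mem_of_tendsto (f := fun n (τ : Ioi (0 : ℝ)) => f n τ) (b := atTop)
      (tendsto_pi_nhds.2 fun τ => h τ τ.2) ?_
    filter_upwards [hf] with n hn
    obtain ⟨μ, hμ, hn⟩ := hn
    exact ⟨⟨μ, hμ⟩, funext fun τ => (hn τ τ.2).symm⟩
  obtain ⟨μ, hμ⟩ := hg
  exact ⟨μ, inferInstance, fun τ hτ => (congrFun hμ ⟨τ, hτ⟩).symm⟩

theorem isLT_mix (ν : Measure unitInterval) (h : ν univ ≤ 1) :
    IsLT fun τ => 1 - ∫ y, (1 - (y : ℝ) ^ τ) ∂ν := by
  have : IsFiniteMeasure ν := ⟨h.trans_lt ENNReal.one_lt_top⟩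
  have hfin : IsFiniteMeasure ((1 - ν univ) • Measure.dirac (1 : unitInterval)) := ⟨by
    simp only [Measure.smul_apply, measure_univ, smul_eq_mul, mul_one]
    exact tsub_le_self.trans_lt ENNReal.one_lt_top⟩
  refine ⟨ν + (1 - ν univ) • Measure.dirac 1, ⟨by simp [h]⟩, fun τ hτ => ?_⟩
  beta_reduce
  rw [integral_add_measure (integrable_rpow_I hτ _) (integrable_rpow_I hτ _),
    integral_sub (integrable_const _) (integrable_rpow_I hτ _), integral_smul_measure,
    ENNReal.toReal_sub_of_le h ENNReal.one_ne_top]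
  simp [Measure.real]
  ring

theorem isLT_exp (ν : Measure unitInterval) [IsFiniteMeasure ν] :
    IsLT fun τ => Real.exp (-∫ y, (1 - (y : ℝ) ^ τ) ∂ν) := by
  refine isLT_lim (f := fun n τ => (1 + (-∫ y, (1 - (y : ℝ) ^ τ) ∂ν) / n) ^ n) ?_
    fun τ _ => Real.tendsto_one_add_div_pow_exp _
  obtain ⟨N, hN⟩ := ENNReal.exists_nat_gt (measure_ne_top ν univ)
  filter_upwards [eventually_ge_atTop N, eventually_ge_atTop 1] with n hn hn1
  have hn0 : (n : ℝ≥0∞) ≠ 0 := by exact_mod_cast (by omega : n ≠ 0)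
  have h := isLT_mix ((n : ℝ≥0∞)⁻¹ • ν) (by
    simp only [Measure.smul_apply, smul_eq_mul]
    rw [← ENNReal.div_eq_inv_mul]
    refine ENNReal.div_le_of_le_mul ?_
    rw [one_mul]
    exact hN.le.trans (by exact_mod_cast hn))
  refine (h.pow n).congr fun τ _ => ?_
  rw [integral_smul_measure]
  simp only [ENNReal.toReal_inv, ENNReal.toReal_natCast, smul_eq_mul]
  ring

theorem integrableOn_levy {α : ℝ} (h0 : 0 < α) (h1 : α < 1) {τ : ℝ} (hτ : 0 < τ) :
    IntegrableOn (fun s : ℝ => (1 - Real.exp (-(s * τ))) * s ^ (-1 - α)) (Ioi 0) := by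
  have hm : Measurable fun s : ℝ => (1 - Real.exp (-(s * τ))) * s ^ (-1 - α) := by fun_prop
  rw [← Ioc_union_Ioi_eq_Ioi zero_le_one, integrableOn_union]
  constructor
  · have h2 : IntegrableOn (fun s : ℝ => τ * s ^ (-α)) (Ioc 0 1) :=
      ((intervalIntegral.intervalIntegrable_rpow' (by linarith)).1).const_mul τ
    refine h2.mono' hm.aestronglyMeasurable ?_
    filter_upwards [ae_restrict_mem measurableSet_Ioc] with s hs
    have h3 : 0 ≤ 1 - Real.exp (-(s * τ)) := by
      have : Real.exp (-(s * τ)) ≤ 1 := Real.exp_le_one_iff.2 (by nlinarith [hs.1])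
      linarith
    have h4 : 1 - Real.exp (-(s * τ)) ≤ s * τ := by
      have := Real.add_one_le_exp (-(s * τ)); linarith
    rw [Real.norm_eq_abs, abs_of_nonneg (mul_nonneg h3 (Real.rpow_nonneg hs.1.le _))]
    calc (1 - Real.exp (-(s * τ))) * s ^ (-1 - α) ≤ (s * τ) * s ^ (-1 - α) :=
          mul_le_mul_of_nonneg_right h4 (Real.rpow_nonneg hs.1.le _)
      _ = τ * s ^ (-α) := by
        rw [show -α = 1 + (-1 - α) by ring, Real.rpow_add hs.1, Real.rpow_one]; ring
  · have h2 : IntegrableOn (fun s : ℝ => s ^ (-1 - α)) (Ioi 1) :=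
      integrableOn_Ioi_rpow_of_lt (by linarith) one_pos
    refine h2.mono' hm.aestronglyMeasurable ?_
    filter_upwards [ae_restrict_mem measurableSet_Ioi] with s hs
    have hs0 : 0 < s := one_pos.trans hs
    have h3 : 0 ≤ 1 - Real.exp (-(s * τ)) := by
      have : Real.exp (-(s * τ)) ≤ 1 := Real.exp_le_one_iff.2 (by nlinarith)
      linarith
    rw [Real.norm_eq_abs, abs_of_nonneg (mul_nonneg h3 (Real.rpow_nonneg hs0.le _))]
    exact mul_le_of_le_one_left (Real.rpow_nonneg hs0.le _)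
      (by linarith [Real.exp_pos (-(s * τ))])

theorem integral_levy {α : ℝ} {τ : ℝ} (hτ : 0 < τ) :
    ∫ s in Ioi (0 : ℝ), (1 - Real.exp (-(s * τ))) * s ^ (-1 - α) =
      τ ^ α * ∫ s in Ioi (0 : ℝ), (1 - Real.exp (-(s * 1))) * s ^ (-1 - α) := by
  have h := integral_comp_mul_right_Ioi'
    (fun s : ℝ => (1 - Real.exp (-(s * 1))) * s ^ (-1 - α)) 0 hτ
  rw [zero_mul] at h
  rw [← h, smul_eq_mul, ← mul_assoc, ← integral_const_mul]
  refine setIntegral_congr_fun measurableSet_Ioi fun s hs => ?_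
  simp only [mul_one]
  rw [Real.mul_rpow (le_of_lt hs) hτ.le]
  have : τ ^ α * τ * τ ^ (-1 - α) = 1 := by
    rw [← Real.rpow_add_one hτ.ne', ← Real.rpow_add hτ, show α + 1 + (-1 - α) = 0 by ring,
      Real.rpow_zero]
  linear_combination (-(1 - Real.exp (-(s * τ))) * s ^ (-1 - α)) * this

theorem isLT_stable {α : ℝ} (h0 : 0 < α) (h1 : α ≤ 1) : IsLT fun τ => Real.exp (-τ ^ α) := by
  let e : ℝ → unitInterval := fun s => projIcc 0 1 zero_le_one (Real.exp (-s))
  have he : Continuous e := continuous_projIcc.comp (by fun_prop)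
  have hev : ∀ s τ : ℝ, 0 ≤ s → (e s : ℝ) ^ τ = Real.exp (-(s * τ)) := by
    intro s τ hs
    have : (e s : ℝ) = Real.exp (-s) := by
      simp only [e]
      rw [projIcc_of_mem _ ⟨(Real.exp_pos _).le, Real.exp_le_one_iff.2 (by linarith)⟩]
    rw [this, ← Real.exp_mul]; ring_nf
  rcases h1.eq_or_lt with rfl | h1
  · refine ⟨Measure.dirac (e 1), inferInstance, fun τ hτ => ?_⟩
    rw [integral_dirac, hev 1 τ zero_le_one]; simp
  set J := ∫ s in Ioi (0 : ℝ), (1 - Real.exp (-(s * 1))) * s ^ (-1 - α) with hJ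
  have hJpos : 0 < J := by
    rw [hJ, setIntegral_pos_iff_support_of_nonneg_ae _ (integrableOn_levy h0 h1 one_pos)]
    · have : Ioi (0 : ℝ) ⊆ Function.support
          (fun s : ℝ => (1 - Real.exp (-(s * 1))) * s ^ (-1 - α)) ∩ Ioi 0 := by
        intro s hs
        refine ⟨?_, hs⟩
        have hs : 0 < s := hs
        have : Real.exp (-(s * 1)) < 1 := Real.exp_lt_one_iff.2 (by linarith)
        exact (mul_pos (by linarith) (Real.rpow_pos_of_pos hs _)).ne'
      exact lt_of_lt_of_le (by simp) (measure_mono this)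
    · filter_upwards [ae_restrict_mem measurableSet_Ioi] with s hs
      have hs : 0 < s := hs
      have : Real.exp (-(s * 1)) < 1 := Real.exp_lt_one_iff.2 (by linarith)
      exact (mul_pos (by linarith) (Real.rpow_pos_of_pos hs _)).le
  refine isLT_lim (f := fun n τ => Real.exp (-(J⁻¹ * ∫ s in Ioi (1 / ((n : ℝ) + 1)),
    (1 - Real.exp (-(s * τ))) * s ^ (-1 - α)))) (Eventually.of_forall fun n => ?_) ?_
  · have hε : (0 : ℝ) < 1 / ((n : ℝ) + 1) := Nat.one_div_pos_of_nat
    set ε := 1 / ((n : ℝ) + 1)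
    have hi : IntegrableOn (fun s : ℝ => J⁻¹ * s ^ (-1 - α)) (Ioi ε) :=
      (integrableOn_Ioi_rpow_of_lt (by linarith) hε).const_mul _
    have hfin := isFiniteMeasure_withDensity_ofReal hi.2
    refine (isLT_exp (((volume.restrict (Ioi ε)).withDensity
      fun s => ENNReal.ofReal (J⁻¹ * s ^ (-1 - α))).map e)).congr fun τ hτ => ?_
    rw [integral_map he.measurable.aemeasurable
      (f := fun y : unitInterval => 1 - (y : ℝ) ^ τ)
      (continuous_const.sub (cont_rpow_I hτ)).aestronglyMeasurable,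
      integral_withDensity_eq_integral_toReal_smul (by fun_prop) (by simp), ← integral_const_mul]
    congr 2
    refine setIntegral_congr_fun measurableSet_Ioi fun s hs => ?_
    have hs0 : 0 < s := hε.trans hs
    simp only [smul_eq_mul]
    rw [hev s τ hs0.le, ENNReal.toReal_ofReal (by positivity)]
    ring
  · intro τ hτ
    have hU : ⋃ n : ℕ, Ioi (1 / ((n : ℝ) + 1)) = Ioi 0 := by
      ext s
      simp only [mem_iUnion, mem_Ioi]
      constructor
      · rintro ⟨n, hn⟩; exact lt_trans Nat.one_div_pos_of_nat hn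
      · exact fun hs => exists_nat_one_div_lt hs
    have h := tendsto_setIntegral_of_monotone (μ := volume)
      (f := fun s : ℝ => (1 - Real.exp (-(s * τ))) * s ^ (-1 - α))
      (s := fun n : ℕ => Ioi (1 / ((n : ℝ) + 1))) (fun _ => measurableSet_Ioi)
      (fun n m hnm => Ioi_subset_Ioi (Nat.one_div_le_one_div hnm))
      (by rw [hU]; exact integrableOn_levy h0 h1 hτ)
    rw [hU, integral_levy hτ, ← hJ] at h
    have h2 := (Real.continuous_exp.tendsto _).comp (h.const_mul J⁻¹).neg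
    have e2 : J⁻¹ * (τ ^ α * J) = τ ^ α := by field_simp
    rw [e2] at h2
    exact h2

theorem exists_stable {α : ℝ} (h0 : 0 < α) (h1 : α ≤ 1) :
    ∃ ρ : Measure ℝ≥0, IsProbabilityMeasure ρ ∧
      ∀ τ : ℝ, 0 ≤ τ → ∫ σ, Real.exp (-(σ * τ)) ∂ρ = Real.exp (-τ ^ α) := by
  obtain ⟨μ, hμ, h⟩ := isLT_stable h0 h1
  have hz : μ {0} = 0 := by
    have hb : ∀ τ : ℝ, 0 < τ → Real.exp (-τ ^ α) ≤ 1 - μ.real {0} := by
      intro τ hτ
      have h2 := h τ hτ
      simp only at h2
      rw [h2]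
      calc ∫ y, (y : ℝ) ^ τ ∂μ ≤ ∫ y, ({0}ᶜ : Set unitInterval).indicator (fun _ => (1 : ℝ)) y ∂μ := by
            refine integral_mono (integrable_rpow_I hτ _)
              ((integrable_const _).indicator (measurableSet_singleton _).compl) fun y => ?_
            by_cases hy : y = 0
            · simp [hy, hτ.ne']
            · simp only [indicator, mem_compl_iff, mem_singleton_iff, hy, not_false_eq_true,
                ↓reduceIte]
              exact Real.rpow_le_one y.2.1 y.2.2 hτ.le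
        _ = 1 - μ.real {0} := by
            rw [integral_indicator (measurableSet_singleton _).compl]
            simp [probReal_compl_eq_one_sub]
    have hc : Tendsto (fun τ : ℝ => Real.exp (-τ ^ α)) (𝓝[>] 0) (𝓝 1) := by
      have : Continuous fun τ : ℝ => Real.exp (-τ ^ α) :=
        Real.continuous_exp.comp (continuous_id.rpow_const fun _ => Or.inr h0.le).neg
      have h3 := this.tendsto 0
      simp only [Real.zero_rpow h0.ne', neg_zero, Real.exp_zero] at h3
      exact h3.mono_left nhdsWithin_le_nhds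
    have h4 : (1 : ℝ) ≤ 1 - μ.real {0} :=
      le_of_tendsto hc (by filter_upwards [self_mem_nhdsWithin] with τ hτ using hb τ hτ)
    have h5 : μ.real {0} = 0 := le_antisymm (by linarith) measureReal_nonneg
    rwa [measureReal_eq_zero_iff] at h5
  have hm : Measurable fun y : unitInterval => Real.toNNReal (-Real.log y) := by fun_prop
  refine ⟨μ.map fun y : unitInterval => Real.toNNReal (-Real.log y),
    Measure.isProbabilityMeasure_map hm.aemeasurable, fun τ hτ => ?_⟩
  rcases hτ.eq_or_lt with rfl | hτ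
  · have := Measure.isProbabilityMeasure_map (μ := μ) hm.aemeasurable
    simp [h0.ne']
  rw [integral_map hm.aemeasurable (Continuous.aestronglyMeasurable (by fun_prop))]
  have h2 := h τ hτ
  simp only at h2
  rw [h2]
  refine integral_congr_ae ?_
  filter_upwards [measure_eq_zero_iff_ae_notMem.1 hz] with y hy
  have hy0 : (0 : ℝ) < y := lt_of_le_of_ne y.2.1 fun h => hy (Subtype.ext h.symm)
  rw [Real.coe_toNNReal _ (neg_nonneg.2 (Real.log_nonpos y.2.1 y.2.2)), Real.rpow_def_of_pos hy0]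
  ring_nf

/-- The first moment of the exponentially tilted stable law. -/
theorem stable_moment {α : ℝ} {ρ : Measure ℝ≥0} [IsProbabilityMeasure ρ]
    (h : ∀ τ : ℝ, 0 ≤ τ → ∫ σ, Real.exp (-(σ * τ)) ∂ρ = Real.exp (-τ ^ α)) {τ : ℝ} (hτ : 0 < τ) :
    ∫ σ, (σ : ℝ) * Real.exp (-(σ * τ)) ∂ρ ≤ α * τ ^ (α - 1) * Real.exp (-τ ^ α) := by
  have hi : ∀ t : ℝ, 0 ≤ t → Integrable (fun σ : ℝ≥0 => Real.exp (-(σ * t))) ρ := by
    intro t ht
    refine (integrable_const (1 : ℝ)).mono' (Continuous.aestronglyMeasurable (by fun_prop))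
      (Eventually.of_forall fun σ => ?_)
    rw [Real.norm_eq_abs, abs_of_pos (Real.exp_pos _)]
    exact Real.exp_le_one_iff.2 (by have := σ.2; nlinarith)
  have hd : HasDerivAt (fun t : ℝ => Real.exp (-t ^ α))
      (Real.exp (-τ ^ α) * -(α * τ ^ (α - 1))) τ :=
    (Real.hasDerivAt_rpow_const (Or.inl hτ.ne')).neg.exp
  have ht := hd.tendsto_slope_zero_left
  have ht2 : Tendsto (fun t : ℝ =>
      (-(t⁻¹ • (Real.exp (-(τ + t) ^ α) - Real.exp (-τ ^ α))))) (𝓝[<] 0)
      (𝓝 (α * τ ^ (α - 1) * Real.exp (-τ ^ α))) := by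
    have := ht.neg
    rwa [show -(Real.exp (-τ ^ α) * -(α * τ ^ (α - 1))) = α * τ ^ (α - 1) * Real.exp (-τ ^ α) by
      ring] at this
  refine ge_of_tendsto ht2 ?_
  filter_upwards [Ioo_mem_nhdsLT (neg_lt_zero.2 hτ)] with t ht
  have h1 : 0 ≤ τ + t := by linarith [ht.1]
  rw [← h _ h1, ← h _ hτ.le, ← integral_sub (hi _ h1) (hi _ hτ.le), smul_eq_mul, ← neg_mul,
    ← integral_const_mul]
  have hpt : ∀ σ : ℝ≥0, σ * Real.exp (-(σ * τ)) ≤
      -t⁻¹ * (Real.exp (-(σ * (τ + t))) - Real.exp (-(σ * τ))) := by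
    intro σ
    have h2 : Real.exp (-(σ * (τ + t))) = Real.exp (-(σ * τ)) * Real.exp (-(σ * t)) := by
      rw [← Real.exp_add]; ring_nf
    have h3 := Real.add_one_le_exp (-(σ * t))
    have h4 : 0 < -t := by linarith [ht.2]
    rw [h2, ← inv_neg, ← div_eq_inv_mul, le_div_iff₀ h4]
    nlinarith [Real.exp_pos (-(σ * τ))]
  exact integral_mono_of_nonneg (Eventually.of_forall fun σ => by positivity)
    (((hi _ h1).sub (hi _ hτ.le)).const_mul _) (Eventually.of_forall hpt)

end Pool.Agent.MP85210c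

end

-- part MP_85210c_gt.Slice
section

/-!
# Slices of `exp (-∑ |⟨z, u j⟩| ^ p)`

For `1 < p ≤ 2` the marginal `g t = ∫ exp (-∑ j, |x ⬝ᵥ v j + t * w j| ^ p) dx` has
`τ ↦ log g (τ ^ (1 / p))` concave; we prove it in the form `gs_quasi`.
-/

set_option autoImplicit false

open MeasureTheory Set Filter
open scoped ENNReal NNReal Topology

namespace Pool.Agent.MP85210c

variable {ι : Type*} [Fintype ι] {k : ℕ} (v : ι → Fin k → ℝ) (w : ι → ℝ)

/-- The affine forms. -/
def aff (x : Fin k → ℝ) (t : ℝ) (j : ι) : ℝ := x ⬝ᵥ v j + t * w j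

/-- The potential. -/
noncomputable def Phi (p : ℝ) (x : Fin k → ℝ) (t : ℝ) : ℝ := ∑ j, |aff v w x t j| ^ p

/-- The marginal. -/
noncomputable def gs (p t : ℝ) : ℝ := ∫ x, Real.exp (-Phi v w p x t)

/-- The quadratic form with coefficients `σ`. -/
def Qf (σ : ι → ℝ≥0) (x : Fin k → ℝ) (t : ℝ) : ℝ := ∑ j, σ j * aff v w x t j ^ 2

/-- Its minimum on the slice `t = 1`. -/
noncomputable def rq (σ : ι → ℝ≥0) : ℝ := ⨅ y, Qf v w σ y 1

omit [Fintype ι] in
theorem continuous_aff (j : ι) : Continuous fun z : (Fin k → ℝ) × ℝ => aff v w z.1 z.2 j := by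
  unfold aff; fun_prop

theorem continuous_Phi {p : ℝ} (hp : 0 ≤ p) :
    Continuous fun z : (Fin k → ℝ) × ℝ => Phi v w p z.1 z.2 :=
  continuous_finsetSum _ fun j _ => (continuous_aff v w j).abs.rpow_const fun _ => Or.inr hp

theorem continuous_Phi_x {p : ℝ} (hp : 0 ≤ p) (t : ℝ) : Continuous fun x => Phi v w p x t :=
  continuous_finsetSum _ fun j _ =>
    (show Continuous fun x => aff v w x t j by unfold aff; fun_prop).abs.rpow_const
      fun _ => Or.inr hp

theorem continuous_Qf (t : ℝ) :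
    Continuous fun z : (ι → ℝ≥0) × (Fin k → ℝ) => Qf v w z.1 z.2 t := by
  unfold Qf aff; fun_prop

theorem Qf_nonneg (σ : ι → ℝ≥0) (x : Fin k → ℝ) (t : ℝ) : 0 ≤ Qf v w σ x t :=
  Finset.sum_nonneg fun j _ => by positivity

theorem rq_bdd (σ : ι → ℝ≥0) : BddBelow (range fun y => Qf v w σ y 1) :=
  ⟨0, by rintro _ ⟨y, rfl⟩; exact Qf_nonneg v w σ y 1⟩

theorem rq_le (σ : ι → ℝ≥0) (y : Fin k → ℝ) : rq v w σ ≤ Qf v w σ y 1 :=
  ciInf_le (rq_bdd v w σ) y

theorem rq_nonneg (σ : ι → ℝ≥0) : 0 ≤ rq v w σ := le_ciInf fun y => Qf_nonneg v w σ y 1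

theorem measurable_rq : Measurable (rq v w) :=
  (upperSemicontinuous_ciInf (rq_bdd v w) fun y =>
    ((continuous_Qf v w 1).comp (Continuous.prodMk_left y)).upperSemicontinuous).measurable

theorem rq_shift (σ : ι → ℝ≥0) :
    ∃ c : Fin k → ℝ, ∀ x t, Qf v w σ x t = Qf v w σ (x + t • c) 0 + t ^ 2 * rq v w σ := by
  let L : (Fin k → ℝ) →ₗ[ℝ] EuclideanSpace ℝ ι :=
    { toFun := fun x => WithLp.toLp 2 fun j => Real.sqrt (σ j) * (x ⬝ᵥ v j)
      map_add' := fun x y => by ext j; simp [mul_add]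
      map_smul' := fun a x => by ext j; simp; ring }
  obtain ⟨_, ⟨c, rfl⟩, z, hz, h⟩ := (LinearMap.range L).exists_add_mem_mem_orthogonal
    (WithLp.toLp 2 fun j => Real.sqrt (σ j) * w j)
  have hzj : ∀ j, z j = Real.sqrt (σ j) * (w j - c ⬝ᵥ v j) := by
    intro j
    have := congrArg (fun u : EuclideanSpace ℝ ι => u j) h
    simp only [PiLp.add_apply, L, LinearMap.coe_mk, AddHom.coe_mk] at this
    linarith
  have horth : ∀ x, ∑ j, σ j * ((x ⬝ᵥ v j) * (w j - c ⬝ᵥ v j)) = 0 := by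
    intro x
    have := (Submodule.mem_orthogonal _ _).1 hz (L x) ⟨x, rfl⟩
    rw [PiLp.inner_apply] at this
    rw [← this]
    refine Finset.sum_congr rfl fun j _ => ?_
    simp only [L, LinearMap.coe_mk, AddHom.coe_mk, hzj, RCLike.inner_apply, conj_trivial]
    have h2 : Real.sqrt (σ j) * Real.sqrt (σ j) = σ j := Real.mul_self_sqrt (σ j).2
    linear_combination (-(x ⬝ᵥ v j) * (w j - c ⬝ᵥ v j)) * h2
  have key : ∀ x t, Qf v w σ x t =
      Qf v w σ (x + t • c) 0 + t ^ 2 * ∑ j, σ j * (w j - c ⬝ᵥ v j) ^ 2 := by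
    intro x t
    have h1 := horth (x + t • c)
    have : Qf v w σ x t = Qf v w σ (x + t • c) 0 + t ^ 2 * ∑ j, σ j * (w j - c ⬝ᵥ v j) ^ 2 +
        2 * t * ∑ j, σ j * (((x + t • c) ⬝ᵥ v j) * (w j - c ⬝ᵥ v j)) := by
      simp only [Qf, aff, Finset.mul_sum, ← Finset.sum_add_distrib, add_dotProduct,
        smul_dotProduct, smul_eq_mul]
      refine Finset.sum_congr rfl fun j _ => by ring
    rw [this, h1]; ring
  have hr : rq v w σ = ∑ j, σ j * (w j - c ⬝ᵥ v j) ^ 2 := by
    refine le_antisymm ((rq_le v w σ (-c)).trans (le_of_eq ?_)) (le_ciInf fun y => ?_)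
    · refine Finset.sum_congr rfl fun j _ => ?_
      simp only [aff, neg_dotProduct]; ring
    · rw [key y 1]
      linarith [Qf_nonneg v w σ (y + (1 : ℝ) • c) 0]
  exact ⟨c, fun x t => by rw [hr]; exact key x t⟩

theorem lintegral_Qf (σ : ι → ℝ≥0) (t : ℝ) :
    ∫⁻ x, ENNReal.ofReal (Real.exp (-Qf v w σ x t)) =
      ENNReal.ofReal (Real.exp (-(t ^ 2 * rq v w σ))) *
        ∫⁻ x, ENNReal.ofReal (Real.exp (-Qf v w σ x 0)) := by
  obtain ⟨c, hc⟩ := rq_shift v w σ
  rw [← lintegral_add_right_eq_self (fun x => ENNReal.ofReal (Real.exp (-Qf v w σ x 0))) (t • c),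
    ← lintegral_const_mul' _ _ ENNReal.ofReal_ne_top]
  refine lintegral_congr fun x => ?_
  rw [← ENNReal.ofReal_mul (Real.exp_pos _).le, ← Real.exp_add, hc x t]
  congr 2; ring

theorem abs_rpow_eq_sq (p a : ℝ) : |a| ^ p = (a ^ 2) ^ (p / 2) := by
  rw [← sq_abs, ← Real.rpow_natCast, ← Real.rpow_mul (abs_nonneg _)]
  congr 1; push_cast; ring

section Mixture

variable {p : ℝ} {ρ : Measure ℝ≥0} [IsProbabilityMeasure ρ]
  (hρ : ∀ τ : ℝ, 0 ≤ τ → ∫ σ, Real.exp (-(σ * τ)) ∂ρ = Real.exp (-τ ^ (p / 2)))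
include hρ

theorem mixture (x : Fin k → ℝ) (t : ℝ) :
    ENNReal.ofReal (Real.exp (-Phi v w p x t)) =
      ∫⁻ σ, ENNReal.ofReal (Real.exp (-Qf v w σ x t)) ∂(Measure.pi fun _ => ρ) := by
  rw [← ofReal_integral_eq_lintegral_ofReal _ (Eventually.of_forall fun _ => (Real.exp_pos _).le)]
  · congr 1
    have h := integral_fintype_prod_eq_prod (μ := fun _ : ι => ρ)
      (fun j (σ : ℝ≥0) => Real.exp (-(σ * aff v w x t j ^ 2)))
    simp only [hρ _ (sq_nonneg _), ← Real.exp_sum, Finset.sum_neg_distrib] at h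
    simp only [Phi, Qf, abs_rpow_eq_sq]
    exact h.symm
  · refine (integrable_const (1 : ℝ)).mono' (Continuous.aestronglyMeasurable ?_)
      (Eventually.of_forall fun σ => ?_)
    · exact Real.continuous_exp.comp ((continuous_Qf v w t).comp (Continuous.prodMk_left x)).neg
    · rw [Real.norm_eq_abs, abs_of_pos (Real.exp_pos _)]
      exact Real.exp_le_one_iff.2 (by linarith [Qf_nonneg v w σ x t])

omit hρ in
/-- The curvature density. -/
noncomputable def kap (ρ : Measure ℝ≥0) (t : ℝ) (x : Fin k → ℝ) : ℝ≥0∞ :=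
  ∫⁻ σ, ENNReal.ofReal (rq v w σ * Real.exp (-Qf v w σ x t)) ∂(Measure.pi fun _ => ρ)

omit hρ [IsProbabilityMeasure ρ] in
theorem measurable_kap_aux (t : ℝ) : Measurable fun z : (Fin k → ℝ) × (ι → ℝ≥0) =>
    ENNReal.ofReal (rq v w z.2 * Real.exp (-Qf v w z.2 z.1 t)) :=
  (((measurable_rq v w).comp measurable_snd).mul
    ((continuous_Qf v w t).comp continuous_swap).measurable.neg.exp).ennreal_ofReal

omit hρ in
theorem measurable_kap (t : ℝ) : Measurable (kap v w ρ t) :=
  (measurable_kap_aux v w t).lintegral_prod_right'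

theorem kap_le (x : Fin k → ℝ) (t : ℝ) (hx : ∀ j, aff v w x t j ≠ 0) (y : Fin k → ℝ) :
    kap v w ρ t x ≤ ENNReal.ofReal (Real.exp (-Phi v w p x t) *
      ∑ j, p / 2 * |aff v w x t j| ^ (p - 2) * aff v w y 1 j ^ 2) := by
  classical
  let F : ι → ι → ℝ≥0 → ℝ := fun j i σ =>
    (if i = j then (σ : ℝ) else 1) * Real.exp (-(σ * aff v w x t i ^ 2))
  have hpos : ∀ i, 0 < aff v w x t i ^ 2 := fun i => by have := hx i; positivity
  have hFi : ∀ j i, Integrable (F j i) ρ := by
    intro j i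
    refine (integrable_const (max 1 (aff v w x t i ^ 2)⁻¹)).mono'
      (Continuous.aestronglyMeasurable ?_) (Eventually.of_forall fun σ => ?_)
    · simp only [F]; split_ifs <;> fun_prop
    · have h0 : (0 : ℝ) ≤ σ := σ.2
      simp only [F]
      split_ifs
      · rw [Real.norm_eq_abs, abs_of_nonneg (by positivity)]
        refine le_max_of_le_right ?_
        have h1 := Real.add_one_le_exp (σ * aff v w x t i ^ 2)
        rw [Real.exp_neg, ← div_eq_mul_inv, div_le_iff₀ (Real.exp_pos _), ← div_eq_inv_mul,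
          le_div_iff₀ (hpos i)]
        linarith
      · rw [one_mul, Real.norm_eq_abs, abs_of_pos (Real.exp_pos _)]
        exact le_max_of_le_left (Real.exp_le_one_iff.2 (by nlinarith [hpos i]))
  have hF0 : ∀ j i σ, 0 ≤ F j i σ := by
    intro j i σ
    simp only [F]; split_ifs <;> positivity
  have hFint : ∀ j i, ∫ σ, F j i σ ∂ρ ≤
      (if i = j then p / 2 * |aff v w x t i| ^ (p - 2) else 1) *
        Real.exp (-|aff v w x t i| ^ p) := by
    intro j i
    simp only [F]
    split_ifs with h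
    · rw [abs_rpow_eq_sq p, abs_rpow_eq_sq (p - 2), show (p - 2) / 2 = p / 2 - 1 by ring]
      exact stable_moment hρ (hpos i)
    · simp only [one_mul]
      rw [hρ _ (sq_nonneg _), abs_rpow_eq_sq]
  have hprod : ∀ j, Integrable (fun σ : ι → ℝ≥0 => ∏ i, F j i (σ i)) (Measure.pi fun _ => ρ) :=
    fun j => Integrable.fintype_prod (hFi j)
  have hsum : Integrable (fun σ : ι → ℝ≥0 => ∑ j, aff v w y 1 j ^ 2 * ∏ i, F j i (σ i))
      (Measure.pi fun _ => ρ) := integrable_finsetSum _ fun j _ => (hprod j).const_mul _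
  calc kap v w ρ t x ≤ ∫⁻ σ, ENNReal.ofReal (∑ j, aff v w y 1 j ^ 2 * ∏ i, F j i (σ i))
        ∂(Measure.pi fun _ => ρ) := by
        refine lintegral_mono fun σ => ENNReal.ofReal_le_ofReal ?_
        refine (mul_le_mul_of_nonneg_right (rq_le v w σ y) (Real.exp_pos _).le).trans (le_of_eq ?_)
        simp only [F, Finset.prod_mul_distrib, Finset.prod_ite_eq', Finset.mem_univ, ↓reduceIte,
          ← Real.exp_sum, Finset.sum_neg_distrib]
        rw [Qf, Finset.sum_mul]
        exact Finset.sum_congr rfl fun j _ => by rw [Qf]; ring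
    _ = ENNReal.ofReal (∑ j, aff v w y 1 j ^ 2 * ∏ i, ∫ σ, F j i σ ∂ρ) := by
        rw [← ofReal_integral_eq_lintegral_ofReal hsum (Eventually.of_forall fun σ =>
          Finset.sum_nonneg fun j _ => mul_nonneg (sq_nonneg _)
            (Finset.prod_nonneg fun i _ => hF0 j i _)),
          integral_finsetSum _ fun j _ => (hprod j).const_mul _]
        simp only [integral_const_mul, integral_fintype_prod_eq_prod]
    _ ≤ _ := by
        refine ENNReal.ofReal_le_ofReal ?_
        rw [Finset.mul_sum]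
        refine Finset.sum_le_sum fun j _ => ?_
        refine (mul_le_mul_of_nonneg_left (Finset.prod_le_prod
          (fun i _ => integral_nonneg (hF0 j i)) fun i _ => hFint j i) (sq_nonneg _)).trans
          (le_of_eq ?_)
        simp only [Finset.prod_mul_distrib, Finset.prod_ite_eq', Finset.mem_univ, ↓reduceIte,
          ← Real.exp_sum, Finset.sum_neg_distrib, Phi]
        ring

theorem slope_bound {t t' : ℝ} (ht : t ^ 2 ≤ t' ^ 2) :
    ∫⁻ x, ENNReal.ofReal (Real.exp (-Phi v w p x t)) ≤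
      (∫⁻ x, ENNReal.ofReal (Real.exp (-Phi v w p x t'))) +
        ENNReal.ofReal (t' ^ 2 - t ^ 2) * ∫⁻ x, kap v w ρ t x := by
  have hm : ∀ t : ℝ, Measurable fun z : (Fin k → ℝ) × (ι → ℝ≥0) =>
      ENNReal.ofReal (Real.exp (-Qf v w z.2 z.1 t)) := fun t =>
    ((continuous_Qf v w t).comp continuous_swap).measurable.neg.exp.ennreal_ofReal
  simp only [mixture v w hρ, kap]
  rw [lintegral_lintegral_swap (f := fun x σ => ENNReal.ofReal (Real.exp (-Qf v w σ x t)))
      (hm t).aemeasurable,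
    lintegral_lintegral_swap (f := fun x σ => ENNReal.ofReal (Real.exp (-Qf v w σ x t')))
      (hm t').aemeasurable,
    lintegral_lintegral_swap
      (f := fun x σ => ENNReal.ofReal (rq v w σ * Real.exp (-Qf v w σ x t)))
      (measurable_kap_aux v w t).aemeasurable,
    ← lintegral_const_mul' _ _ ENNReal.ofReal_ne_top,
    ← lintegral_add_left (hm t').lintegral_prod_left']
  refine lintegral_mono fun σ => ?_
  simp only [ENNReal.ofReal_mul (rq_nonneg v w σ)]
  rw [lintegral_const_mul' _ _ ENNReal.ofReal_ne_top, lintegral_Qf v w σ t, lintegral_Qf v w σ t',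
    ← mul_assoc, ← mul_assoc, ← add_mul]
  refine mul_le_mul_left ?_ _
  have h0 := rq_nonneg v w σ
  rw [← ENNReal.ofReal_mul (by linarith), ← ENNReal.ofReal_mul (by nlinarith),
    ← ENNReal.ofReal_add (Real.exp_pos _).le (by
      have : 0 ≤ t' ^ 2 - t ^ 2 := by linarith
      positivity)]
  refine ENNReal.ofReal_le_ofReal ?_
  have h1 : Real.exp (-(t' ^ 2 * rq v w σ)) =
      Real.exp (-(t ^ 2 * rq v w σ)) * Real.exp (-((t' ^ 2 - t ^ 2) * rq v w σ)) := by
    rw [← Real.exp_add]; ring_nf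
  have h2 := Real.add_one_le_exp (-((t' ^ 2 - t ^ 2) * rq v w σ))
  rw [h1]
  nlinarith [Real.exp_pos (-(t ^ 2 * rq v w σ))]

/-- The gain in the midpoint inequality. -/
theorem midpoint_gain (h1 : 1 < p) (h2 : p ≤ 2) (x y : Fin k → ℝ) (t : ℝ) {h : ℝ} (hh : 0 < h)
    (hx : ∀ j, aff v w x t j ≠ 0 ∧
      h ^ 2 * ((p - 1) * (kap v w ρ t x).toReal * Real.exp (Phi v w p x t)) ≤
        p * (p - 1) / 2 * |aff v w x t j| ^ p) :
    2 * Phi v w p x t + 2 * (h ^ 2 * ((p - 1) * (kap v w ρ t x).toReal * Real.exp (Phi v w p x t)))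
      ≤ Phi v w p (x + y) (t + h) + Phi v w p (x - y) (t - h) := by
  have e1 : ∀ j, aff v w (x + y) (t + h) j = aff v w x t j + aff v w y h j := by
    intro j; simp only [aff, add_dotProduct]; ring
  have e2 : ∀ j, aff v w (x - y) (t - h) j = aff v w x t j - aff v w y h j := by
    intro j; simp only [aff, sub_dotProduct]; ring
  have h3 : 2 * Phi v w p x t + p * (p - 1) *
      ∑ j, |aff v w x t j| ^ (p - 2) * min (aff v w y h j ^ 2) (aff v w x t j ^ 2) ≤
      Phi v w p (x + y) (t + h) + Phi v w p (x - y) (t - h) := by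
    simp only [Phi, e1, e2, Finset.mul_sum, ← Finset.sum_add_distrib]
    exact Finset.sum_le_sum fun j _ => two_point h1 h2 _ _
  refine le_trans (add_le_add_right ?_ _) h3
  have hp : 0 < p * (p - 1) := by nlinarith
  by_cases hb : ∀ j, aff v w y h j ^ 2 ≤ aff v w x t j ^ 2
  · simp only [min_eq_left (hb _)]
    have h4 := kap_le v w hρ x t (fun j => (hx j).1) (h⁻¹ • y)
    have h5 := ENNReal.toReal_le_of_le_ofReal (mul_nonneg (Real.exp_pos _).le
      (Finset.sum_nonneg fun j _ => by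
        have : 0 < p := by linarith
        positivity)) h4
    have e3 : ∀ j, aff v w y h j = h * aff v w (h⁻¹ • y) 1 j := by
      intro j; simp only [aff, smul_dotProduct, smul_eq_mul]; field_simp
    have h6 : (kap v w ρ t x).toReal * Real.exp (Phi v w p x t) ≤
        ∑ j, p / 2 * |aff v w x t j| ^ (p - 2) * aff v w (h⁻¹ • y) 1 j ^ 2 := by
      rw [Real.exp_neg, ← div_eq_inv_mul, le_div_iff₀ (Real.exp_pos _)] at h5
      exact h5
    calc 2 * (h ^ 2 * ((p - 1) * (kap v w ρ t x).toReal * Real.exp (Phi v w p x t)))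
        = 2 * h ^ 2 * (p - 1) * ((kap v w ρ t x).toReal * Real.exp (Phi v w p x t)) := by ring
      _ ≤ 2 * h ^ 2 * (p - 1) *
          ∑ j, p / 2 * |aff v w x t j| ^ (p - 2) * aff v w (h⁻¹ • y) 1 j ^ 2 :=
        mul_le_mul_of_nonneg_left h6 (by have : 0 < p - 1 := by linarith
                                         positivity)
      _ = _ := by
        simp only [e3, Finset.mul_sum]
        exact Finset.sum_congr rfl fun j _ => by ring
  · push Not at hb
    obtain ⟨j, hj⟩ := hb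
    have h4 : |aff v w x t j| ^ (p - 2) * min (aff v w y h j ^ 2) (aff v w x t j ^ 2) ≤
        ∑ j, |aff v w x t j| ^ (p - 2) * min (aff v w y h j ^ 2) (aff v w x t j ^ 2) :=
      Finset.single_le_sum
        (f := fun j => |aff v w x t j| ^ (p - 2) * min (aff v w y h j ^ 2) (aff v w x t j ^ 2))
        (fun i _ => by positivity) (Finset.mem_univ j)
    rw [min_eq_right hj.le, ← sq_abs (aff v w x t j), ← Real.rpow_natCast,
      ← Real.rpow_add (abs_pos.2 (hx j).1)] at h4
    norm_num at h4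
    have h5 := (hx j).2
    nlinarith

end Mixture

theorem midpoint_convex {p : ℝ} (h1 : 1 < p) (h2 : p ≤ 2) (x y : Fin k → ℝ) (t h : ℝ) :
    2 * Phi v w p x t ≤ Phi v w p (x + y) (t + h) + Phi v w p (x - y) (t - h) := by
  have e1 : ∀ j, aff v w (x + y) (t + h) j = aff v w x t j + aff v w y h j := by
    intro j; simp only [aff, add_dotProduct]; ring
  have e2 : ∀ j, aff v w (x - y) (t - h) j = aff v w x t j - aff v w y h j := by
    intro j; simp only [aff, sub_dotProduct]; ring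
  simp only [Phi, e1, e2, Finset.mul_sum, ← Finset.sum_add_distrib]
  refine Finset.sum_le_sum fun j _ => le_trans ?_ (two_point h1 h2 _ _)
  have hp : 0 < p * (p - 1) := by nlinarith
  have : 0 ≤ p * (p - 1) *
      (|aff v w x t j| ^ (p - 2) * min (aff v w y h j ^ 2) (aff v w x t j ^ 2)) := by positivity
  linarith

section Integrable

variable {p : ℝ} (hp : 1 ≤ p) (hv : ∀ x, (∀ j, x ⬝ᵥ v j = 0) → x = 0)
include hp hv

theorem exists_dom : ∃ c : ℝ, 0 < c ∧ ∀ x t, Real.exp (-Phi v w p x t) ≤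
    Real.exp (∑ j, (|t| * |w j| + 1)) * Real.exp (-(c * ‖x‖)) := by
  obtain ⟨c, hc, h⟩ := exists_coercive v hv
  refine ⟨c, hc, fun x t => ?_⟩
  rw [← Real.exp_add, Real.exp_le_exp]
  have h1 : ∑ j, |x ⬝ᵥ v j| ≤ Phi v w p x t + ∑ j, (|t| * |w j| + 1) := by
    rw [Phi, ← Finset.sum_add_distrib]
    refine Finset.sum_le_sum fun j _ => ?_
    have h2 := abs_sub_one_le_rpow hp (aff v w x t j)
    have h3 : |x ⬝ᵥ v j| ≤ |aff v w x t j| + |t * w j| := by
      have := abs_sub (aff v w x t j) (t * w j)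
      rwa [show aff v w x t j - t * w j = x ⬝ᵥ v j by simp [aff]] at this
    rw [abs_mul] at h3
    linarith
  linarith [h x]

theorem integrable_slice (t : ℝ) : Integrable fun x => Real.exp (-Phi v w p x t) := by
  obtain ⟨c, hc, h⟩ := exists_dom v w hp hv
  refine ((integrable_exp_neg_norm hc).const_mul (Real.exp (∑ j, (|t| * |w j| + 1)))).mono'
    (Real.continuous_exp.comp (continuous_Phi_x v w (by linarith) t).neg).aestronglyMeasurable
    (Eventually.of_forall fun x => ?_)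
  rw [Real.norm_eq_abs, abs_of_pos (Real.exp_pos _)]
  exact h x t

theorem gs_pos (t : ℝ) : 0 < gs v w p t :=
  integral_exp_pos (integrable_slice v w hp hv t)

theorem ofReal_gs (t : ℝ) :
    ENNReal.ofReal (gs v w p t) = ∫⁻ x, ENNReal.ofReal (Real.exp (-Phi v w p x t)) :=
  ofReal_integral_eq_lintegral_ofReal (integrable_slice v w hp hv t)
    (Eventually.of_forall fun _ => (Real.exp_pos _).le)

theorem continuous_gs : Continuous (gs v w p) := by
  obtain ⟨c, hc, h⟩ := exists_dom v w hp hv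
  refine continuous_iff_continuousAt.2 fun t => ?_
  refine continuousAt_of_dominated (Eventually.of_forall fun s =>
    (integrable_slice v w hp hv s).1) ?_
    ((integrable_exp_neg_norm hc).const_mul (Real.exp (∑ j, ((|t| + 1) * |w j| + 1))))
    (Eventually.of_forall fun x => Continuous.continuousAt ?_)
  · filter_upwards [Metric.ball_mem_nhds t one_pos] with s hs
    refine Eventually.of_forall fun x => ?_
    rw [Real.norm_eq_abs, abs_of_pos (Real.exp_pos _)]
    refine (h x s).trans ?_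
    have : |s| ≤ |t| + 1 := by
      rw [Metric.mem_ball, Real.dist_eq] at hs
      have := abs_sub_abs_le_abs_sub s t
      linarith
    gcongr
  · refine Real.continuous_exp.comp (Continuous.neg ?_)
    exact continuous_finsetSum _ fun j _ =>
      (show Continuous fun t => aff v w x t j by unfold aff; fun_prop).abs.rpow_const
        fun _ => Or.inr (by linarith)

end Integrable

theorem gs_neg (p t : ℝ) : gs v w p (-t) = gs v w p t := by
  rw [gs, gs, ← integral_neg_eq_self]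
  refine integral_congr_ae (Eventually.of_forall fun x => ?_)
  simp only [Phi]
  congr 2
  refine Finset.sum_congr rfl fun j _ => ?_
  rw [← abs_neg]
  congr 2
  simp only [aff, neg_dotProduct]; ring

section Main

variable {p : ℝ} (h1 : 1 < p) (h2 : p ≤ 2) (hv : ∀ x, (∀ j, x ⬝ᵥ v j = 0) → x = 0)
include h1 hv

theorem integrable_slice_gain (t : ℝ) {J : (Fin k → ℝ) → ℝ} (hJ : Measurable J)
    (hJ0 : ∀ x, 0 ≤ J x) : Integrable fun x => Real.exp (-Phi v w p x t - J x) := by
  refine (integrable_slice v w h1.le hv t).mono'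
    ((continuous_Phi_x v w (by linarith) t).measurable.neg.sub hJ).exp.aestronglyMeasurable
    (Eventually.of_forall fun x => ?_)
  rw [Real.norm_eq_abs, abs_of_pos (Real.exp_pos _), Real.exp_le_exp]
  linarith [hJ0 x]

theorem pl_gain (t h : ℝ) {J : (Fin k → ℝ) → ℝ} (hJ : Measurable J) (hJ0 : ∀ x, 0 ≤ J x)
    (H : ∀ x y, 2 * Phi v w p x t + 2 * J x ≤
      Phi v w p (x + y) (t + h) + Phi v w p (x - y) (t - h)) :
    gs v w p (t + h) * gs v w p (t - h) ≤ (∫ x, Real.exp (-Phi v w p x t - J x)) ^ 2 := by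
  have hm : ∀ t, Measurable fun x => Phi v w p x t := fun t =>
    (continuous_Phi_x v w (by linarith) t).measurable
  have h3 := PL.prekopa_leindler
    (f := fun x => ENNReal.ofReal (Real.exp (-Phi v w p x (t + h))))
    (g := fun x => ENNReal.ofReal (Real.exp (-Phi v w p x (t - h))))
    (h := fun x => ENNReal.ofReal (Real.exp (-Phi v w p x t - J x)))
    (hm _).neg.exp.ennreal_ofReal (hm _).neg.exp.ennreal_ofReal
    ((hm _).neg.sub hJ).exp.ennreal_ofReal (fun x y => by
      rw [← ENNReal.ofReal_mul (Real.exp_pos _).le, ← ENNReal.ofReal_pow (Real.exp_pos _).le,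
        ← Real.exp_add, ← Real.exp_nat_mul]
      refine ENNReal.ofReal_le_ofReal (Real.exp_le_exp.2 ?_)
      have := H x y
      push_cast
      linarith)
  rw [← ofReal_gs v w h1.le hv, ← ofReal_gs v w h1.le hv,
    ← ofReal_integral_eq_lintegral_ofReal (integrable_slice_gain v w h1 hv t hJ hJ0)
      (Eventually.of_forall fun _ => (Real.exp_pos _).le),
    ← ENNReal.ofReal_mul (gs_pos v w h1.le hv _).le,
    ← ENNReal.ofReal_pow (integral_nonneg fun _ => (Real.exp_pos _).le)] at h3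
  exact (ENNReal.ofReal_le_ofReal_iff (sq_nonneg _)).1 h3

include h2

theorem gs_midpoint (t h : ℝ) : gs v w p (t + h) * gs v w p (t - h) ≤ gs v w p t ^ 2 := by
  have := pl_gain v w h1 hv t h (J := fun _ => 0) measurable_const (fun _ => le_rfl)
    (fun x y => by simpa using midpoint_convex v w h1 h2 x y t h)
  simpa [gs] using this

theorem curvature_bound (hn : ∀ j, v j ≠ 0 ∨ w j ≠ 0) {ρ : Measure ℝ≥0} [IsProbabilityMeasure ρ]
    (hρ : ∀ τ : ℝ, 0 ≤ τ → ∫ σ, Real.exp (-(σ * τ)) ∂ρ = Real.exp (-τ ^ (p / 2)))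
    {t : ℝ} (ht : 0 < t) {Θ : ℝ → ℝ} {Θ'' : ℝ}
    (hΘ : Tendsto (fun h => (Θ (t + h) + Θ (t - h) - 2 * Θ t) / h ^ 2) (𝓝[>] 0) (𝓝 Θ''))
    (hmin : ∀ᶠ s in 𝓝 t, gs v w p t * Real.exp (Θ s - Θ t) ≤ gs v w p s) :
    ∫⁻ x, kap v w ρ t x ≠ ∞ ∧
      (p - 1) * (∫⁻ x, kap v w ρ t x).toReal ≤ -(gs v w p t * Θ'') / 2 := by
  have c1 : Tendsto (fun h : ℝ => t + h) (𝓝 0) (𝓝 t) := by
    have : Continuous fun h : ℝ => t + h := by fun_prop
    simpa using this.tendsto 0
  have c2 : Tendsto (fun h : ℝ => t - h) (𝓝 0) (𝓝 t) := by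
    have : Continuous fun h : ℝ => t - h := by fun_prop
    simpa using this.tendsto 0
  have hg := gs_pos v w h1.le hv t
  have hΦm : Measurable fun x => Phi v w p x t := (continuous_Phi_x v w (by linarith) t).measurable
  have haffm : ∀ j, Measurable fun x => aff v w x t j := fun j =>
    (show Continuous fun x => aff v w x t j by unfold aff; fun_prop).measurable
  set A : (Fin k → ℝ) → ℝ := fun x =>
    (p - 1) * (kap v w ρ t x).toReal * Real.exp (Phi v w p x t) with hA
  have hAm : Measurable A := ((measurable_kap v w t).ennreal_toReal.const_mul _).mul hΦm.exp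
  have hA0 : ∀ x, 0 ≤ A x := fun x => by
    have : 0 < p - 1 := by linarith
    positivity
  let E : ℝ → Set (Fin k → ℝ) := fun h =>
    {x | ∀ j, aff v w x t j ≠ 0 ∧ h ^ 2 * A x ≤ p * (p - 1) / 2 * |aff v w x t j| ^ p}
  have hE : ∀ h, MeasurableSet (E h) := by
    intro h
    simp only [E, ofPred_forall]
    refine MeasurableSet.iInter fun j => MeasurableSet.inter ?_ ?_
    · exact (measurableSet_eq_fun (haffm j) measurable_const).compl
    · exact measurableSet_le (hAm.const_mul _) (((haffm j).abs.pow_const _).const_mul _)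
  let J : ℝ → (Fin k → ℝ) → ℝ := fun h => (E h).indicator fun x => h ^ 2 * A x
  have hJm : ∀ h, Measurable (J h) := fun h => (hAm.const_mul _).indicator (hE h)
  have hJ0 : ∀ h x, 0 ≤ J h x := fun h x =>
    indicator_nonneg (fun x _ => mul_nonneg (sq_nonneg _) (hA0 x)) x
  let f : ℝ → (Fin k → ℝ) → ℝ := fun h x =>
    (Real.exp (-Phi v w p x t) - Real.exp (-Phi v w p x t - J h x)) / h ^ 2
  have hf0 : ∀ h x, 0 ≤ f h x := fun h x =>
    div_nonneg (sub_nonneg.2 (Real.exp_le_exp.2 (by linarith [hJ0 h x]))) (sq_nonneg _)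
  have hfi : ∀ h, Integrable (f h) := fun h =>
    ((integrable_slice v w h1.le hv t).sub
      (integrable_slice_gain v w h1 hv t (hJm h) (hJ0 h))).div_const _
  have hfm : ∀ h, Measurable (f h) := fun h =>
    (hΦm.neg.exp.sub (hΦm.neg.sub (hJm h)).exp).div_const _
  have hD : ∀ᶠ h in 𝓝[>] (0 : ℝ), ∫ x, f h x ≤
      -(gs v w p t * ((Θ (t + h) + Θ (t - h) - 2 * Θ t) / h ^ 2)) / 2 := by
    filter_upwards [self_mem_nhdsWithin, nhdsWithin_le_nhds (c1 hmin),
      nhdsWithin_le_nhds (c2 hmin)] with h hh a b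
    have hh : 0 < h := hh
    have a : gs v w p t * Real.exp (Θ (t + h) - Θ t) ≤ gs v w p (t + h) := a
    have b : gs v w p t * Real.exp (Θ (t - h) - Θ t) ≤ gs v w p (t - h) := b
    have h3 := pl_gain v w h1 hv t h (hJm h) (hJ0 h) (fun x y => by
      by_cases hx : x ∈ E h
      · simp only [J, indicator_of_mem hx]
        exact midpoint_gain v w hρ h1 h2 x y t hh hx
      · simp only [J, indicator_of_notMem hx, mul_zero, add_zero]
        exact midpoint_convex v w h1 h2 x y t h)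
    have h4 : (gs v w p t * Real.exp ((Θ (t + h) + Θ (t - h) - 2 * Θ t) / 2)) ^ 2 ≤
        (∫ x, Real.exp (-Phi v w p x t - J h x)) ^ 2 := by
      refine le_trans (le_of_eq ?_) ((mul_le_mul a b (by positivity)
        (gs_pos v w h1.le hv _).le).trans h3)
      rw [mul_pow, ← Real.exp_nat_mul, mul_mul_mul_comm, ← Real.exp_add, sq]
      congr 2; push_cast; ring
    have h5 := abs_le_of_sq_le_sq' h4 (integral_nonneg fun _ => (Real.exp_pos _).le)
    have h6 := Real.add_one_le_exp ((Θ (t + h) + Θ (t - h) - 2 * Θ t) / 2)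
    simp only [f]
    rw [integral_div, integral_sub (integrable_slice v w h1.le hv t)
      (integrable_slice_gain v w h1 hv t (hJm h) (hJ0 h)), div_le_iff₀ (by positivity)]
    have e : -(gs v w p t * ((Θ (t + h) + Θ (t - h) - 2 * Θ t) / h ^ 2)) / 2 * h ^ 2 =
        -(gs v w p t * ((Θ (t + h) + Θ (t - h) - 2 * Θ t) / 2)) := by field_simp
    rw [e]
    have h7 := mul_le_mul_of_nonneg_left h6 hg.le
    have h8 := h5.2
    change gs v w p t - _ ≤ _
    linarith
  have hlim : Tendsto (fun h => -(gs v w p t * ((Θ (t + h) + Θ (t - h) - 2 * Θ t) / h ^ 2)) / 2)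
      (𝓝[>] 0) (𝓝 (-(gs v w p t * Θ'') / 2)) := (hΘ.const_mul _).neg.div_const _
  have hpos : 0 ≤ -(gs v w p t * Θ'') / 2 :=
    ge_of_tendsto hlim (by
      filter_upwards [hD] with h hh using (integral_nonneg (hf0 h)).trans hh)
  have hae : ∀ᵐ x : Fin k → ℝ, ∀ j, aff v w x t j ≠ 0 := by
    rw [ae_all_iff]
    intro j
    exact ae_dot_ne ((hn j).imp_right fun h => mul_ne_zero ht.ne' h)
  have hpt : ∀ᵐ x : Fin k → ℝ, ENNReal.ofReal (p - 1) * kap v w ρ t x =
      liminf (fun h => ENNReal.ofReal (f h x)) (𝓝[>] 0) := by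
    filter_upwards [hae] with x hx
    have hk : kap v w ρ t x ≠ ∞ := ne_top_of_le_ne_top ENNReal.ofReal_ne_top
      (kap_le v w hρ x t hx 0)
    refine (Tendsto.liminf_eq ?_).symm
    rw [← ENNReal.ofReal_toReal hk, ← ENNReal.ofReal_mul (by linarith)]
    refine ENNReal.tendsto_ofReal ?_
    have hsq : Tendsto (fun h : ℝ => h ^ 2) (𝓝[>] 0) (𝓝[>] 0) := by
      refine tendsto_nhdsWithin_iff.2 ⟨?_, ?_⟩
      · have : Continuous fun h : ℝ => h ^ 2 := by fun_prop
        have := this.tendsto 0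
        simp only [ne_eq, OfNat.ofNat_ne_zero, not_false_eq_true, zero_pow] at this
        exact this.mono_left nhdsWithin_le_nhds
      · filter_upwards [self_mem_nhdsWithin] with h hh
        exact pow_pos (show 0 < h from hh) 2
    have hd : HasDerivAt (fun u => -Real.exp (-Phi v w p x t - u * A x))
        (-(Real.exp (-Phi v w p x t - 0 * A x) * -(1 * A x))) 0 :=
      (((hasDerivAt_id (0 : ℝ)).mul_const (A x)).const_sub _).exp.neg
    have h3 := hd.tendsto_slope_zero_right.comp hsq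
    have e : -(Real.exp (-Phi v w p x t - 0 * A x) * -(1 * A x)) =
        (p - 1) * (kap v w ρ t x).toReal := by
      simp only [hA, zero_mul, sub_zero, Real.exp_neg]
      field_simp
    rw [e] at h3
    refine h3.congr' ?_
    have hev : ∀ᶠ h in 𝓝[>] (0 : ℝ), x ∈ E h := by
      simp only [E, mem_ofPred_eq, eventually_all]
      intro j
      have h4 : 0 < p * (p - 1) / 2 * |aff v w x t j| ^ p := by
        have := abs_pos.2 (hx j)
        have : 0 < p * (p - 1) := by nlinarith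
        positivity
      have h5 : Tendsto (fun h : ℝ => h ^ 2 * A x) (𝓝[>] 0) (𝓝 (0 * A x)) :=
        (hsq.mono_right nhdsWithin_le_nhds).mul_const _
      rw [zero_mul] at h5
      filter_upwards [h5.eventually (ge_mem_nhds h4)] with h hh using ⟨hx j, hh⟩
    filter_upwards [hev] with h hh
    simp only [f, J, indicator_of_mem hh, Function.comp, zero_add, zero_mul, sub_zero, smul_eq_mul]
    ring
  have hF : ENNReal.ofReal (p - 1) * ∫⁻ x, kap v w ρ t x ≤
      ENNReal.ofReal (-(gs v w p t * Θ'') / 2) := by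
    rw [← lintegral_const_mul' _ _ ENNReal.ofReal_ne_top, lintegral_congr_ae hpt]
    refine (lintegral_liminf_le fun h => (hfm h).ennreal_ofReal).trans ?_
    rw [← (ENNReal.tendsto_ofReal hlim).liminf_eq]
    refine liminf_le_liminf ?_
    filter_upwards [hD] with h hh
    rw [← ofReal_integral_eq_lintegral_ofReal (hfi h) (Eventually.of_forall (hf0 h))]
    exact ENNReal.ofReal_le_ofReal hh
  have hK : ∫⁻ x, kap v w ρ t x ≠ ∞ := by
    intro hK
    rw [hK, ENNReal.mul_top (by simpa using h1)] at hF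
    exact ENNReal.ofReal_ne_top (top_le_iff.1 hF)
  refine ⟨hK, ?_⟩
  rw [← ENNReal.ofReal_toReal hK, ← ENNReal.ofReal_mul (by linarith)] at hF
  exact (ENNReal.ofReal_le_ofReal_iff hpos).1 hF

theorem local_min (hn : ∀ j, v j ≠ 0 ∨ w j ≠ 0) {t : ℝ} (ht : 0 < t) {Θ Θ' : ℝ → ℝ} {Θ'' : ℝ}
    (hd1 : ∀ᶠ s in 𝓝 t, HasDerivAt Θ (Θ' s) s) (hd2 : HasDerivAt Θ' Θ'' t)
    (hmin : ∀ᶠ s in 𝓝 t, gs v w p t * Real.exp (Θ s - Θ t) ≤ gs v w p s) :
    t * Θ'' ≤ (p - 1) * Θ' t := by
  obtain ⟨ρ, hρp, hρ⟩ := exists_stable (α := p / 2) (by linarith) (by linarith)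
  obtain ⟨hK, hc⟩ := curvature_bound v w h1 h2 hv hn hρ ht (second_diff hd1 hd2) hmin
  have hg := gs_pos v w h1.le hv t
  set K := (∫⁻ x, kap v w ρ t x).toReal with hKdef
  have c2 : Tendsto (fun h : ℝ => t - h) (𝓝 0) (𝓝 t) := by
    have : Continuous fun h : ℝ => t - h := by fun_prop
    simpa using this.tendsto 0
  have hd : HasDerivAt (fun h => gs v w p t * Real.exp (Θ t - Θ (t - h)) + (2 * t * h + h ^ 2) * K)
      (gs v w p t * Θ' t + 2 * t * K) 0 := by
    have b : HasDerivAt (fun h => Θ (t - h)) (-Θ' t) 0 :=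
      HasDerivAt.comp_const_sub t 0 (by simpa using hd1.self_of_nhds)
    have b2 := ((b.const_sub (Θ t)).exp).const_mul (gs v w p t)
    have b3 := (((hasDerivAt_id (0 : ℝ)).const_mul (2 * t)).add (hasDerivAt_pow 2 (0 : ℝ))).mul_const K
    refine (b2.add b3).congr_deriv ?_
    simp
  have h3 : 0 ≤ gs v w p t * Θ' t + 2 * t * K := by
    refine ge_of_tendsto hd.tendsto_slope_zero_right ?_
    filter_upwards [self_mem_nhdsWithin, nhdsWithin_le_nhds (c2 hmin)] with h hh b
    have hh : 0 < h := hh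
    have b : gs v w p t * Real.exp (Θ (t - h) - Θ t) ≤ gs v w p (t - h) := b
    refine mul_nonneg (inv_nonneg.2 hh.le) ?_
    simp only [zero_add, sub_zero, sub_self, Real.exp_zero, mul_one, mul_zero, ne_eq,
      OfNat.ofNat_ne_zero, not_false_eq_true, zero_pow, add_zero, zero_mul]
    have h4 := slope_bound v w hρ (t := t) (t' := t + h) (by nlinarith)
    have h0 : 0 ≤ (t + h) ^ 2 - t ^ 2 := by nlinarith
    rw [← ofReal_gs v w h1.le hv, ← ofReal_gs v w h1.le hv, ← ENNReal.ofReal_toReal hK, ← hKdef,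
      ← ENNReal.ofReal_mul h0,
      ← ENNReal.ofReal_add (gs_pos v w h1.le hv _).le (by positivity),
      ENNReal.ofReal_le_ofReal_iff (add_nonneg (gs_pos v w h1.le hv _).le (by positivity))] at h4
    have h5 := gs_midpoint v w h1 h2 hv t h
    have h6 : gs v w p (t + h) ≤ gs v w p t * Real.exp (Θ t - Θ (t - h)) := by
      have h7 : gs v w p (t + h) * (gs v w p t * Real.exp (Θ (t - h) - Θ t)) ≤ gs v w p t ^ 2 :=
        (mul_le_mul_of_nonneg_left b (gs_pos v w h1.le hv _).le).trans h5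
      rw [show Θ t - Θ (t - h) = -(Θ (t - h) - Θ t) by ring, Real.exp_neg, ← div_eq_mul_inv,
        le_div_iff₀ (Real.exp_pos _)]
      nlinarith
    nlinarith
  have h4 : gs v w p t * (t * Θ'') ≤ gs v w p t * ((p - 1) * Θ' t) := by nlinarith
  exact le_of_mul_le_mul_left h4 hg

/-- Quasi-concavity form of the concavity of `τ ↦ log g (τ ^ (1 / p))`. -/
theorem gs_quasi (hn : ∀ j, v j ≠ 0 ∨ w j ≠ 0) {κ c t₁ t t₂ : ℝ} (ht₁ : 0 < t₁) (h3 : t₁ ≤ t)
    (h4 : t ≤ t₂) (a : c * Real.exp (-(κ * t₁ ^ p)) ≤ gs v w p t₁)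
    (b : c * Real.exp (-(κ * t₂ ^ p)) ≤ gs v w p t₂) :
    c * Real.exp (-(κ * t ^ p)) ≤ gs v w p t := by
  by_contra hc
  push Not at hc
  have hgp := gs_pos v w h1.le hv
  have hc0 : 0 < c := by
    by_contra h
    nlinarith [hgp t, Real.exp_pos (-(κ * t ^ p))]
  have l1 : ∀ s, c * Real.exp (-(κ * s ^ p)) ≤ gs v w p s ↔
      Real.log c ≤ Real.log (gs v w p s) + κ * s ^ p := by
    intro s
    rw [← Real.log_le_log_iff (by positivity) (hgp s), Real.log_mul hc0.ne' (Real.exp_pos _).ne',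
      Real.log_exp]
    constructor <;> intro h <;> linarith
  rw [l1] at a b
  have hc' : Real.log (gs v w p t) + κ * t ^ p < Real.log c := by
    rw [← not_le, ← l1]; exact not_le.2 hc
  set d := Real.log c - (Real.log (gs v w p t) + κ * t ^ p) with hd
  have hd0 : 0 < d := by linarith
  have ht0 : 0 < t := by linarith
  have ht2 : 0 < t₂ := by linarith
  set ε := d / (2 * t₂ ^ 3) with hε
  have hε0 : 0 < ε := by positivity
  have hε1 : ε * t₂ ^ 3 = d / 2 := by rw [hε]; field_simp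
  let Θ : ℝ → ℝ := fun s => -(κ * s ^ p) + ε * s ^ 3
  let ψ : ℝ → ℝ := fun s => Real.log (gs v w p s) - Θ s
  have hψ : Continuous ψ := by
    refine ((continuous_gs v w h1.le hv).log fun s => (hgp s).ne').sub ?_
    refine Continuous.add (Continuous.neg (continuous_const.mul ?_)) (by fun_prop)
    exact continuous_id.rpow_const fun _ => Or.inr (by linarith)
  obtain ⟨s, hs, hmin⟩ := (isCompact_Icc (a := t₁) (b := t₂)).exists_isMinOn ⟨t, h3, h4⟩
    hψ.continuousOn
  have hst : ψ s ≤ ψ t := hmin ⟨h3, h4⟩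
  have e1 : ε * t₁ ^ 3 ≤ ε * t₂ ^ 3 := by gcongr; linarith
  have e2 : 0 < ε * t ^ 3 := by positivity
  have hs1 : t₁ < s := lt_of_le_of_ne hs.1 (by
    rintro rfl
    simp only [ψ, Θ] at hst
    linarith)
  have hs2 : s < t₂ := lt_of_le_of_ne hs.2 (by
    rintro rfl
    simp only [ψ, Θ] at hst
    linarith)
  have hs0 : 0 < s := by linarith
  have key := local_min v w h1 h2 hv hn hs0 (Θ := Θ)
    (Θ' := fun r => -(κ * (p * r ^ (p - 1))) + ε * (3 * r ^ 2))
    (Θ'' := -(κ * (p * ((p - 1) * s ^ (p - 1 - 1)))) + ε * (3 * (2 * s))) ?_ ?_ ?_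
  · have e3 : s * s ^ (p - 1 - 1) = s ^ (p - 1) := by
      rw [mul_comm, ← Real.rpow_add_one hs0.ne']; congr 1; ring
    have e4 : s * (-(κ * (p * ((p - 1) * s ^ (p - 1 - 1)))) + ε * (3 * (2 * s))) =
        -(κ * (p * ((p - 1) * (s * s ^ (p - 1 - 1))))) + 6 * (ε * s ^ 2) := by ring
    rw [e4, e3] at key
    have : 0 < ε * s ^ 2 := by positivity
    nlinarith
  · refine Eventually.of_forall fun r => ?_
    have a1 := ((Real.hasDerivAt_rpow_const (x := r) (p := p) (Or.inr h1.le)).const_mul κ).neg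
    have a2 := (hasDerivAt_pow 3 r).const_mul ε
    exact (a1.add a2).congr_deriv (by simp)
  · have a1 := (((Real.hasDerivAt_rpow_const (x := s) (p := p - 1)
      (Or.inl hs0.ne')).const_mul p).const_mul κ).neg
    have a2 := ((hasDerivAt_pow 2 s).const_mul 3).const_mul ε
    exact (a1.add a2).congr_deriv (by simp)
  · filter_upwards [Ioo_mem_nhds hs1 hs2] with r hr
    have : ψ s ≤ ψ r := hmin ⟨hr.1.le, hr.2.le⟩
    rw [← Real.log_le_log_iff (mul_pos (hgp s) (Real.exp_pos _)) (hgp r),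
      Real.log_mul (hgp s).ne' (Real.exp_pos _).ne', Real.log_exp]
    simp only [ψ] at this
    linarith

end Main

end Pool.Agent.MP85210c

end

-- part MP_85210c_gt.Laplace
section

/-!
# The Laplace transform bound

For `1 < p ≤ 2`, `φ z = ∑ c i |z ⬝ᵥ u i| ^ p` and `T = |z ⬝ᵥ e| ^ p`, under the probability
measure proportional to `exp (-φ)` one has `E exp (-s T) ≤ (1 + p s E T) ^ (-1 / p)`.
-/

set_option autoImplicit false

open MeasureTheory Set Filter
open scoped ENNReal NNReal Topology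

namespace Pool.Agent.MP85210c

theorem integral_abs_rpow_exp {p q b : ℝ} (hp : 0 < p) (hq : -1 < q) (hb : 0 < b) :
    ∫ t : ℝ, |t| ^ q * Real.exp (-(b * |t| ^ p)) =
      2 * (b ^ (-(q + 1) / p) * (1 / p) * Real.Gamma ((q + 1) / p)) := by
  rw [← integral_rpow_mul_exp_neg_mul_rpow hp hq hb,
    ← integral_comp_abs (f := fun x => x ^ q * Real.exp (-b * x ^ p))]
  simp only [neg_mul]

theorem integrable_abs_rpow_exp {p q b : ℝ} (hp : 0 < p) (hq : -1 < q) (hb : 0 < b) :
    Integrable fun t : ℝ => |t| ^ q * Real.exp (-(b * |t| ^ p)) := by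
  refine Integrable.of_integral_ne_zero ?_
  rw [integral_abs_rpow_exp hp hq hb]
  have : 0 < Real.Gamma ((q + 1) / p) := Real.Gamma_pos_of_pos (div_pos (by linarith) hp)
  positivity

theorem exists_secant {s a b : ℝ} (hab : a ≤ b) :
    ∃ α β : ℝ, (∀ τ, a ≤ τ → τ ≤ b → Real.exp (-(s * τ)) ≤ α + β * τ) ∧
      ∀ τ, τ ≤ a ∨ b ≤ τ → α + β * τ ≤ Real.exp (-(s * τ)) := by
  rcases hab.eq_or_lt with rfl | hab
  · refine ⟨Real.exp (-(s * a)) * (1 + s * a), -(s * Real.exp (-(s * a))), ?_, ?_⟩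
    · intro τ h1 h2
      obtain rfl : τ = a := le_antisymm h2 h1
      exact le_of_eq (by ring)
    · intro τ _
      have h1 : Real.exp (-(s * τ)) = Real.exp (-(s * a)) * Real.exp (-(s * (τ - a))) := by
        rw [← Real.exp_add]; ring_nf
      have h2 := Real.add_one_le_exp (-(s * (τ - a)))
      rw [h1]
      nlinarith [Real.exp_pos (-(s * a))]
  set β := (Real.exp (-(s * b)) - Real.exp (-(s * a))) / (b - a) with hβ
  set α := Real.exp (-(s * a)) - β * a with hα
  have hc : ConvexOn ℝ univ fun τ => Real.exp (-(s * τ)) - (α + β * τ) := by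
    refine ⟨convex_univ, fun x _ y _ l m hl hm hlm => ?_⟩
    have := convexOn_exp.2 (mem_univ (-(s * x))) (mem_univ (-(s * y))) hl hm hlm
    simp only [smul_eq_mul] at this ⊢
    rw [show -(s * (l * x + m * y)) = l * -(s * x) + m * -(s * y) by ring]
    have e : α = (l + m) * α := by rw [hlm, one_mul]
    linarith
  have ha : Real.exp (-(s * a)) - (α + β * a) = 0 := by rw [hα]; ring
  have hb : Real.exp (-(s * b)) - (α + β * b) = 0 := by
    have : β * (b - a) = Real.exp (-(s * b)) - Real.exp (-(s * a)) := by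
      rw [hβ]; exact div_mul_cancel₀ _ (by linarith)
    rw [hα]; linarith
  refine ⟨α, β, fun τ h1 h2 => ?_, fun τ h => ?_⟩
  · have := hc.le_max_of_mem_Icc (mem_univ a) (mem_univ b) ⟨h1, h2⟩
    simp only [ha, hb, max_self] at this
    linarith
  · rcases h with h | h
    · have := hc.le_left_of_right_le'' (mem_univ τ) (mem_univ b) h hab (by simp only [ha, hb]; rfl)
      simp only [ha] at this
      linarith
    · have := hc.le_right_of_left_le'' (mem_univ a) (mem_univ τ) hab h (by simp only [ha, hb]; rfl)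
      simp only [hb] at this
      linarith

theorem exists_affine {p s : ℝ} (hp : 0 < p) (hs : 0 ≤ s) {P : Set ℝ} (hP : P ⊆ Ioi 0)
    (hc : OrdConnected P) :
    ∃ α β : ℝ, ∀ t, 0 < t → (t ∈ P → Real.exp (-(s * t ^ p)) ≤ α + β * t ^ p) ∧
      (t ∉ P → α + β * t ^ p ≤ Real.exp (-(s * t ^ p))) := by
  rcases P.eq_empty_or_nonempty with rfl | hne
  · exact ⟨0, 0, fun t _ => ⟨fun h => h.elim, fun _ => by simpa using (Real.exp_pos _).le⟩⟩
  have hbd : BddBelow P := ⟨0, fun t ht => (hP ht).le⟩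
  have ha0 : 0 ≤ sInf P := le_csInf hne fun t ht => (hP ht).le
  by_cases hu : BddAbove P
  · obtain ⟨α, β, h1, h2⟩ := exists_secant (s := s) (a := sInf P ^ p) (b := sSup P ^ p)
      (Real.rpow_le_rpow ha0 (csInf_le_csSup hne hbd hu) hp.le)
    refine ⟨α, β, fun t ht => ⟨fun h => h1 _ ?_ ?_, fun h => h2 _ ?_⟩⟩
    · exact Real.rpow_le_rpow ha0 (csInf_le hbd h) hp.le
    · exact Real.rpow_le_rpow ht.le (le_csSup hu h) hp.le
    · by_cases h3 : t ≤ sInf P
      · exact Or.inl (Real.rpow_le_rpow ht.le h3 hp.le)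
      by_cases h4 : sSup P ≤ t
      · exact Or.inr (Real.rpow_le_rpow (ha0.trans (csInf_le_csSup hne hbd hu)) h4 hp.le)
      obtain ⟨x, hx, hxt⟩ := exists_lt_of_csInf_lt hne (not_le.1 h3)
      obtain ⟨y, hy, hyt⟩ := exists_lt_of_lt_csSup hne (not_le.1 h4)
      exact absurd (hc.out hx hy ⟨hxt.le, hyt.le⟩) h
  · refine ⟨Real.exp (-(s * sInf P ^ p)), 0, fun t ht => ⟨fun h => ?_, fun h => ?_⟩⟩
    · rw [zero_mul, add_zero, Real.exp_le_exp, neg_le_neg_iff]
      exact mul_le_mul_of_nonneg_left (Real.rpow_le_rpow ha0 (csInf_le hbd h) hp.le) hs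
    · rw [zero_mul, add_zero, Real.exp_le_exp, neg_le_neg_iff]
      refine mul_le_mul_of_nonneg_left (Real.rpow_le_rpow ht.le ?_ hp.le) hs
      by_contra h3
      obtain ⟨x, hx, hxt⟩ := exists_lt_of_csInf_lt hne (not_le.1 h3)
      obtain ⟨y, hy, hyt⟩ := not_bddAbove_iff.1 hu t
      exact absurd (hc.out hx hy ⟨hxt.le, hyt.le⟩) h

theorem laplace_one {p s : ℝ} (hp : 0 < p) (hs : 0 ≤ s) {g : ℝ → ℝ} (hg0 : ∀ t, 0 < g t)
    (hge : ∀ t, g |t| = g t) (hgi : Integrable g) (hgm : Integrable fun t => |t| ^ p * g t)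
    (hq : ∀ κ c t₁ t t₂ : ℝ, 0 < t₁ → t₁ ≤ t → t ≤ t₂ → c * Real.exp (-(κ * t₁ ^ p)) ≤ g t₁ →
      c * Real.exp (-(κ * t₂ ^ p)) ≤ g t₂ → c * Real.exp (-(κ * t ^ p)) ≤ g t) :
    ∫ t, Real.exp (-(s * |t| ^ p)) * g t ≤
      (∫ t, g t) * (1 + p * s * ((∫ t, |t| ^ p * g t) / ∫ t, g t)) ^ (-(1 / p)) := by
  set A := ∫ t, g t with hA
  set M := ∫ t, |t| ^ p * g t with hM
  have hA0 : 0 < A := by
    rw [hA, integral_pos_iff_support_of_nonneg (fun t => (hg0 t).le) hgi]
    have : Function.support g = univ := by ext t; simpa using (hg0 t).ne'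
    simp [this]
  have hM0 : 0 < M := by
    rw [hM, integral_pos_iff_support_of_nonneg
      (fun t => mul_nonneg (by positivity) (hg0 t).le) hgm]
    have : Ioi (0 : ℝ) ⊆ Function.support fun t => |t| ^ p * g t := fun t ht =>
      (mul_pos (Real.rpow_pos_of_pos (abs_pos.2 (ne_of_gt ht)) _) (hg0 t)).ne'
    exact lt_of_lt_of_le (by simp) (measure_mono this)
  set κ := A / (p * M) with hκ
  have hκ0 : 0 < κ := by positivity
  have hΓ : 0 < Real.Gamma (1 / p) := Real.Gamma_pos_of_pos (by positivity)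
  set C := A / (2 * (κ ^ (-1 / p) * (1 / p) * Real.Gamma (1 / p))) with hC
  have hC0 : 0 < C := by positivity
  have i0 : ∀ b : ℝ, 0 < b → Integrable fun t : ℝ => Real.exp (-(b * |t| ^ p)) := fun b hb => by
    simpa using integrable_abs_rpow_exp hp neg_one_lt_zero hb
  have v0 : ∀ b : ℝ, 0 < b → ∫ t : ℝ, Real.exp (-(b * |t| ^ p)) =
      2 * (b ^ (-1 / p) * (1 / p) * Real.Gamma (1 / p)) := fun b hb => by
    simpa using integral_abs_rpow_exp hp neg_one_lt_zero hb
  have i1 := integrable_abs_rpow_exp hp (show -1 < p by linarith) hκ0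
  have v1 := integral_abs_rpow_exp hp (show -1 < p by linarith) hκ0
  have m0 : C * ∫ t : ℝ, Real.exp (-(κ * |t| ^ p)) = A := by
    rw [v0 κ hκ0, hC]; exact div_mul_cancel₀ _ (by positivity)
  have m1 : C * ∫ t : ℝ, |t| ^ p * Real.exp (-(κ * |t| ^ p)) = M := by
    rw [v1, show (p + 1) / p = 1 / p + 1 by field_simp; ring,
      Real.Gamma_add_one (by positivity), show -(p + 1) / p = -1 / p + -1 by field_simp; ring,
      Real.rpow_add hκ0, Real.rpow_neg_one, hC]
    have : 0 < κ ^ (-1 / p) := by positivity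
    rw [hκ] at this ⊢
    field_simp
  obtain ⟨α, β, hL⟩ := exists_affine hp hs
    (P := {t | 0 < t ∧ C * Real.exp (-(κ * t ^ p)) ≤ g t}) (fun t ht => ht.1)
    ⟨fun x hx y hy z hz => ⟨hx.1.trans_le hz.1, hq κ C x z y hx.1 hz.1 hz.2 hx.2 hy.2⟩⟩
  have i2 : Integrable fun t => Real.exp (-(s * |t| ^ p)) * g t := by
    refine hgi.mono' (AEStronglyMeasurable.mul (Measurable.aestronglyMeasurable (by fun_prop))
      hgi.1) (Eventually.of_forall fun t => ?_)
    rw [Real.norm_eq_abs, abs_of_pos (mul_pos (Real.exp_pos _) (hg0 t))]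
    exact mul_le_of_le_one_left (hg0 t).le (Real.exp_le_one_iff.2 (by
      have : 0 ≤ s * |t| ^ p := by positivity
      linarith))
  have key : ∫ t, Real.exp (-(s * |t| ^ p)) * g t ≤
      ∫ t, (C * Real.exp (-((κ + s) * |t| ^ p)) + (α * (g t - C * Real.exp (-(κ * |t| ^ p))) +
        β * (|t| ^ p * g t - C * (|t| ^ p * Real.exp (-(κ * |t| ^ p)))))) := by
    refine integral_mono_ae i2 (((i0 _ (by linarith)).const_mul C).add
      (((hgi.sub ((i0 _ hκ0).const_mul C)).const_mul α).add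
        ((hgm.sub (i1.const_mul C)).const_mul β))) ?_
    filter_upwards [compl_mem_ae_iff.2 (measure_singleton (0 : ℝ))] with t ht
    have ht0 : 0 < |t| := abs_pos.2 ht
    obtain ⟨h1, h2⟩ := hL _ ht0
    have e : Real.exp (-((κ + s) * |t| ^ p)) =
        Real.exp (-(s * |t| ^ p)) * Real.exp (-(κ * |t| ^ p)) := by
      rw [← Real.exp_add]; ring_nf
    rw [e]
    by_cases h : C * Real.exp (-(κ * |t| ^ p)) ≤ g t
    · have := h1 ⟨ht0, by rw [hge]; exact h⟩
      nlinarith [mul_nonneg (sub_nonneg.2 this) (sub_nonneg.2 h)]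
    · have := h2 fun hc => h (by rw [← hge]; exact hc.2)
      nlinarith [mul_nonneg (sub_nonneg.2 this) (sub_nonneg.2 (not_le.1 h).le)]
  have j1 : Integrable fun t => g t - C * Real.exp (-(κ * |t| ^ p)) :=
    hgi.sub ((i0 _ hκ0).const_mul C)
  have j2 : Integrable fun t => |t| ^ p * g t - C * (|t| ^ p * Real.exp (-(κ * |t| ^ p))) :=
    hgm.sub (i1.const_mul C)
  have j3 : Integrable fun t => α * (g t - C * Real.exp (-(κ * |t| ^ p))) +
      β * (|t| ^ p * g t - C * (|t| ^ p * Real.exp (-(κ * |t| ^ p)))) :=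
    (j1.const_mul α).add (j2.const_mul β)
  rw [integral_add ((i0 _ (by linarith)).const_mul C) j3,
    integral_add (j1.const_mul α) (j2.const_mul β), integral_const_mul, integral_const_mul,
    integral_const_mul, integral_sub hgi ((i0 _ hκ0).const_mul C),
    integral_sub hgm (i1.const_mul C), integral_const_mul, integral_const_mul, m0, m1,
    v0 _ (by linarith)] at key
  refine key.trans (le_of_eq ?_)
  have e1 : 1 + p * s * (M / A) = (κ + s) / κ := by rw [hκ]; field_simp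
  rw [← hA, ← hM, e1, Real.div_rpow (by linarith) hκ0.le, hC, neg_div]
  have : 0 < κ ^ (-(1 / p)) := by positivity
  field_simp
  ring

variable {ι : Type*} [Fintype ι]

theorem lintegral_disint {k : ℕ} (j : Fin (k + 1)) (e : Fin (k + 1) → ℝ) (he : e j ≠ 0)
    {F : (Fin (k + 1) → ℝ) → ℝ≥0∞} (hF : Measurable F) :
    ∫⁻ z, F z = ENNReal.ofReal |(e j)⁻¹| * ∫⁻ t : ℝ, ∫⁻ x : Fin k → ℝ,
      F (j.insertNth ((t - x ⬝ᵥ j.removeNth e) / e j) x) := by
  have hm : Measurable fun z : ℝ × (Fin k → ℝ) =>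
      F (j.insertNth ((z.1 - z.2 ⬝ᵥ j.removeNth e) / e j) z.2) :=
    (hF.comp (PL.measurable_insertNth j)).comp
      (f := fun z : ℝ × (Fin k → ℝ) => ((z.1 - z.2 ⬝ᵥ j.removeNth e) / e j, z.2))
      (Continuous.measurable (by fun_prop))
  rw [PL.lintegral_insertNth j hF,
    lintegral_lintegral_swap (f := fun t x => F (j.insertNth t x))
      (hF.comp (PL.measurable_insertNth j)).aemeasurable,
    lintegral_lintegral_swap
      (f := fun t x => F (j.insertNth ((t - x ⬝ᵥ j.removeNth e) / e j) x)) hm.aemeasurable,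
    ← lintegral_const_mul' _ _ ENNReal.ofReal_ne_top]
  refine lintegral_congr fun x => ?_
  have hG : Measurable fun t : ℝ => F (j.insertNth (t / e j) x) :=
    (hF.comp (PL.measurable_insertNth j)).comp (f := fun t : ℝ => (t / e j, x)) (by fun_prop)
  rw [lintegral_sub_right_eq_self (fun t => F (j.insertNth (t / e j) x)),
    ← smul_eq_mul, ← lintegral_smul_measure, ← Real.map_volume_mul_right he,
    lintegral_map hG (by fun_prop)]
  simp only [mul_div_cancel_right₀ _ he]

theorem dot_insertNth {k : ℕ} (j : Fin (k + 1)) (τ : ℝ) (x : Fin k → ℝ) (u : Fin (k + 1) → ℝ) :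
    (j.insertNth τ x : Fin (k + 1) → ℝ) ⬝ᵥ u = τ * u j + x ⬝ᵥ j.removeNth u := by
  simp [dotProduct, Fin.sum_univ_succAbove _ j, Fin.removeNth]

theorem laplace_unweighted {n : ℕ} {p s : ℝ} (h1 : 1 < p) (h2 : p ≤ 2) (hs : 0 ≤ s)
    (u : ι → Fin n → ℝ) (hu : ∀ i, u i ≠ 0) (hd : ∀ z, (∀ i, z ⬝ᵥ u i = 0) → z = 0)
    {e : Fin n → ℝ} (he : e ≠ 0)
    (hA : Integrable fun z => Real.exp (-∑ i, |z ⬝ᵥ u i| ^ p))
    (hM : Integrable fun z => |z ⬝ᵥ e| ^ p * Real.exp (-∑ i, |z ⬝ᵥ u i| ^ p)) :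
    ∫ z, Real.exp (-(s * |z ⬝ᵥ e| ^ p)) * Real.exp (-∑ i, |z ⬝ᵥ u i| ^ p) ≤
      (∫ z, Real.exp (-∑ i, |z ⬝ᵥ u i| ^ p)) *
        (1 + p * s * ((∫ z, |z ⬝ᵥ e| ^ p * Real.exp (-∑ i, |z ⬝ᵥ u i| ^ p)) /
          ∫ z, Real.exp (-∑ i, |z ⬝ᵥ u i| ^ p))) ^ (-(1 / p)) := by
  obtain ⟨j, hj⟩ := Function.ne_iff.1 he
  obtain ⟨k, rfl⟩ : ∃ k, n = k + 1 := ⟨n - 1, by have := j.pos; omega⟩
  replace hj : e j ≠ 0 := hj
  let w : ι → ℝ := fun i => u i j / e j
  let v : ι → Fin k → ℝ := fun i => j.removeNth (u i) - w i • j.removeNth e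
  have e1 : ∀ t (x : Fin k → ℝ),
      (j.insertNth ((t - x ⬝ᵥ j.removeNth e) / e j) x : Fin (k + 1) → ℝ) ⬝ᵥ e = t := by
    intro t x
    rw [dot_insertNth]; field_simp; ring
  have e2 : ∀ t (x : Fin k → ℝ) i,
      (j.insertNth ((t - x ⬝ᵥ j.removeNth e) / e j) x : Fin (k + 1) → ℝ) ⬝ᵥ u i =
        aff v w x t i := by
    intro t x i
    rw [dot_insertNth]
    simp only [aff, v, w, dotProduct_sub, dotProduct_smul, smul_eq_mul]
    field_simp; ring
  have hv : ∀ x, (∀ i, x ⬝ᵥ v i = 0) → x = 0 := by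
    intro x hx
    have := hd (j.insertNth ((0 - x ⬝ᵥ j.removeNth e) / e j) x) fun i => by
      rw [e2]; simp [aff, hx i]
    ext l
    simpa using congrFun this (j.succAbove l)
  have hn : ∀ i, v i ≠ 0 ∨ w i ≠ 0 := by
    intro i
    by_contra hc
    push Not at hc
    apply hu i
    have h3 : u i j = 0 := by simpa [w, hj] using hc.2
    have h4 : j.removeNth (u i) = 0 := by simpa [v, hc.2] using hc.1
    ext l
    refine Fin.succAboveCases j h3 (fun l => ?_) l
    exact congrFun h4 l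
  have hφ : Measurable fun z : Fin (k + 1) → ℝ => Real.exp (-∑ i, |z ⬝ᵥ u i| ^ p) :=
    (Real.continuous_exp.comp (continuous_finsetSum _ fun i _ =>
      (show Continuous fun z : Fin (k + 1) → ℝ => z ⬝ᵥ u i by fun_prop).abs.rpow_const
        fun _ => Or.inr (by linarith)).neg).measurable
  have hgc := continuous_gs v w h1.le hv
  have hg0 := gs_pos v w h1.le hv
  have dis : ∀ ψ : ℝ → ℝ, Measurable ψ → (∀ t, 0 ≤ ψ t) →
      (Integrable fun z => ψ (z ⬝ᵥ e) * Real.exp (-∑ i, |z ⬝ᵥ u i| ^ p)) →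
      (Integrable fun t => ψ t * gs v w p t) ∧
        ∫ z, ψ (z ⬝ᵥ e) * Real.exp (-∑ i, |z ⬝ᵥ u i| ^ p) =
          |(e j)⁻¹| * ∫ t, ψ t * gs v w p t := by
    intro ψ hψ hψ0 hi
    have hm : Measurable fun z : Fin (k + 1) → ℝ =>
        ψ (z ⬝ᵥ e) * Real.exp (-∑ i, |z ⬝ᵥ u i| ^ p) :=
      (hψ.comp (Continuous.measurable (by fun_prop))).mul hφ
    have h3 := lintegral_disint j e hj hm.ennreal_ofReal
    have h4 : ∀ t, ∫⁻ x : Fin k → ℝ, ENNReal.ofReal (ψ t * Real.exp (-Phi v w p x t)) =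
        ENNReal.ofReal (ψ t * gs v w p t) := by
      intro t
      simp only [ENNReal.ofReal_mul (hψ0 t)]
      rw [lintegral_const_mul' _ _ ENNReal.ofReal_ne_top, ofReal_gs v w h1.le hv]
    simp only [e1, e2] at h3
    change _ = _ * ∫⁻ t, ∫⁻ x : Fin k → ℝ, ENNReal.ofReal (ψ t * Real.exp (-Phi v w p x t)) at h3
    simp only [h4] at h3
    have h5 : ∀ t, 0 ≤ ψ t * gs v w p t := fun t => mul_nonneg (hψ0 t) (hg0 t).le
    have h6 : ∀ z : Fin (k + 1) → ℝ, 0 ≤ ψ (z ⬝ᵥ e) * Real.exp (-∑ i, |z ⬝ᵥ u i| ^ p) :=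
      fun z => mul_nonneg (hψ0 _) (Real.exp_pos _).le
    rw [← ofReal_integral_eq_lintegral_ofReal hi (Eventually.of_forall h6)] at h3
    have h7 : 0 < |(e j)⁻¹| := abs_pos.2 (inv_ne_zero hj)
    have hi2 : Integrable fun t => ψ t * gs v w p t := by
      refine ⟨(hψ.mul hgc.measurable).aestronglyMeasurable, ?_⟩
      rw [hasFiniteIntegral_iff_ofReal (Eventually.of_forall h5), lt_top_iff_ne_top]
      intro hc
      rw [hc, ENNReal.mul_top (by simpa using hj)] at h3
      exact ENNReal.ofReal_ne_top h3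
    refine ⟨hi2, ?_⟩
    rw [← ofReal_integral_eq_lintegral_ofReal hi2 (Eventually.of_forall h5),
      ← ENNReal.ofReal_mul h7.le] at h3
    exact (ENNReal.ofReal_eq_ofReal_iff (integral_nonneg h6)
      (mul_nonneg h7.le (integral_nonneg h5))).1 h3
  obtain ⟨a1, a2⟩ := dis (fun _ => 1) measurable_const (fun _ => zero_le_one) (by simpa using hA)
  obtain ⟨b1, b2⟩ := dis (fun t => |t| ^ p) (by fun_prop) (fun _ => by positivity) hM
  obtain ⟨-, c2⟩ := dis (fun t => Real.exp (-(s * |t| ^ p))) (by fun_prop)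
    (fun _ => (Real.exp_pos _).le) (by
      refine hA.mono' (Measurable.aestronglyMeasurable (Measurable.mul ?_ hφ))
        (Eventually.of_forall fun z => ?_)
      · exact (show Measurable fun t : ℝ => Real.exp (-(s * |t| ^ p)) by fun_prop).comp
          (Continuous.measurable (by fun_prop))
      · rw [Real.norm_eq_abs, abs_of_pos (mul_pos (Real.exp_pos _) (Real.exp_pos _))]
        exact mul_le_of_le_one_left (Real.exp_pos _).le (Real.exp_le_one_iff.2 (by
          have : 0 ≤ s * |z ⬝ᵥ e| ^ p := by positivity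
          linarith)))
  simp only [one_mul] at a1 a2
  have h7 : 0 < |(e j)⁻¹| := abs_pos.2 (inv_ne_zero hj)
  rw [a2, b2, c2, mul_div_mul_left _ _ h7.ne', mul_assoc]
  refine mul_le_mul_of_nonneg_left ?_ h7.le
  refine laplace_one (by linarith) hs hg0 (fun t => ?_) a1 b1
    fun κ c t₁ t t₂ a b d f g => gs_quasi v w h1 h2 hv hn a b d f g
  rcases abs_choice t with h | h <;> rw [h]
  exact gs_neg v w p t

end Pool.Agent.MP85210c

end

-- part MP_85210c_gt.OneDim
section

/-! # One-dimensional estimates for the deformation in `p` -/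

set_option autoImplicit false

open MeasureTheory Set Filter
open scoped Topology

namespace Pool.Agent.MP85210c

/-- The truncated Frullani type integral. -/
noncomputable def QQ (ρ π T : ℝ) : ℝ := ∫ s in Ioi ρ, (1 + π * s) * Real.exp (-(s * T)) / s ^ 2

/-- The exponential integral. -/
noncomputable def EE (x : ℝ) : ℝ := ∫ s in Ioi x, Real.exp (-s) / s

theorem integrableOn_exp_div {ρ T : ℝ} (hρ : 0 < ρ) (hT : 0 < T) (m : ℕ) :
    IntegrableOn (fun s => Real.exp (-(s * T)) / s ^ m) (Ioi ρ) := by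
  refine Integrable.mono' ((exp_neg_integrableOn_Ioi ρ hT).div_const (ρ ^ m))
    (Measurable.aestronglyMeasurable (by fun_prop)) ?_
  filter_upwards [ae_restrict_mem measurableSet_Ioi] with s hs
  have hs' : ρ < s := hs
  have hs0 : 0 < s := hρ.trans hs'
  rw [Real.norm_eq_abs, abs_of_pos (by positivity), show -T * s = -(s * T) by ring]
  gcongr

theorem integrableOn_QQ {ρ T : ℝ} (hρ : 0 < ρ) (hT : 0 < T) (π : ℝ) :
    IntegrableOn (fun s => (1 + π * s) * Real.exp (-(s * T)) / s ^ 2) (Ioi ρ) := by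
  refine IntegrableOn.congr_fun ((integrableOn_exp_div hρ hT 2).add
    ((integrableOn_exp_div hρ hT 1).const_mul π)) (fun s hs => ?_) measurableSet_Ioi
  have hs0 : 0 < s := hρ.trans hs
  simp only [Pi.add_apply]
  field_simp

theorem integral_exp_div_one {ρ T : ℝ} (hT : 0 < T) (hρ : 0 < ρ) :
    ∫ s in Ioi ρ, Real.exp (-(s * T)) / s ^ 1 = EE (ρ * T) := by
  rw [EE, ← integral_comp_mul_right_Ioi' (fun s => Real.exp (-s) / s) ρ hT, smul_eq_mul,
    ← integral_const_mul]
  refine setIntegral_congr_fun measurableSet_Ioi fun s hs => ?_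
  have hs0 : 0 < s := hρ.trans hs
  field_simp

theorem integral_exp_div_two {ρ T : ℝ} (hT : 0 < T) (hρ : 0 < ρ) :
    ∫ s in Ioi ρ, Real.exp (-(s * T)) / s ^ 2 = Real.exp (-(ρ * T)) / ρ - T * EE (ρ * T) := by
  have h := integral_Ioi_of_hasDerivAt_of_tendsto' (a := ρ) (m := 0)
    (f := fun s => -(Real.exp (-(s * T)) / s))
    (f' := fun s => Real.exp (-(s * T)) / s ^ 2 + T * (Real.exp (-(s * T)) / s ^ 1)) ?_
    ((integrableOn_exp_div hρ hT 2).add ((integrableOn_exp_div hρ hT 1).const_mul T)) ?_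
  · rw [integral_add (integrableOn_exp_div hρ hT 2) ((integrableOn_exp_div hρ hT 1).const_mul T),
      integral_const_mul, integral_exp_div_one hT hρ] at h
    linarith
  · intro s hs
    have hs0 : 0 < s := hρ.trans_le hs
    have h1 := ((((hasDerivAt_id s).mul_const T).neg.exp).div (hasDerivAt_id s) hs0.ne').neg
    refine h1.congr_deriv ?_
    simp only [id, Pi.neg_apply]
    field_simp
    ring
  · have h1 : Tendsto (fun s : ℝ => Real.exp (-(s * T))) atTop (𝓝 0) :=
      Real.tendsto_exp_neg_atTop_nhds_zero.comp (tendsto_id.atTop_mul_const hT)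
    simpa using (h1.div_atTop tendsto_id).neg

theorem EE_bound {ρ T : ℝ} (hT : 0 < T) (hρ : 0 < ρ) :
    |EE (ρ * T) - EE ρ + Real.log T| ≤ ρ * (T + 1) := by
  have i : ∀ x, 0 < x → IntegrableOn (fun s => Real.exp (-s) / s) (Ioi x) := fun x hx => by
    simpa using integrableOn_exp_div hx one_pos 1
  have hρT : 0 < ρ * T := by positivity
  have hpos : ∀ s ∈ uIcc (ρ * T) ρ, 0 < s := fun s hs => (lt_min hρT hρ).trans_le hs.1
  have c1 : ContinuousOn (fun s : ℝ => Real.exp (-s) / s) (uIcc (ρ * T) ρ) :=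
    ContinuousOn.div (by fun_prop) continuousOn_id fun s hs => (hpos s hs).ne'
  have c2 : ContinuousOn (fun s : ℝ => s⁻¹) (uIcc (ρ * T) ρ) :=
    continuousOn_id.inv₀ fun s hs => (hpos s hs).ne'
  have e : Real.log T = -∫ s in (ρ * T)..ρ, s⁻¹ := by
    rw [integral_inv_of_pos hρT hρ, ← Real.log_inv]
    congr 1; field_simp
  rw [EE, EE, intervalIntegral.integral_Ioi_sub_Ioi' (i _ hρT) (i _ hρ), e, ← sub_eq_add_neg,
    ← intervalIntegral.integral_sub c1.intervalIntegrable c2.intervalIntegrable]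
  have h := intervalIntegral.norm_integral_le_of_norm_le_const (a := ρ * T) (b := ρ) (C := 1)
    (f := fun s => Real.exp (-s) / s - s⁻¹) (fun s hs => by
      have hs0 := hpos s (uIoc_subset_uIcc hs)
      have h1 := Real.add_one_le_exp (-s)
      have h2 : Real.exp (-s) ≤ 1 := Real.exp_le_one_iff.2 (by linarith)
      rw [Real.norm_eq_abs, show Real.exp (-s) / s - s⁻¹ = -((1 - Real.exp (-s)) / s) by
        field_simp; ring, abs_neg, abs_of_nonneg (div_nonneg (by linarith) hs0.le),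
        div_le_one hs0]
      linarith)
  rw [Real.norm_eq_abs, one_mul] at h
  refine h.trans (abs_le.2 ⟨?_, ?_⟩) <;> nlinarith

theorem QQ_le {ρ T π : ℝ} (hT : 0 < T) (hρ : 0 < ρ) (h0 : 0 ≤ π) (h1 : π ≤ 1) :
    QQ ρ π T ≤ 1 / ρ + (T - π) * Real.log T - (1 + EE ρ) * T + EE ρ * π +
      16 * ρ * Real.exp (T / 2) := by
  have e : QQ ρ π T = Real.exp (-(ρ * T)) / ρ - (T - π) * EE (ρ * T) := by
    have : QQ ρ π T = ∫ s in Ioi ρ,
        (Real.exp (-(s * T)) / s ^ 2 + π * (Real.exp (-(s * T)) / s ^ 1)) := by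
      refine setIntegral_congr_fun measurableSet_Ioi fun s hs => ?_
      have hs0 : 0 < s := hρ.trans hs
      field_simp
    rw [this, integral_add (integrableOn_exp_div hρ hT 2)
      ((integrableOn_exp_div hρ hT 1).const_mul π), integral_const_mul,
      integral_exp_div_one hT hρ, integral_exp_div_two hT hρ]
    ring
  have h2 := EE_bound hT hρ
  have h3 : Real.exp (-(ρ * T)) / ρ ≤ 1 / ρ - T + ρ * T ^ 2 := by
    have h4 : 0 ≤ ρ * T := by positivity
    have h5 : Real.exp (-(ρ * T)) ≤ 1 - ρ * T + (ρ * T) ^ 2 := by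
      have h6 := Real.add_one_le_exp (ρ * T)
      rw [Real.exp_neg, inv_le_comm₀ (Real.exp_pos _) (by nlinarith)]
      refine le_trans ?_ h6
      rw [inv_le_iff_one_le_mul₀ (by nlinarith)]
      nlinarith [pow_nonneg h4 3]
    rw [div_le_iff₀ hρ]
    refine h5.trans (le_of_eq ?_)
    field_simp
  have h4 : -((T - π) * (EE (ρ * T) - EE ρ + Real.log T)) ≤ (T + 1) * (ρ * (T + 1)) := by
    refine (neg_le_abs _).trans ?_
    rw [abs_mul]
    exact mul_le_mul (abs_le.2 ⟨by linarith, by linarith⟩) h2 (abs_nonneg _) (by linarith)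
  have h5 := Real.quadratic_le_exp_of_nonneg (show 0 ≤ T / 2 by linarith)
  have h6 : T ^ 2 + (T + 1) ^ 2 ≤ 16 * Real.exp (T / 2) := by nlinarith
  have h7 := mul_le_mul_of_nonneg_left h6 hρ.le
  rw [e]
  nlinarith

theorem QQ_nonneg {ρ T π : ℝ} (hρ : 0 < ρ) (h0 : 0 ≤ π) : 0 ≤ QQ ρ π T :=
  setIntegral_nonneg measurableSet_Ioi fun s hs => by
    have hs0 : 0 < s := hρ.trans hs
    positivity

theorem exp_le_quad (y : ℝ) : Real.exp y ≤ 1 + y + y ^ 2 * (1 + Real.exp y) := by
  have h0 := Real.exp_pos y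
  have h1 := Real.add_one_le_exp (-y)
  have h2 : Real.exp y * Real.exp (-y) = 1 := by rw [← Real.exp_add]; simp
  have h3 : Real.exp y * (1 - y) ≤ 1 := by nlinarith
  rcases le_total 0 y with hy | hy
  · nlinarith [mul_le_mul_of_nonneg_left h3 hy, sq_nonneg y]
  · have h4 : Real.exp y ≤ 1 + y + y ^ 2 := by
      by_contra hc
      push Not at hc
      have := mul_lt_mul_of_pos_right hc (show 0 < 1 - y by linarith)
      nlinarith [mul_nonneg (sq_nonneg y) (neg_nonneg.2 hy)]
    nlinarith [sq_nonneg y]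

theorem rpow_le_sub {T κ : ℝ} (hT : 0 < T) (h0 : 0 ≤ κ) (h1 : κ ≤ 1 / 2) :
    T ^ (1 - κ) ≤ T - κ * (T * Real.log T) + 96 * κ ^ 2 * Real.exp (T / 2) := by
  have e : T ^ (1 - κ) = T * Real.exp (-(κ * Real.log T)) := by
    rw [Real.rpow_def_of_pos hT]
    conv_rhs => rw [← Real.exp_log hT, ← Real.exp_add, Real.log_exp]
    ring_nf
  have h2 := mul_le_mul_of_nonneg_left (exp_le_quad (-(κ * Real.log T))) hT.le
  have h3 : Real.log T ^ 2 * (T + T ^ (1 - κ)) ≤ 96 * Real.exp (T / 2) := by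
    rcases le_total T 1 with h | h
    · have a1 : T ≤ T ^ (1 / 2 : ℝ) := by
        conv_lhs => rw [← Real.rpow_one T]
        exact Real.rpow_le_rpow_of_exponent_ge hT h (by norm_num)
      have a2 : T ^ (1 - κ) ≤ T ^ (1 / 2 : ℝ) :=
        Real.rpow_le_rpow_of_exponent_ge hT h (by linarith)
      have a3 := Real.abs_log_mul_self_rpow_lt T (1 / 4) hT h (by norm_num)
      have a4 : Real.log T ^ 2 * T ^ (1 / 2 : ℝ) = (Real.log T * T ^ (1 / 4 : ℝ)) ^ 2 := by
        rw [mul_pow, ← Real.rpow_natCast (T ^ (1 / 4 : ℝ)), ← Real.rpow_mul hT.le]; norm_num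
      have a5 : (Real.log T * T ^ (1 / 4 : ℝ)) ^ 2 ≤ 4 ^ 2 := by
        rw [← sq_abs]
        exact pow_le_pow_left₀ (abs_nonneg _) (by linarith) 2
      have a6 : 1 ≤ Real.exp (T / 2) := Real.one_le_exp (by linarith)
      nlinarith [sq_nonneg (Real.log T)]
    · have a1 : Real.log T ≤ T := (Real.log_le_sub_one_of_pos hT).trans (by linarith)
      have a2 : 0 ≤ Real.log T := Real.log_nonneg h
      have a3 : T ^ (1 - κ) ≤ T := by
        conv_rhs => rw [← Real.rpow_one T]
        exact Real.rpow_le_rpow_of_exponent_le h (by linarith)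
      have a4 := Real.pow_div_factorial_le_exp (T / 2) (by linarith) 3
      norm_num [Nat.factorial] at a4
      calc Real.log T ^ 2 * (T + T ^ (1 - κ)) ≤ T ^ 2 * (T + T) := by gcongr
        _ ≤ _ := by nlinarith
  have h4 := mul_le_mul_of_nonneg_left h3 (sq_nonneg κ)
  rw [e] at h4 ⊢
  nlinarith

/-- Truncation of the logarithmic derivative of `π θ / sin (π θ)`. -/
noncomputable def Lam (N : ℕ) (θ : ℝ) : ℝ :=
  ∑ j ∈ Finset.range N, 2 * θ ^ 2 / (((j : ℝ) + 1) ^ 2 - θ ^ 2)

/-- Truncation of `log (π θ ^ 2 / sin (π θ))`. -/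
noncomputable def RR (N : ℕ) (θ : ℝ) : ℝ :=
  Real.log θ - ∑ j ∈ Finset.range N, Real.log (1 - θ ^ 2 / ((j : ℝ) + 1) ^ 2)

theorem geom_bound (N : ℕ) {x : ℝ} (hx : 0 < x) :
    x ^ 2 * ∑ j ∈ Finset.range N, ((j : ℝ) + 1) / (1 + x) ^ (j + 2) ≤ 1 := by
  have h : x ^ 2 * ∑ j ∈ Finset.range N, ((j : ℝ) + 1) / (1 + x) ^ (j + 2) =
      1 - (1 + x + N * x) / (1 + x) ^ (N + 1) := by
    induction N with
    | zero => simp; field_simp; ring
    | succ N ih =>
      rw [Finset.sum_range_succ, mul_add, ih]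
      push_cast
      field_simp
      ring
  rw [h]
  have : 0 ≤ (1 + x + N * x) / (1 + x) ^ (N + 1) := by positivity
  linarith

theorem add_inv_mono {a y : ℝ} (ha : 0 < a) (hy : 1 ≤ y) (h : a ≤ y⁻¹) : y + y⁻¹ ≤ a + a⁻¹ := by
  have hy0 : 0 < y := by linarith
  have h1 : a * y ≤ 1 := by rwa [← le_div_iff₀ hy0, one_div]
  have h2 : a ≤ y := by
    refine h.trans ((inv_le_one_of_one_le₀ hy).trans hy)
  have : a + a⁻¹ - (y + y⁻¹) = (y - a) * (1 - a * y) / (a * y) := by field_simp; ring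
  have h3 : 0 ≤ (y - a) * (1 - a * y) / (a * y) :=
    div_nonneg (mul_nonneg (by linarith) (by linarith)) (by positivity)
  linarith

theorem F_bounds {θ x : ℝ} (h0 : 0 ≤ θ) (h1 : θ ≤ 1) (hx : 0 ≤ x) :
    0 ≤ (1 + x) ^ θ + (1 + x) ^ (-θ) - 2 ∧ (1 + x) ^ θ + (1 + x) ^ (-θ) - 2 ≤ x ^ 2 := by
  have hy : 0 < 1 + x := by linarith
  have a1 : 1 ≤ (1 + x) ^ θ := Real.one_le_rpow (by linarith) h0
  have a2 : (1 + x) ^ θ ≤ 1 + x := by
    conv_rhs => rw [← Real.rpow_one (1 + x)]
    exact Real.rpow_le_rpow_of_exponent_le (by linarith) h1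
  rw [Real.rpow_neg hy.le]
  constructor
  · have := add_inv_mono (a := ((1 + x) ^ θ)⁻¹) (y := 1) (by positivity) le_rfl
      (by simpa using inv_le_one_of_one_le₀ a1)
    rw [inv_inv] at this
    norm_num at this
    linarith
  · have := add_inv_mono (a := (1 + x)⁻¹) (y := (1 + x) ^ θ) (by positivity) a1
      (inv_anti₀ (by linarith) a2)
    rw [inv_inv] at this
    have h3 : (1 + x)⁻¹ ≤ 1 - x + x ^ 2 := by
      rw [inv_le_iff_one_le_mul₀ hy]
      nlinarith [pow_nonneg hx 3]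
    linarith

theorem frullani_lower {θ l ρ β : ℝ} (h0 : 0 < θ) (h1 : θ < 1) (hl : 0 ≤ l) (hρ : 0 < ρ)
    (hβ : 0 ≤ β) (N : ℕ) {G : ℝ → ℝ} (hG : IntegrableOn G (Ioi ρ))
    (h : ∀ s, ρ < s → β * ((1 + l * s) ^ θ + (1 + l * s) ^ (-θ)) / s ^ 2 ≤ G s) :
    β * (2 / ρ + l * (Lam N θ - l * ρ)) ≤ ∫ s in Ioi ρ, G s := by
  let W : ℝ → ℝ := fun x => ∑ j ∈ Finset.range N, ((j : ℝ) + 1) *
    ((1 + x) ^ (θ - (j + 1)) / (j + 1 - θ) + (1 + x) ^ (-θ - (j + 1)) / (j + 1 + θ) -
      2 * ((1 + x) ^ (0 - ((j : ℝ) + 1)) / (j + 1)))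
  let g : ℝ → ℝ := fun x => ((1 + x) ^ θ + (1 + x) ^ (-θ) - 2) *
    ∑ j ∈ Finset.range N, ((j : ℝ) + 1) / (1 + x) ^ (j + 2)
  have hj : ∀ j : ℕ, (0 : ℝ) ≤ j := fun j => Nat.cast_nonneg j
  have hW : ∀ x, 0 ≤ x → HasDerivAt W (-g x) x := by
    intro x hx
    have hy : 0 < 1 + x := by linarith
    have d : ∀ a : ℝ, ∀ j : ℕ, HasDerivAt (fun x : ℝ => (1 + x) ^ (a - (j + 1)))
        ((a - (j + 1)) * ((1 + x) ^ a / (1 + x) ^ (j + 2))) x := by
      intro a j
      refine (((hasDerivAt_id x).const_add 1).rpow_const (p := a - (j + 1))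
        (Or.inl hy.ne')).congr_deriv ?_
      simp only [id]
      rw [← Real.rpow_natCast, ← Real.rpow_sub hy, one_mul]
      congr 2; push_cast; ring
    have := HasDerivAt.fun_sum (u := Finset.range N) fun j _ =>
      (((((d θ j).div_const (j + 1 - θ)).add ((d (-θ) j).div_const (j + 1 + θ))).sub
        (((d 0 j).div_const (j + 1)).const_mul 2)).const_mul ((j : ℝ) + 1))
    refine this.congr_deriv ?_
    simp only [g, Finset.mul_sum, ← Finset.sum_neg_distrib]
    refine Finset.sum_congr rfl fun j _ => ?_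
    have b1 : (j : ℝ) + 1 - θ ≠ 0 := by linarith [hj j]
    have b2 : (j : ℝ) + 1 + θ ≠ 0 := by linarith [hj j]
    rw [Real.rpow_zero]
    field_simp
    ring
  have hg0 : ∀ x, 0 ≤ x → 0 ≤ g x := fun x hx =>
    mul_nonneg (F_bounds h0.le h1.le hx).1 (Finset.sum_nonneg fun j _ => by positivity)
  have hg1 : ∀ x, 0 < x → g x ≤ 1 := fun x hx =>
    (mul_le_mul_of_nonneg_right (F_bounds h0.le h1.le hx.le).2
      (Finset.sum_nonneg fun j _ => by positivity)).trans (geom_bound N hx)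
  have hg2 : ∀ x, 0 ≤ x → x ^ 2 * g x ≤ (1 + x) ^ θ + (1 + x) ^ (-θ) - 2 := by
    intro x hx
    rcases hx.eq_or_lt with rfl | hx'
    · simp; norm_num
    simp only [g]
    rw [mul_left_comm]
    exact mul_le_of_le_one_right (F_bounds h0.le h1.le hx).1 (geom_bound N hx')
  have hW0 : W 0 = Lam N θ := by
    refine Finset.sum_congr rfl fun j _ => ?_
    have b1 : (j : ℝ) + 1 - θ ≠ 0 := by linarith [hj j]
    have b2 : (j : ℝ) + 1 + θ ≠ 0 := by linarith [hj j]
    rw [add_zero, Real.one_rpow, Real.one_rpow, Real.one_rpow,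
      show ((j : ℝ) + 1) ^ 2 - θ ^ 2 = (j + 1 - θ) * (j + 1 + θ) by ring]
    field_simp
    ring
  have hWl : ∀ x, 0 ≤ x → Lam N θ - x ≤ W x := by
    intro x hx
    have hm : MonotoneOn (fun x => W x + x) (Ici 0) := by
      refine monotoneOn_of_hasDerivWithinAt_nonneg (convex_Ici 0) (f' := fun x => -g x + 1)
        (fun x hx => ((hW x hx).add (hasDerivAt_id x)).continuousAt.continuousWithinAt)
        (fun x hx => ((hW x (interior_subset hx)).add (hasDerivAt_id x)).hasDerivWithinAt) ?_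
      intro x hx
      rw [interior_Ici] at hx
      linarith [hg1 x hx]
    have := hm self_mem_Ici hx hx
    simp only [hW0] at this
    linarith
  have hWt : Tendsto W atTop (𝓝 0) := by
    have d : ∀ a : ℝ, a < 1 → ∀ j : ℕ,
        Tendsto (fun x : ℝ => (1 + x) ^ (a - (j + 1))) atTop (𝓝 0) := by
      intro a ha j
      have := (tendsto_rpow_neg_atTop (y := (j + 1) - a) (by linarith [hj j])).comp
        (tendsto_atTop_add_const_left atTop 1 tendsto_id)
      simpa [Function.comp_def] using this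
    have := tendsto_finsetSum (Finset.range N) fun j _ =>
      (((((d θ h1 j).div_const (j + 1 - θ)).add
        ((d (-θ) (by linarith) j).div_const (j + 1 + θ))).sub
        (((d 0 one_pos j).div_const (j + 1)).const_mul 2)).const_mul ((j : ℝ) + 1))
    simp only [zero_div, add_zero, mul_zero, sub_zero, Finset.sum_const_zero] at this
    exact this
  have hV : ∀ s ∈ Ici ρ, HasDerivAt (fun s => -(2 / s) - l * W (l * s))
      (2 / s ^ 2 + l ^ 2 * g (l * s)) s := by
    intro s hs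
    have hs0 : 0 < s := hρ.trans_le hs
    have a1 := ((hasDerivAt_const s (2 : ℝ)).div (hasDerivAt_id s) hs0.ne').neg
    have a2 := ((hW (l * s) (by positivity)).comp s ((hasDerivAt_id s).const_mul l)).const_mul l
    refine (a1.sub a2).congr_deriv ?_
    simp only [id]
    ring
  have hV0 : ∀ s ∈ Ioi ρ, 0 ≤ 2 / s ^ 2 + l ^ 2 * g (l * s) := by
    intro s hs
    have hs0 : 0 < s := hρ.trans hs
    have := hg0 (l * s) (by positivity)
    positivity
  have hVt : Tendsto (fun s => -(2 / s) - l * W (l * s)) atTop (𝓝 0) := by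
    have a1 : Tendsto (fun s : ℝ => 2 / s) atTop (𝓝 0) := tendsto_const_nhds.div_atTop tendsto_id
    have a2 : Tendsto (fun s : ℝ => l * W (l * s)) atTop (𝓝 0) := by
      rcases hl.eq_or_lt with rfl | hl
      · simp
      · simpa using (hWt.comp (tendsto_id.const_mul_atTop hl)).const_mul l
    simpa using a1.neg.sub a2
  have hI := integral_Ioi_of_hasDerivAt_of_nonneg' hV hV0 hVt
  have hi := integrableOn_Ioi_deriv_of_nonneg' hV hV0 hVt
  calc β * (2 / ρ + l * (Lam N θ - l * ρ)) ≤ β * (2 / ρ + l * W (l * ρ)) := by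
        gcongr
        exact hWl _ (by positivity)
    _ = ∫ s in Ioi ρ, β * (2 / s ^ 2 + l ^ 2 * g (l * s)) := by
        rw [integral_const_mul, hI]; ring
    _ ≤ _ := by
        refine setIntegral_mono_on (hi.const_mul β) hG measurableSet_Ioi fun s hs => ?_
        have hs0 : 0 < s := hρ.trans hs
        refine le_trans ?_ (h s hs)
        rw [mul_div_assoc]
        refine mul_le_mul_of_nonneg_left ?_ hβ
        rw [le_div_iff₀ (by positivity), add_mul, div_mul_cancel₀ _ (by positivity)]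
        have := hg2 (l * s) (by positivity)
        nlinarith

theorem Lam_nonneg (N : ℕ) {θ : ℝ} (h0 : 0 ≤ θ) (h1 : θ < 1) : 0 ≤ Lam N θ :=
  Finset.sum_nonneg fun j _ => div_nonneg (by positivity) (by
    have : (0 : ℝ) ≤ j := Nat.cast_nonneg j
    nlinarith)

theorem Lam_le (N : ℕ) {θ θ₀ : ℝ} (h0 : 0 ≤ θ) (h : θ ≤ θ₀) (h1 : θ₀ < 1) :
    Lam N θ ≤ N * (2 / (1 - θ₀ ^ 2)) := by
  have : Lam N θ ≤ ∑ _j ∈ Finset.range N, 2 / (1 - θ₀ ^ 2) := by
    refine Finset.sum_le_sum fun j _ => ?_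
    have : (0 : ℝ) ≤ j := Nat.cast_nonneg j
    exact div_le_div₀ (by norm_num) (by nlinarith) (by nlinarith) (by nlinarith)
  simpa using this

theorem RR_step (N : ℕ) {θ θ₀ κ : ℝ} (h0 : 0 < θ) (hκ0 : 0 ≤ κ) (hκ : κ ≤ 1 / 2)
    (h : θ / (1 - κ) ≤ θ₀) (h1 : θ₀ < 1) :
    RR N (θ / (1 - κ)) ≤ RR N θ + κ * (1 + Lam N θ) + κ ^ 2 * (2 + N * (4 / (1 - θ₀ ^ 2) ^ 2)) := by
  have hδ : 0 < 1 - κ := by linarith
  set θ' := θ / (1 - κ) with hθ'
  have e : θ = θ' * (1 - κ) := by rw [hθ']; field_simp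
  have h2 : 0 < θ' := by positivity
  have h3 : θ ≤ θ' := by nlinarith
  have h4 : θ' ^ 2 - θ ^ 2 ≤ 2 * κ * θ' ^ 2 := by
    rw [e]; nlinarith [sq_nonneg (κ * θ')]
  have h5 : θ' ^ 2 ≤ θ₀ ^ 2 := by nlinarith
  have h6 : θ₀ ^ 2 < 1 := by nlinarith
  have h7 : θ ^ 2 ≤ θ' ^ 2 := by nlinarith
  have a1 : Real.log θ' ≤ Real.log θ + (κ + 2 * κ ^ 2) := by
    rw [hθ', Real.log_div h0.ne' hδ.ne', sub_eq_add_neg, ← Real.log_inv]
    have := Real.log_le_sub_one_of_pos (inv_pos.2 hδ)
    have h8 : (1 - κ)⁻¹ ≤ 1 + κ + 2 * κ ^ 2 := by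
      rw [inv_le_iff_one_le_mul₀ hδ]
      nlinarith [mul_nonneg (sq_nonneg κ) (show 0 ≤ 1 - 2 * κ by linarith)]
    linarith
  have a2 : ∀ j ∈ Finset.range N, Real.log (1 - θ ^ 2 / ((j : ℝ) + 1) ^ 2) ≤
      Real.log (1 - θ' ^ 2 / ((j : ℝ) + 1) ^ 2) + (κ * (2 * θ ^ 2 / (((j : ℝ) + 1) ^ 2 - θ ^ 2)) +
        κ ^ 2 * (4 / (1 - θ₀ ^ 2) ^ 2)) := by
    intro j _
    have hj : (0 : ℝ) ≤ j := Nat.cast_nonneg j
    set K := ((j : ℝ) + 1) ^ 2 with hK
    have hK1 : 1 ≤ K := by nlinarith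
    have b1 : 0 < K - θ' ^ 2 := by linarith
    have b2 : 0 < K - θ ^ 2 := by linarith
    have b3 : 1 - θ ^ 2 / K = (1 - θ' ^ 2 / K) * (1 + (θ' ^ 2 - θ ^ 2) / (K - θ' ^ 2)) := by
      field_simp; ring
    have b4 : 0 < 1 - θ' ^ 2 / K := by
      rw [sub_pos, div_lt_one (by linarith)]; linarith
    have b5 : 0 < 1 + (θ' ^ 2 - θ ^ 2) / (K - θ' ^ 2) := by
      have := div_nonneg (sub_nonneg.2 h7) b1.le
      linarith
    rw [b3, Real.log_mul b4.ne' b5.ne']
    refine add_le_add_right ((Real.log_le_sub_one_of_pos b5).trans ?_) _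
    rw [add_sub_cancel_left]
    have b6 : (θ' ^ 2 - θ ^ 2) / (K - θ' ^ 2) ≤ κ * (2 * θ' ^ 2 / (K - θ' ^ 2)) := by
      rw [← mul_div_assoc]
      gcongr
      linarith
    have b7 : 2 * θ' ^ 2 / (K - θ' ^ 2) = 2 * θ ^ 2 / (K - θ ^ 2) +
        2 * K * (θ' ^ 2 - θ ^ 2) / ((K - θ ^ 2) * (K - θ' ^ 2)) := by
      field_simp; ring
    have b8 : 2 * K * (θ' ^ 2 - θ ^ 2) / ((K - θ ^ 2) * (K - θ' ^ 2)) ≤
        κ * (4 / (1 - θ₀ ^ 2) ^ 2) := by
      have c1 : K * (1 - θ₀ ^ 2) ≤ K - θ' ^ 2 := by nlinarith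
      have c2 : 1 - θ₀ ^ 2 ≤ K - θ ^ 2 := by linarith
      have c3 : 0 < 1 - θ₀ ^ 2 := by linarith
      calc 2 * K * (θ' ^ 2 - θ ^ 2) / ((K - θ ^ 2) * (K - θ' ^ 2))
          ≤ 2 * K * (2 * κ) / ((1 - θ₀ ^ 2) * (K * (1 - θ₀ ^ 2))) := by
            gcongr
            nlinarith
        _ = _ := by field_simp; ring
    rw [b7] at b6
    nlinarith
  have a3 := Finset.sum_le_sum a2
  simp only [Finset.sum_add_distrib, ← Finset.mul_sum, Finset.sum_const, Finset.card_range,
    nsmul_eq_mul] at a3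
  simp only [RR, Lam]
  linarith

theorem RR_lim {θ : ℝ} (h0 : 0 < θ) (h1 : θ < 1) :
    Tendsto (fun N => RR N θ) atTop
      (𝓝 (Real.log (Real.pi * θ ^ 2 / Real.sin (Real.pi * θ)))) := by
  have hs : 0 < Real.sin (Real.pi * θ) :=
    Real.sin_pos_of_pos_of_lt_pi (by positivity) (by nlinarith [Real.pi_pos])
  have h := ((Real.tendsto_euler_sin_prod θ).log hs.ne').const_sub
    (Real.log (Real.pi * θ ^ 2))
  rw [← Real.log_div (by positivity) hs.ne'] at h
  refine h.congr fun N => ?_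
  have hp : ∀ j ∈ Finset.range N, 1 - θ ^ 2 / ((j : ℝ) + 1) ^ 2 ≠ 0 := by
    intro j _
    have hj : (0 : ℝ) ≤ j := Nat.cast_nonneg j
    have : θ ^ 2 / ((j : ℝ) + 1) ^ 2 < 1 := by
      rw [div_lt_one (by positivity)]; nlinarith
    linarith
  rw [Real.log_mul (by positivity) (Finset.prod_ne_zero_iff.2 hp), Real.log_prod hp, sq,
    ← mul_assoc, Real.log_mul (by positivity) h0.ne', RR]
  ring

end Pool.Agent.MP85210c

end

-- part MP_85210c_gt.Step
section

/-!
# One step of the deformation `T ↦ T ^ δ`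
-/

set_option autoImplicit false

open MeasureTheory Set Filter
open scoped ENNReal NNReal Topology

namespace Pool.Agent.MP85210c

variable {ι : Type*} [Fintype ι] {n : ℕ} (u : ι → Fin n → ℝ)

/-- The contribution of one atom. -/
noncomputable def TT (c : ι → ℝ) (p : ℝ) (i : ι) (z : Fin n → ℝ) : ℝ := c i * |z ⬝ᵥ u i| ^ p

/-- The `p`-th power of the norm. -/
noncomputable def phi (c : ι → ℝ) (p : ℝ) (z : Fin n → ℝ) : ℝ := ∑ i, TT u c p i z

/-- The singular weight. -/
noncomputable def wF (c : ι → ℝ) (p : ℝ) (F : Finset ι) (z : Fin n → ℝ) : ℝ :=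
  ∏ i ∈ F, c i * |z ⬝ᵥ u i| ^ (p - 2)

/-- The density. -/
noncomputable def fF (c : ι → ℝ) (p : ℝ) (F : Finset ι) (z : Fin n → ℝ) : ℝ :=
  wF u c p F z * Real.exp (-phi u c p z)

/-- Its integral. -/
noncomputable def IF (c : ι → ℝ) (p : ℝ) (F : Finset ι) : ℝ := ∫ z, fF u c p F z

/-- The degree of homogeneity. -/
noncomputable def deg (n : ℕ) (p : ℝ) (q : ℕ) : ℝ := (n + q * (p - 2)) / p

omit [Fintype ι] in
theorem measurable_dot (i : ι) : Measurable fun z : Fin n → ℝ => z ⬝ᵥ u i :=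
  Continuous.measurable (by fun_prop)

omit [Fintype ι] in
theorem measurable_TT (c : ι → ℝ) (p : ℝ) (i : ι) : Measurable (TT u c p i) :=
  ((measurable_dot u i).abs.pow_const _).const_mul _

theorem measurable_phi (c : ι → ℝ) (p : ℝ) : Measurable (phi u c p) :=
  Finset.measurable_sum _ fun i _ => measurable_TT u c p i

omit [Fintype ι] in
theorem measurable_wF (c : ι → ℝ) (p : ℝ) (F : Finset ι) : Measurable (wF u c p F) :=
  Finset.measurable_prod _ fun i _ => ((measurable_dot u i).abs.pow_const _).const_mul _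

theorem measurable_fF (c : ι → ℝ) (p : ℝ) (F : Finset ι) : Measurable (fF u c p F) :=
  (measurable_wF u c p F).mul (measurable_phi u c p).neg.exp

theorem ae_dot (hu : ∀ i, u i ≠ 0) : ∀ᵐ z : Fin n → ℝ, ∀ i, z ⬝ᵥ u i ≠ 0 := by
  rw [ae_all_iff]
  intro i
  simpa using ae_dot_ne (v := u i) (b := 0) (Or.inl (hu i))

variable {c : ι → ℝ} {p : ℝ}

omit [Fintype ι] in
theorem TT_nonneg (hc : ∀ i, 0 < c i) (i : ι) (z : Fin n → ℝ) : 0 ≤ TT u c p i z :=
  mul_nonneg (hc i).le (by positivity)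

theorem phi_nonneg (hc : ∀ i, 0 < c i) (z : Fin n → ℝ) : 0 ≤ phi u c p z :=
  Finset.sum_nonneg fun i _ => TT_nonneg u hc i z

theorem TT_le_phi (hc : ∀ i, 0 < c i) (i : ι) (z : Fin n → ℝ) : TT u c p i z ≤ phi u c p z :=
  Finset.single_le_sum (f := fun i => TT u c p i z) (fun i _ => TT_nonneg u hc i z)
    (Finset.mem_univ i)

omit [Fintype ι] in
theorem wF_nonneg (hc : ∀ i, 0 < c i) (F : Finset ι) (z : Fin n → ℝ) : 0 ≤ wF u c p F z :=
  Finset.prod_nonneg fun i _ => mul_nonneg (hc i).le (by positivity)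

theorem fF_nonneg (hc : ∀ i, 0 < c i) (F : Finset ι) (z : Fin n → ℝ) : 0 ≤ fF u c p F z :=
  mul_nonneg (wF_nonneg u hc F z) (Real.exp_pos _).le

theorem IF_nonneg (hc : ∀ i, 0 < c i) (F : Finset ι) : 0 ≤ IF u c p F :=
  integral_nonneg (fF_nonneg u hc F)

theorem IF_pos (hu : ∀ i, u i ≠ 0) (hc : ∀ i, 0 < c i) {F : Finset ι}
    (hi : Integrable (fF u c p F)) : 0 < IF u c p F := by
  rw [IF, integral_pos_iff_support_of_nonneg (fF_nonneg u hc F) hi]
  have h : ∀ᵐ z : Fin n → ℝ, z ∈ Function.support (fF u c p F) := by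
    filter_upwards [ae_dot u hu] with z hz
    refine (mul_pos (Finset.prod_pos fun i _ => mul_pos (hc i) ?_) (Real.exp_pos _)).ne'
    exact Real.rpow_pos_of_pos (abs_pos.2 (hz i)) _
  rw [measure_congr ((ae_eq_univ (s := Function.support (fF u c p F))).2 h)]
  exact IsOpen.measure_pos _ isOpen_univ univ_nonempty

theorem phi_smul {R : ℝ} (hR : 0 ≤ R) (z : Fin n → ℝ) :
    phi u c p (R • z) = R ^ p * phi u c p z := by
  simp only [phi, TT, smul_dotProduct, smul_eq_mul, abs_mul, abs_of_nonneg hR,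
    Real.mul_rpow hR (abs_nonneg _), Finset.mul_sum]
  exact Finset.sum_congr rfl fun i _ => by ring

omit [Fintype ι] in
theorem wF_smul (F : Finset ι) {R : ℝ} (hR : 0 ≤ R) (z : Fin n → ℝ) :
    wF u c p F (R • z) = (R ^ (p - 2)) ^ F.card * wF u c p F z := by
  simp only [wF, smul_dotProduct, smul_eq_mul, abs_mul, abs_of_nonneg hR,
    Real.mul_rpow hR (abs_nonneg _)]
  rw [← Finset.prod_const, ← Finset.prod_mul_distrib]
  exact Finset.prod_congr rfl fun i _ => by ring

theorem fF_scale (hp : 0 < p) (F : Finset ι) {l : ℝ} (hl : 0 < l) (z : Fin n → ℝ) :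
    wF u c p F z * Real.exp (-(l * phi u c p z)) =
      (((l ^ (1 / p)) ^ (p - 2)) ^ F.card)⁻¹ * fF u c p F (l ^ (1 / p) • z) := by
  have h0 : 0 < l ^ (1 / p) := by positivity
  rw [fF, wF_smul u F h0.le, phi_smul u h0.le, ← Real.rpow_mul hl.le (1 / p) p,
    one_div_mul_cancel hp.ne', Real.rpow_one]
  field_simp

theorem integrable_scale (hp : 0 < p) {F : Finset ι} (hi : Integrable (fF u c p F)) {l : ℝ}
    (hl : 0 < l) : Integrable fun z => wF u c p F z * Real.exp (-(l * phi u c p z)) := by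
  simp only [fF_scale u hp F hl]
  exact (hi.comp_smul (by positivity)).const_mul _

theorem integral_scale (hp : 0 < p) (F : Finset ι) {l : ℝ} (hl : 0 < l) :
    ∫ z, wF u c p F z * Real.exp (-(l * phi u c p z)) = l ^ (-deg n p F.card) * IF u c p F := by
  simp only [fF_scale u hp F hl]
  rw [integral_const_mul, Measure.integral_comp_smul, smul_eq_mul, ← mul_assoc, IF,
    abs_of_pos (by positivity)]
  congr 1
  simp only [Module.finrank_fintype_fun_eq_card, Fintype.card_fin]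
  rw [← Real.rpow_natCast, ← Real.rpow_natCast, ← Real.rpow_mul hl.le, ← Real.rpow_mul hl.le,
    ← Real.rpow_mul hl.le, ← Real.rpow_neg hl.le, ← Real.rpow_neg hl.le, ← Real.rpow_add hl, deg]
  congr 1
  ring

theorem exp_half_mul_fF (F : Finset ι) (z : Fin n → ℝ) :
    Real.exp (phi u c p z / 2) * fF u c p F z =
      wF u c p F z * Real.exp (-(1 / 2 * phi u c p z)) := by
  rw [fF, mul_left_comm, ← Real.exp_add]
  congr 2; ring

theorem integrable_exp_half (hp : 0 < p) {F : Finset ι} (hi : Integrable (fF u c p F)) :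
    Integrable fun z => Real.exp (phi u c p z / 2) * fF u c p F z := by
  simp only [exp_half_mul_fF]
  exact integrable_scale u hp hi (by norm_num)

theorem integral_exp_half (hp : 0 < p) (F : Finset ι) :
    ∫ z, Real.exp (phi u c p z / 2) * fF u c p F z = 2 ^ deg n p F.card * IF u c p F := by
  simp only [exp_half_mul_fF]
  rw [integral_scale u hp F (by norm_num), one_div, Real.inv_rpow (by norm_num),
    Real.rpow_neg (by norm_num), inv_inv]

theorem integrable_TT_mul (hp : 0 < p) (hc : ∀ i, 0 < c i) {F : Finset ι}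
    (hi : Integrable (fF u c p F)) (i : ι) : Integrable fun z => TT u c p i z * fF u c p F z := by
  refine ((integrable_exp_half u hp hi).const_mul 2).mono'
    ((measurable_TT u c p i).mul (measurable_fF u c p F)).aestronglyMeasurable
    (Eventually.of_forall fun z => ?_)
  rw [Real.norm_eq_abs, abs_of_nonneg (mul_nonneg (TT_nonneg u hc i z) (fF_nonneg u hc F z)),
    ← mul_assoc]
  refine mul_le_mul_of_nonneg_right ?_ (fF_nonneg u hc F z)
  linarith [TT_le_phi u (p := p) hc i z, Real.add_one_le_exp (phi u c p z / 2)]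

theorem integrable_phi_mul (hp : 0 < p) (hc : ∀ i, 0 < c i) {F : Finset ι}
    (hi : Integrable (fF u c p F)) : Integrable fun z => phi u c p z * fF u c p F z := by
  simp only [phi, Finset.sum_mul]
  exact integrable_finsetSum _ fun i _ => integrable_TT_mul u hp hc hi i

theorem integral_phi_mul (hp : 0 < p) (hc : ∀ i, 0 < c i) {F : Finset ι}
    (hi : Integrable (fF u c p F)) :
    ∫ z, phi u c p z * fF u c p F z = deg n p F.card * IF u c p F := by
  set M := ∫ z, phi u c p z * fF u c p F z with hM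
  have hmin : IsLocalMin (fun l : ℝ => l ^ (-deg n p F.card) * IF u c p F + l * M) 1 := by
    filter_upwards [Ioi_mem_nhds (zero_lt_one' ℝ)] with l hl
    rw [← integral_scale u hp F hl, Real.one_rpow, one_mul, one_mul]
    have : ∫ z, (fF u c p F z - (l - 1) * (phi u c p z * fF u c p F z)) ≤
        ∫ z, wF u c p F z * Real.exp (-(l * phi u c p z)) := by
      refine integral_mono (hi.sub ((integrable_phi_mul u hp hc hi).const_mul _))
        (integrable_scale u hp hi hl) fun z => ?_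
      have e : Real.exp (-(l * phi u c p z)) =
          Real.exp (-phi u c p z) * Real.exp (-((l - 1) * phi u c p z)) := by
        rw [← Real.exp_add]; ring_nf
      have h1 := mul_le_mul_of_nonneg_left (Real.add_one_le_exp (-((l - 1) * phi u c p z)))
        (fF_nonneg u (p := p) hc F z)
      simp only [e, ← mul_assoc]
      change _ ≤ fF u c p F z * _
      linarith
    rw [integral_sub hi ((integrable_phi_mul u hp hc hi).const_mul _), integral_const_mul,
      ← hM] at this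
    change IF u c p F - _ ≤ _ at this
    linarith
  have hd := ((Real.hasDerivAt_rpow_const (x := 1) (p := -deg n p F.card)
    (Or.inl one_ne_zero)).mul_const (IF u c p F)).add ((hasDerivAt_id (1 : ℝ)).mul_const M)
  have := hmin.hasDerivAt_eq_zero hd
  simp only [Real.one_rpow] at this
  linarith

variable [DecidableEq ι]

theorem phi_update (i : ι) (s : ℝ) (z : Fin n → ℝ) :
    phi u (Function.update c i ((1 + s) * c i)) p z = phi u c p z + s * TT u c p i z := by
  have : ∀ j, TT u (Function.update c i ((1 + s) * c i)) p j z =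
      TT u c p j z + if j = i then s * TT u c p i z else 0 := by
    intro j
    by_cases h : j = i
    · subst h; simp [TT]; ring
    · simp [TT, h]
  simp [phi, this, Finset.sum_add_distrib]

theorem fF_update (F : Finset ι) (i : ι) (s : ℝ) (z : Fin n → ℝ) :
    fF u (Function.update c i ((1 + s) * c i)) p F z =
      (1 + (if i ∈ F then 1 else 0) * s) * Real.exp (-(s * TT u c p i z)) * fF u c p F z := by
  have h1 : wF u (Function.update c i ((1 + s) * c i)) p F z =
      (1 + (if i ∈ F then 1 else 0) * s) * wF u c p F z := by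
    have : ∀ j, Function.update c i ((1 + s) * c i) j * |z ⬝ᵥ u j| ^ (p - 2) =
        (if j = i then 1 + s else 1) * (c j * |z ⬝ᵥ u j| ^ (p - 2)) := by
      intro j
      by_cases h : j = i
      · subst h; simp; ring
      · simp [h]
    simp only [wF, this, Finset.prod_mul_distrib, Finset.prod_ite_eq']
    split_ifs <;> simp
  rw [fF, fF, h1, phi_update, neg_add, Real.exp_add]
  ring

omit [DecidableEq ι] [Fintype ι] in
theorem TT_pow (hc : ∀ i, 0 < c i) (δ : ℝ) (i : ι) (z : Fin n → ℝ) :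
    TT u (fun i => c i ^ δ) (p * δ) i z = TT u c p i z ^ δ := by
  rw [TT, TT, Real.mul_rpow (hc i).le (by positivity), Real.rpow_mul (abs_nonneg _)]

theorem fF_pow (hc : ∀ i, 0 < c i) (F : Finset ι) (κ : ℝ) {z : Fin n → ℝ}
    (hz : ∀ i, z ⬝ᵥ u i ≠ 0) :
    fF u (fun i => c i ^ (1 - κ)) (p * (1 - κ)) F z = fF u c p F z *
      Real.exp (∑ i, (TT u c p i z - TT u c p i z ^ (1 - κ) -
        κ * ((if i ∈ F then 1 else 0) * Real.log (TT u c p i z)))) := by
  have h1 : ∀ i, c i ^ (1 - κ) * |z ⬝ᵥ u i| ^ (p * (1 - κ) - 2) =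
      c i * |z ⬝ᵥ u i| ^ (p - 2) * Real.exp (-(κ * Real.log (TT u c p i z))) := by
    intro i
    have ha := abs_pos.2 (hz i)
    rw [TT, Real.log_mul (hc i).ne' (Real.rpow_pos_of_pos ha _).ne', Real.log_rpow ha,
      Real.rpow_def_of_pos (hc i), Real.rpow_def_of_pos ha, Real.rpow_def_of_pos ha]
    conv_rhs => rw [← Real.exp_log (hc i), Real.log_exp]
    simp only [← Real.exp_add]
    congr 1; ring
  simp only [fF, wF, phi, TT_pow u hc, h1, Finset.prod_mul_distrib, ← Real.exp_sum,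
    Finset.sum_sub_distrib, ← Finset.mul_sum, ite_mul, one_mul, zero_mul, Finset.sum_ite_mem,
    Finset.univ_inter, Finset.sum_neg_distrib, mul_assoc, ← Real.exp_add]
  congr 3; ring

/-- The constant in the one step estimate. -/
noncomputable def stepK (m n q : ℕ) (p κ ρ : ℝ) : ℝ :=
  κ * (m / ρ - (1 + EE ρ) * deg n p q + EE ρ * q) + (16 * κ * ρ + 96 * κ ^ 2) * m * 2 ^ deg n p q

theorem step_F (hu : ∀ i, u i ≠ 0) (hc : ∀ i, 0 < c i) (hp : 0 < p) {F : Finset ι} {κ ρ : ℝ}
    (hκ0 : 0 < κ) (hκ : κ ≤ 1 / 2) (hρ : 0 < ρ) (hi : Integrable (fF u c p F))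
    (hi' : Integrable (fF u (fun i => c i ^ (1 - κ)) (p * (1 - κ)) F)) (lam : ℝ) :
    (∀ i, IntegrableOn (fun s => IF u (Function.update c i ((1 + s) * c i)) p F / s ^ 2) (Ioi ρ)) ∧
    Real.exp lam * ((1 - lam - stepK (Fintype.card ι) n F.card p κ ρ) * IF u c p F +
      κ * ∑ i, ∫ s in Ioi ρ, IF u (Function.update c i ((1 + s) * c i)) p F / s ^ 2) ≤
      IF u (fun i => c i ^ (1 - κ)) (p * (1 - κ)) F := by
  set π : ι → ℝ := fun i => if i ∈ F then 1 else 0 with hπ
  have hπ0 : ∀ i, 0 ≤ π i := fun i => by simp only [hπ]; split_ifs <;> norm_num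
  have hπ1 : ∀ i, π i ≤ 1 := fun i => by simp only [hπ]; split_ifs <;> norm_num
  have hπs : ∑ i, π i = F.card := by simp [hπ]
  set m : ℝ := (Fintype.card ι : ℝ) with hm
  set f := fF u c p F with hf
  set f' := fF u (fun i => c i ^ (1 - κ)) (p * (1 - κ)) F with hf'
  have hf0 : ∀ z, 0 ≤ f z := fF_nonneg u hc F
  let U : (Fin n → ℝ) → ℝ := fun z => (1 - lam - κ * (m / ρ + EE ρ * F.card)) * f z +
    (κ * (1 + EE ρ) * (phi u c p z * f z) -
      (16 * κ * ρ + 96 * κ ^ 2) * m * (Real.exp (phi u c p z / 2) * f z))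
  have j1 : Integrable fun z => κ * (1 + EE ρ) * (phi u c p z * f z) :=
    (integrable_phi_mul u hp hc hi).const_mul _
  have j2 : Integrable fun z =>
      (16 * κ * ρ + 96 * κ ^ 2) * m * (Real.exp (phi u c p z / 2) * f z) :=
    (integrable_exp_half u hp hi).const_mul _
  have j3 : Integrable fun z => κ * (1 + EE ρ) * (phi u c p z * f z) -
      (16 * κ * ρ + 96 * κ ^ 2) * m * (Real.exp (phi u c p z / 2) * f z) := j1.sub j2
  have hU : Integrable U := (hi.const_mul _).add j3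
  have hUI : ∫ z, U z = (1 - lam - stepK (Fintype.card ι) n F.card p κ ρ) * IF u c p F := by
    simp only [U]
    rw [integral_add (hi.const_mul _) j3, integral_sub j1 j2, integral_const_mul,
      integral_const_mul, integral_const_mul, hf, integral_phi_mul u hp hc hi,
      integral_exp_half u hp, stepK, ← hm]
    change _ * IF u c p F + _ = _
    ring
  have key : ∀ᵐ z : Fin n → ℝ, (∀ i, 0 < TT u c p i z) ∧
      Real.exp lam * (U z + κ * ∑ i, QQ ρ (π i) (TT u c p i z) * f z) ≤ f' z := by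
    filter_upwards [ae_dot u hu] with z hz
    have hT : ∀ i, 0 < TT u c p i z := fun i =>
      mul_pos (hc i) (Real.rpow_pos_of_pos (abs_pos.2 (hz i)) _)
    refine ⟨hT, ?_⟩
    rw [hf', fF_pow u hc F κ hz]
    set X := ∑ i, (TT u c p i z - TT u c p i z ^ (1 - κ) -
        κ * ((if i ∈ F then 1 else 0) * Real.log (TT u c p i z))) with hX
    have h1 : ∑ i, (κ * QQ ρ (π i) (TT u c p i z) - κ * (1 / ρ) + κ * (1 + EE ρ) * TT u c p i z -
        κ * EE ρ * π i - (16 * κ * ρ + 96 * κ ^ 2) * Real.exp (phi u c p z / 2)) ≤ X := by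
      refine Finset.sum_le_sum fun i _ => ?_
      have a1 := mul_le_mul_of_nonneg_left (QQ_le (hT i) hρ (hπ0 i) (hπ1 i)) hκ0.le
      have a2 := rpow_le_sub (hT i) hκ0.le hκ
      have a3 : Real.exp (TT u c p i z / 2) ≤ Real.exp (phi u c p z / 2) :=
        Real.exp_le_exp.2 (by linarith [TT_le_phi u (p := p) hc i z])
      have a4 := mul_le_mul_of_nonneg_left a3
        (show 0 ≤ 16 * κ * ρ + 96 * κ ^ 2 by positivity)
      change _ ≤ _ - κ * (π i * _)
      linarith
    simp only [Finset.sum_add_distrib, Finset.sum_sub_distrib, ← Finset.mul_sum, hπs,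
      Finset.sum_const, Finset.card_univ, nsmul_eq_mul, ← hm] at h1
    change _ + _ * phi u c p z - _ - _ ≤ _ at h1
    have h2 : Real.exp lam * (1 + X - lam) ≤ Real.exp X := by
      have := Real.add_one_le_exp (X - lam)
      rw [Real.exp_sub, le_div_iff₀ (Real.exp_pos _)] at this
      linarith
    refine le_trans ?_ (mul_le_mul_of_nonneg_left h2 (hf0 z))
    rw [mul_left_comm]
    refine mul_le_mul_of_nonneg_left ?_ (Real.exp_pos _).le
    have h3 := mul_le_mul_of_nonneg_left h1 (hf0 z)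
    simp only [U, ← Finset.sum_mul, ← hf]
    simp only [div_eq_mul_inv] at h3 ⊢
    linarith
  let H : ι → (Fin n → ℝ) × ℝ → ℝ := fun i x =>
    (1 + π i * x.2) * Real.exp (-(x.2 * TT u c p i x.1)) / x.2 ^ 2 * f x.1
  have hHm : ∀ i, Measurable (H i) := fun i =>
    ((((measurable_snd.const_mul _).const_add _).mul
      (measurable_snd.mul ((measurable_TT u c p i).comp measurable_fst)).neg.exp).div
      (measurable_snd.pow_const _)).mul ((measurable_fF u c p F).comp measurable_fst)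
  have hHQ : ∀ i z, ∫ s in Ioi ρ, H i (z, s) = QQ ρ (π i) (TT u c p i z) * f z := by
    intro i z
    simp only [H, QQ]
    rw [integral_mul_const]
  have hHn : ∀ i z, ∫ s in Ioi ρ, ‖H i (z, s)‖ = QQ ρ (π i) (TT u c p i z) * f z := by
    intro i z
    rw [← hHQ]
    refine setIntegral_congr_fun measurableSet_Ioi fun s hs => ?_
    have hs0 : 0 < s := hρ.trans hs
    have := hπ0 i
    have := hf0 z
    exact Real.norm_of_nonneg (by positivity)
  have hQ0 : ∀ i z, 0 ≤ QQ ρ (π i) (TT u c p i z) * f z := fun i z =>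
    mul_nonneg (QQ_nonneg hρ (hπ0 i)) (hf0 z)
  have hQi : ∀ i, Integrable fun z => QQ ρ (π i) (TT u c p i z) * f z := by
    intro i
    refine (((hi'.div_const (Real.exp lam)).sub hU).div_const κ).mono' ?_ ?_
    · simp only [← hHQ]
      exact ((hHm i).stronglyMeasurable.integral_prod_right'
        (ν := volume.restrict (Ioi ρ))).aestronglyMeasurable
    · filter_upwards [key] with z hz
      rw [Real.norm_of_nonneg (hQ0 i z), le_div_iff₀ hκ0, Pi.sub_apply, le_sub_iff_add_le,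
        le_div_iff₀ (Real.exp_pos _)]
      refine le_trans ?_ hz.2
      have : QQ ρ (π i) (TT u c p i z) * f z ≤ ∑ i, QQ ρ (π i) (TT u c p i z) * f z :=
        Finset.single_le_sum (f := fun i => QQ ρ (π i) (TT u c p i z) * f z)
          (fun i _ => hQ0 i z) (Finset.mem_univ i)
      rw [mul_comm]
      refine mul_le_mul_of_nonneg_left ?_ (Real.exp_pos _).le
      nlinarith
  have hHi : ∀ i, Integrable (H i) (volume.prod (volume.restrict (Ioi ρ))) := by
    intro i
    rw [integrable_prod_iff (hHm i).aestronglyMeasurable]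
    refine ⟨?_, by simpa only [hHn] using hQi i⟩
    filter_upwards [key] with z hz
    exact (integrableOn_QQ hρ (hz.1 i) (π i)).mul_const (f z)
  have hHI : ∀ i s, ∫ z, H i (z, s) = IF u (Function.update c i ((1 + s) * c i)) p F / s ^ 2 := by
    intro i s
    rw [IF, ← integral_div]
    refine integral_congr_ae (Eventually.of_forall fun z => ?_)
    simp only [H, fF_update, hπ, hf]
    ring
  refine ⟨fun i => by simpa only [hHI, IntegrableOn] using (hHi i).integral_prod_right, ?_⟩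
  have hsw : ∀ i, ∫ s in Ioi ρ, IF u (Function.update c i ((1 + s) * c i)) p F / s ^ 2 =
      ∫ z, QQ ρ (π i) (TT u c p i z) * f z := by
    intro i
    simp only [← hHI, ← hHQ]
    exact (integral_integral_swap (f := fun z s => H i (z, s)) (hHi i)).symm
  have hS : Integrable fun z => κ * ∑ i, QQ ρ (π i) (TT u c p i z) * f z :=
    (integrable_finsetSum _ fun i _ => hQi i).const_mul κ
  simp only [hsw]
  rw [← hUI, ← integral_finsetSum _ fun i _ => hQi i, ← integral_const_mul, ← integral_add hU hS,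
    ← integral_const_mul]
  exact integral_mono_ae ((hU.add hS).const_mul _) hi' (key.mono fun z hz => hz.2)

end Pool.Agent.MP85210c

end
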