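import Pool.Agent.MP_85210c_gt.Mg.Step

-- part MP_85210c_gt.Minors
section

/-!
# Cauchy–Binet, integrability and the Gaussian case
-/

set_option autoImplicit false

open MeasureTheory Set Filter Matrix
open scoped ENNReal NNReal Topology MatrixOrder

namespace Pool.Agent.MP85210c

variable {ι : Type*} [Fintype ι] {n : ℕ} (u : ι → Fin n → ℝ)

/-- The square matrix with rows `u (S l)`. -/
def US (S : Fin n → ι) : Matrix (Fin n) (Fin n) ℝ := Matrix.of fun l => u (S l)

/-- The matrix `∑ w i • u i ⊗ u i`. -/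
def MM (w : ι → ℝ) : Matrix (Fin n) (Fin n) ℝ := Matrix.of fun a b => ∑ i, w i * u i a * u i b

theorem cauchy_binet (w : ι → ℝ) :
    ∑ S : Fin n → ι, (US u S).det ^ 2 * ∏ l, w (S l) = n.factorial * (MM u w).det := by
  classical
  have h1 : (MM u w).det = ∑ S : Fin n → ι, (∏ a, w (S a) * u (S a) a) * (US u S).det := by
    have e : (MM u w) = fun a => ∑ i, (w i * u i a) • u i := by
      ext a b; simp [MM, Finset.sum_apply]
    have := (detRowAlternating : (Fin n → ℝ) [⋀^Fin n]→ₗ[ℝ] ℝ).toMultilinearMap.map_sum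
      (fun a i => (w i * u i a) • u i)
    rw [e]
    refine this.trans (Finset.sum_congr rfl fun S _ => ?_)
    rw [MultilinearMap.map_smul_univ]
    rfl
  have h2 : ∀ σ : Equiv.Perm (Fin n), (MM u w).det = ∑ S : Fin n → ι,
      (∏ l, w (S l)) * (US u S).det * ((Equiv.Perm.sign σ : ℤ) * ∏ a, US u S (σ a) a) := by
    intro σ
    rw [h1, ← (Equiv.arrowCongr σ.symm (Equiv.refl ι)).sum_comp]
    refine Finset.sum_congr rfl fun S _ => ?_
    have e : US u (Equiv.arrowCongr σ.symm (Equiv.refl ι) S) = (US u S).submatrix σ id := by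
      ext a b; simp [US]
    rw [e, det_permute, Finset.prod_mul_distrib, ← Equiv.prod_comp σ fun l => w (S l)]
    simp only [Equiv.arrowCongr_apply, Equiv.coe_refl, Equiv.symm_symm, Function.comp_apply, id,
      US, of_apply]
    ring
  have h3 : ∑ σ : Equiv.Perm (Fin n), (MM u w).det = n.factorial * (MM u w).det := by
    simp [Fintype.card_perm]
  rw [← h3, Finset.sum_congr rfl fun σ _ => h2 σ, Finset.sum_comm]
  refine Finset.sum_congr rfl fun S _ => ?_
  rw [← Finset.mul_sum, ← det_apply']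
  ring

theorem dot_MM (w : ι → ℝ) (z : Fin n → ℝ) :
    z ⬝ᵥ (MM u w *ᵥ z) = ∑ i, w i * (z ⬝ᵥ u i) ^ 2 := by
  simp only [dotProduct, mulVec, MM, of_apply, sq, Finset.mul_sum, Finset.sum_mul]
  rw [Finset.sum_congr rfl fun a _ => Finset.sum_comm, Finset.sum_comm]
  refine Finset.sum_congr rfl fun i _ => ?_
  rw [Finset.sum_comm]
  exact Finset.sum_congr rfl fun a _ => Finset.sum_congr rfl fun b _ => by ring

theorem MM_posDef (hd : ∀ z, (∀ i, z ⬝ᵥ u i = 0) → z = 0) {w : ι → ℝ} (hw : ∀ i, 0 < w i) :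
    (MM u w).PosDef := by
  refine PosDef.of_dotProduct_mulVec_pos ?_ fun z hz => ?_
  · ext a b
    simp only [MM, conjTranspose_apply, of_apply, star_trivial]
    exact Finset.sum_congr rfl fun i _ => by ring
  · rw [star_trivial, dot_MM]
    by_contra hc
    apply hz
    refine hd z fun i => ?_
    have h0 : ∀ i ∈ Finset.univ, 0 ≤ w i * (z ⬝ᵥ u i) ^ 2 := fun i _ =>
      mul_nonneg (hw i).le (sq_nonneg _)
    have := (Finset.sum_eq_zero_iff_of_nonneg h0).1
      (le_antisymm (not_lt.1 hc) (Finset.sum_nonneg h0)) i (Finset.mem_univ i)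
    simpa [(hw i).ne'] using this

theorem exists_minor (hd : ∀ z, (∀ i, z ⬝ᵥ u i = 0) → z = 0) :
    ∃ S : Fin n → ι, (US u S).det ≠ 0 := by
  by_contra hc
  push Not at hc
  have h := cauchy_binet u fun _ => 1
  have h2 := (MM_posDef u hd (w := fun _ => 1) fun _ => one_pos).det_pos
  simp only [hc, ne_eq, OfNat.ofNat_ne_zero, not_false_eq_true, zero_pow, zero_mul,
    Finset.sum_const_zero] at h
  have : (0 : ℝ) < n.factorial * (MM u fun _ => 1).det := by positivity
  linarith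

omit [Fintype ι] in
theorem injective_of_minor {S : Fin n → ι} (h : (US u S).det ≠ 0) : Function.Injective S := by
  intro a b hab
  by_contra hne
  exact h (det_zero_of_row_eq hne (by ext l; simp [US, hab]))

theorem integrable_comp_mulVec {B : Matrix (Fin n) (Fin n) ℝ} (hB : B.det ≠ 0)
    {G : (Fin n → ℝ) → ℝ} (hG : Integrable G) : Integrable fun z => G (B *ᵥ z) := by
  have h := Real.map_matrix_volume_pi_eq_smul_volume_pi hB
  have h2 : Integrable G (Measure.map (toLin' B) volume) := by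
    rw [h]; exact hG.smul_measure ENNReal.ofReal_ne_top
  exact h2.comp_measurable (LinearMap.continuous_of_finiteDimensional _).measurable

theorem integral_comp_mulVec {B : Matrix (Fin n) (Fin n) ℝ} (hB : B.det ≠ 0)
    {G : (Fin n → ℝ) → ℝ} (hG : Measurable G) : ∫ z, G (B *ᵥ z) = |B.det⁻¹| * ∫ z, G z := by
  have h := Real.map_matrix_volume_pi_eq_smul_volume_pi hB
  have h2 := integral_map (μ := volume) (φ := toLin' B)
    (LinearMap.continuous_of_finiteDimensional _).measurable.aemeasurable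
    hG.aestronglyMeasurable
  rw [h, integral_smul_measure, ENNReal.toReal_ofReal (abs_nonneg _)] at h2
  exact h2.symm

variable {c : ι → ℝ} {p : ℝ}

theorem integrable_minor_aux (hc : ∀ i, 0 < c i) (hp : 0 < p) {S : Fin n → ι}
    (h : (US u S).det ≠ 0) {q : ℝ} (hq : -1 < q) :
    Integrable fun z => (∏ l, c (S l) * |z ⬝ᵥ u (S l)| ^ q) * Real.exp (-phi u c p z) := by
  classical
  have h1 : Integrable fun y : Fin n → ℝ =>
      ∏ l, c (S l) * (|y l| ^ q * Real.exp (-(c (S l) * |y l| ^ p))) :=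
    Integrable.fintype_prod (f := fun l (t : ℝ) => c (S l) * (|t| ^ q *
      Real.exp (-(c (S l) * |t| ^ p)))) fun l => (integrable_abs_rpow_exp hp hq (hc _)).const_mul _
  refine (integrable_comp_mulVec h h1).mono' (Measurable.aestronglyMeasurable
    ((Finset.measurable_prod _ fun l _ =>
      ((measurable_dot u _).abs.pow_const _).const_mul _).mul (measurable_phi u c p).neg.exp))
    (Eventually.of_forall fun z => ?_)
  have e : ∀ l, (US u S *ᵥ z) l = z ⬝ᵥ u (S l) := fun l => dotProduct_comm _ _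
  have h0 : 0 ≤ ∏ l, c (S l) * |z ⬝ᵥ u (S l)| ^ q :=
    Finset.prod_nonneg fun l _ => mul_nonneg (hc _).le (by positivity)
  rw [Real.norm_of_nonneg (mul_nonneg h0 (Real.exp_pos _).le)]
  simp only [e, ← mul_assoc]
  rw [Finset.prod_mul_distrib (g := fun l => Real.exp (-(c (S l) * |z ⬝ᵥ u (S l)| ^ p))),
    ← Real.exp_sum]
  refine mul_le_mul_of_nonneg_left (Real.exp_le_exp.2 ?_) h0
  rw [Finset.sum_neg_distrib, neg_le_neg_iff, phi]
  change ∑ l, TT u c p (S l) z ≤ _
  rw [← Finset.sum_image (f := fun i => TT u c p i z)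
    (fun a _ b _ hab => injective_of_minor u h hab)]
  exact Finset.sum_le_sum_of_subset_of_nonneg (Finset.subset_univ _)
    fun i _ _ => TT_nonneg u hc i z

theorem integrable_fF_empty (hd : ∀ z, (∀ i, z ⬝ᵥ u i = 0) → z = 0) (hc : ∀ i, 0 < c i)
    (hp : 0 < p) : Integrable (fF u c p ∅) := by
  obtain ⟨S, hS⟩ := exists_minor u hd
  have h := (integrable_minor_aux u hc hp hS neg_one_lt_zero).div_const (∏ l, c (S l))
  refine h.congr (Eventually.of_forall fun z => ?_)
  have : 0 < ∏ l, c (S l) := Finset.prod_pos fun l _ => hc _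
  simp only [Real.rpow_zero, mul_one, fF, wF, Finset.prod_empty]
  field_simp

variable [DecidableEq ι]

omit [Fintype ι] in
theorem wF_image {S : Fin n → ι} (h : (US u S).det ≠ 0) (z : Fin n → ℝ) :
    wF u c p (Finset.univ.image S) z = ∏ l, c (S l) * |z ⬝ᵥ u (S l)| ^ (p - 2) :=
  Finset.prod_image fun _ _ _ _ hab => injective_of_minor u h hab

omit [Fintype ι] in
theorem card_image_minor {S : Fin n → ι} (h : (US u S).det ≠ 0) :
    (Finset.univ.image S).card = n := by
  rw [Finset.card_image_of_injective _ (injective_of_minor u h)]; simp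

theorem integrable_fF_image (hc : ∀ i, 0 < c i) (hp : 1 < p) {S : Fin n → ι}
    (h : (US u S).det ≠ 0) : Integrable (fF u c p (Finset.univ.image S)) := by
  refine (integrable_minor_aux u hc (by linarith) h (q := p - 2) (by linarith)).congr
    (Eventually.of_forall fun z => ?_)
  simp only [fF, wF_image u h]

/-- The primal integral. -/
noncomputable def AA (c : ι → ℝ) (p : ℝ) : ℝ := IF u c p ∅

/-- The dual integral. -/
noncomputable def BB (c : ι → ℝ) (p : ℝ) : ℝ :=
  ∑ S : Fin n → ι, (US u S).det ^ 2 * IF u c p (Finset.univ.image S)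

omit [DecidableEq ι] in
theorem AA_eq : AA u c p = ∫ z, Real.exp (-phi u c p z) := by
  simp [AA, IF, fF, wF]

omit [DecidableEq ι] in
theorem AA_pos (hu : ∀ i, u i ≠ 0) (hd : ∀ z, (∀ i, z ⬝ᵥ u i = 0) → z = 0) (hc : ∀ i, 0 < c i)
    (hp : 0 < p) : 0 < AA u c p :=
  IF_pos u hu hc (integrable_fF_empty u hd hc hp)

theorem BB_pos (hu : ∀ i, u i ≠ 0) (hd : ∀ z, (∀ i, z ⬝ᵥ u i = 0) → z = 0) (hc : ∀ i, 0 < c i)
    (hp : 1 < p) : 0 < BB u c p := by
  obtain ⟨S, hS⟩ := exists_minor u hd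
  refine Finset.sum_pos' (fun S _ => mul_nonneg (sq_nonneg _) (IF_nonneg u hc _))
    ⟨S, Finset.mem_univ _, mul_pos (by positivity) (IF_pos u hu hc (integrable_fF_image u hc hp hS))⟩

theorem sum_minors (z : Fin n → ℝ) :
    ∑ S : Fin n → ι, (US u S).det ^ 2 * wF u c p (Finset.univ.image S) z =
      n.factorial * (MM u fun i => c i * |z ⬝ᵥ u i| ^ (p - 2)).det := by
  rw [← cauchy_binet]
  refine Finset.sum_congr rfl fun S _ => ?_
  by_cases h : (US u S).det = 0
  · simp [h]
  · rw [wF_image u h]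

theorem integrable_minor_term (hc : ∀ i, 0 < c i) (hp : 1 < p) (S : Fin n → ι) :
    Integrable fun z => (US u S).det ^ 2 * fF u c p (Finset.univ.image S) z := by
  by_cases h : (US u S).det = 0
  · simp [h]
  · exact (integrable_fF_image u hc hp h).const_mul _

theorem BB_eq (hc : ∀ i, 0 < c i) (hp : 1 < p) :
    (Integrable fun z => (MM u fun i => c i * |z ⬝ᵥ u i| ^ (p - 2)).det *
      Real.exp (-phi u c p z)) ∧
    BB u c p = n.factorial * ∫ z, (MM u fun i => c i * |z ⬝ᵥ u i| ^ (p - 2)).det *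
      Real.exp (-phi u c p z) := by
  have e : ∀ z, ∑ S : Fin n → ι, (US u S).det ^ 2 * fF u c p (Finset.univ.image S) z =
      n.factorial * ((MM u fun i => c i * |z ⬝ᵥ u i| ^ (p - 2)).det * Real.exp (-phi u c p z)) := by
    intro z
    simp only [fF, ← mul_assoc, ← Finset.sum_mul, sum_minors]
  constructor
  · have h := integrable_finsetSum Finset.univ fun S _ => integrable_minor_term u hc hp S
    simp only [e] at h
    exact (integrable_const_mul_iff (IsUnit.mk0 _ (by positivity)) _).1 h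
  · simp only [BB, IF, ← integral_const_mul]
    rw [← integral_finsetSum _ fun S _ => integrable_minor_term u hc hp S]
    simp only [e]

theorem AB_two (hd : ∀ z, (∀ i, z ⬝ᵥ u i = 0) → z = 0) (hc : ∀ i, 0 < c i) :
    AA u c 2 * BB u c 2 = n.factorial * Real.pi ^ n := by
  have hM := MM_posDef u hd hc
  obtain ⟨B, hB⟩ := CStarAlgebra.nonneg_iff_eq_star_mul_self.mp hM.posSemidef.nonneg
  have hdet : (MM u c).det = B.det ^ 2 := by
    rw [hB, det_mul, star_eq_conjTranspose, det_conjTranspose, star_trivial, sq]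
  have hB0 : B.det ≠ 0 := by
    intro h
    have := hM.det_pos
    rw [hdet, h] at this
    simp at this
  have hφ : ∀ z, phi u c 2 z = ∑ l, (B *ᵥ z) l ^ 2 := by
    intro z
    have h1 := dot_MM u c z
    rw [hB, ← mulVec_mulVec, dotProduct_mulVec, star_eq_conjTranspose, conjTranspose_eq_transpose_of_trivial,
      vecMul_transpose] at h1
    simp only [phi, TT, Real.rpow_ofNat, sq_abs]
    rw [← h1]
    simp [dotProduct, sq]
  have hA : AA u c 2 = |B.det⁻¹| * Real.sqrt Real.pi ^ n := by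
    rw [AA_eq]
    simp only [hφ]
    rw [integral_comp_mulVec hB0 (G := fun y => Real.exp (-∑ l, y l ^ 2)) (by fun_prop)]
    congr 1
    have := integral_fintype_prod_volume_eq_pow (ι := Fin n)
      (fun t : ℝ => Real.exp (-1 * t ^ 2))
    rw [integral_gaussian] at this
    simpa [← Real.exp_sum] using this
  have hBB : BB u c 2 = n.factorial * ((MM u c).det * AA u c 2) := by
    rw [(BB_eq u hc one_lt_two).2, AA_eq, ← integral_const_mul ((MM u c).det)]
    simp
  rw [hBB, hA, hdet, abs_inv, ← sq_abs B.det]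
  have : 0 < |B.det| := abs_pos.2 hB0
  have h2 : (Real.sqrt Real.pi ^ n) ^ 2 = Real.pi ^ n := by
    rw [← pow_mul, mul_comm, pow_mul, Real.sq_sqrt Real.pi_pos.le]
  rw [← h2]
  field_simp

end Pool.Agent.MP85210c

end

-- part MP_85210c_gt.Chain
section

/-!
# The deformation from `p = 2` down to `p`
-/

set_option autoImplicit false

open MeasureTheory Set Filter Matrix
open scoped ENNReal NNReal Topology

namespace Pool.Agent.MP85210c

variable {ι : Type*} [Fintype ι] [DecidableEq ι] {n : ℕ} (u : ι → Fin n → ℝ) {c : ι → ℝ} {p : ℝ}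

omit [Fintype ι] in
theorem update_pos (hc : ∀ i, 0 < c i) (i : ι) {s : ℝ} (hs : 0 ≤ s) (j : ι) :
    0 < Function.update c i ((1 + s) * c i) j := by
  by_cases h : j = i
  · subst h
    have := hc j
    simp only [Function.update_self]
    positivity
  · simp [h, hc j]

theorem laplace_bound (hu : ∀ i, u i ≠ 0) (hd : ∀ z, (∀ i, z ⬝ᵥ u i = 0) → z = 0)
    (hc : ∀ i, 0 < c i) (h1 : 1 < p) (h2 : p ≤ 2) (i : ι) {s : ℝ} (hs : 0 ≤ s) :
    AA u (Function.update c i ((1 + s) * c i)) p ≤ AA u c p *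
      (1 + p * ((∫ z, TT u c p i z * fF u c p ∅ z) / AA u c p) * s) ^ (-(1 / p)) := by
  have hp : 0 < p := by linarith
  have hc' : ∀ i, 0 < c i ^ (1 / p) := fun i => Real.rpow_pos_of_pos (hc i) _
  have e : ∀ i z, |z ⬝ᵥ (c i ^ (1 / p) • u i)| ^ p = TT u c p i z := by
    intro i z
    rw [dotProduct_smul, smul_eq_mul, abs_mul, abs_of_pos (hc' i),
      Real.mul_rpow (hc' i).le (abs_nonneg _), ← Real.rpow_mul (hc i).le, one_div_mul_cancel hp.ne',
      Real.rpow_one, TT]
  have ef : ∀ z, fF u c p ∅ z = Real.exp (-phi u c p z) := fun z => by simp [fF, wF]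
  have hA := integrable_fF_empty u hd hc hp
  have hM := integrable_TT_mul u hp hc hA i
  have h := laplace_unweighted h1 h2 hs (fun i => c i ^ (1 / p) • u i)
    (fun i => smul_ne_zero (hc' i).ne' (hu i))
    (fun z hz => hd z fun i => by
      have := hz i
      rw [dotProduct_smul, smul_eq_mul] at this
      exact (mul_eq_zero.1 this).resolve_left (hc' i).ne')
    (e := c i ^ (1 / p) • u i) (smul_ne_zero (hc' i).ne' (hu i))
    (by simp only [e]; exact hA.congr (Eventually.of_forall ef))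
    (by simp only [e]; simpa only [ef, phi] using hM)
  simp only [e] at h
  simp only [AA_eq, ef, phi_update]
  refine le_trans (le_of_eq ?_) (h.trans (le_of_eq ?_))
  · refine integral_congr_ae (Eventually.of_forall fun z => ?_)
    simp only [← Real.exp_add, phi]
    congr 1; ring
  · simp only [phi]
    congr 3; ring

theorem step_log {I I' Y K : ℝ} (hI : 0 < I)
    (h : ∀ lam, Real.exp lam * ((1 - lam - K) * I + Y) ≤ I') :
    Real.log I + (Y / I - K) ≤ Real.log I' := by
  have h1 := h (Y / I - K)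
  rw [show (1 - (Y / I - K) - K) * I + Y = I by field_simp; ring] at h1
  have := Real.log_le_log (by positivity) h1
  rw [Real.log_mul (Real.exp_pos _).ne' hI.ne', Real.log_exp] at this
  linarith

theorem step_B (hu : ∀ i, u i ≠ 0) (hc : ∀ i, 0 < c i) (hp : 1 < p) {κ ρ : ℝ}
    (hκ0 : 0 < κ) (hκ : κ ≤ 1 / 2) (hρ : 0 < ρ) (hp' : 1 < p * (1 - κ)) (lam : ℝ) :
    (∀ i, IntegrableOn (fun s => BB u (Function.update c i ((1 + s) * c i)) p / s ^ 2) (Ioi ρ)) ∧
    Real.exp lam * ((1 - lam - stepK (Fintype.card ι) n n p κ ρ) * BB u c p +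
      κ * ∑ i, ∫ s in Ioi ρ, BB u (Function.update c i ((1 + s) * c i)) p / s ^ 2) ≤
      BB u (fun i => c i ^ (1 - κ)) (p * (1 - κ)) := by
  have hc' : ∀ i, 0 < c i ^ (1 - κ) := fun i => Real.rpow_pos_of_pos (hc i) _
  have key := fun (S : Fin n → ι) (h : (US u S).det ≠ 0) =>
    step_F u hu hc (by linarith) hκ0 hκ hρ (integrable_fF_image u hc hp h)
      (integrable_fF_image u hc' hp' h) lam
  have hi : ∀ i (S : Fin n → ι), IntegrableOn (fun s => (US u S).det ^ 2 *
      (IF u (Function.update c i ((1 + s) * c i)) p (Finset.univ.image S) / s ^ 2)) (Ioi ρ) := by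
    intro i S
    by_cases h : (US u S).det = 0
    · simp [h]
    · exact ((key S h).1 i).const_mul _
  have e : ∀ i s, BB u (Function.update c i ((1 + s) * c i)) p / s ^ 2 = ∑ S : Fin n → ι,
      (US u S).det ^ 2 *
        (IF u (Function.update c i ((1 + s) * c i)) p (Finset.univ.image S) / s ^ 2) := by
    intro i s
    simp only [BB, Finset.sum_div, mul_div_assoc]
  simp only [e]
  refine ⟨fun i => integrable_finsetSum _ fun S _ => hi i S, ?_⟩
  rw [Finset.sum_congr rfl fun i _ => integral_finsetSum _ fun S _ => hi i S, Finset.sum_comm, BB,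
    BB, Finset.mul_sum, Finset.mul_sum, ← Finset.sum_add_distrib, Finset.mul_sum]
  refine Finset.sum_le_sum fun S _ => ?_
  by_cases h : (US u S).det = 0
  · simp [h]
  have h3 := mul_le_mul_of_nonneg_left (key S h).2 (sq_nonneg (US u S).det)
  rw [card_image_minor u h] at h3
  simp only [integral_const_mul, ← Finset.mul_sum]
  linarith

/-- The quantity that is monotone along the deformation. -/
noncomputable def hh (N : ℕ) (c : ι → ℝ) (p : ℝ) : ℝ :=
  Real.log (AA u c p) + Real.log (BB u c p) - n * RR N (1 / p)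

theorem AB_step (hu : ∀ i, u i ≠ 0) (hd : ∀ z, (∀ i, z ⬝ᵥ u i = 0) → z = 0) (N : ℕ)
    (h1 : 1 < p) (h2 : p ≤ 2) {κ ρ θ₀ φ₀ : ℝ} (hκ0 : 0 < κ) (hκ : κ ≤ 1 / 2) (hρ : 0 < ρ)
    (hθ : 1 / p / (1 - κ) ≤ θ₀) (hθ₀ : θ₀ < 1)
    (hs : κ * (2 * Fintype.card ι / ρ + n * (N * (2 / (1 - θ₀ ^ 2)))) ≤ 1)
    (hφ : ∀ c : ι → ℝ, (∀ i, 0 < c i) → φ₀ ≤ hh u N c p) (c' : ι → ℝ) (hc' : ∀ i, 0 < c' i) :
    φ₀ - (κ * ρ * (n ^ 2 + 32 * Fintype.card ι * 2 ^ n) +
      κ ^ 2 * (192 * Fintype.card ι * 2 ^ n + n * (2 + N * (4 / (1 - θ₀ ^ 2) ^ 2)))) ≤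
      hh u N c' (p * (1 - κ)) := by
  have hp : 0 < p := by linarith
  have hδ : 0 < 1 - κ := by linarith
  have hp' : 1 < p * (1 - κ) := by
    have : 1 / p / (1 - κ) < 1 := hθ.trans_lt hθ₀
    rwa [div_div, div_lt_one (by positivity)] at this
  obtain ⟨c, hc, rfl⟩ : ∃ c : ι → ℝ, (∀ i, 0 < c i) ∧ c' = fun i => c i ^ (1 - κ) :=
    ⟨fun i => c' i ^ (1 - κ)⁻¹, fun i => Real.rpow_pos_of_pos (hc' i) _,
      funext fun i => (Real.rpow_inv_rpow (hc' i).le hδ.ne').symm⟩
  set θ := 1 / p with hθdef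
  have hθ0 : 0 < θ := by positivity
  have hθ1 : θ < 1 := by rw [hθdef, div_lt_one hp]; exact h1
  have hθθ : θ ≤ θ₀ := le_trans (by rw [le_div_iff₀ hδ]; nlinarith) hθ
  set m : ℝ := (Fintype.card ι : ℝ) with hm
  have hm0 : 0 ≤ m := Nat.cast_nonneg _
  have hn0 : (0 : ℝ) ≤ n := Nat.cast_nonneg _
  have hA := AA_pos u hu hd hc hp
  have hB := BB_pos u hu hd hc h1
  have iA := integrable_fF_empty u hd hc hp
  have sA := step_F u hu hc hp hκ0 hκ hρ iA (integrable_fF_empty u hd hc' (by linarith))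
  have sB := step_B u hu hc h1 hκ0 hκ hρ hp'
  have lA := step_log hA fun lam => (sA lam).2
  have lB := step_log hB fun lam => (sB lam).2
  set η := hh u N c p - φ₀ with hη
  have hη0 : 0 ≤ η := sub_nonneg.2 (hφ c hc)
  set l : ι → ℝ := fun i => p * ((∫ z, TT u c p i z * fF u c p ∅ z) / AA u c p) with hl
  have hl0 : ∀ i, 0 ≤ l i := fun i => mul_nonneg hp.le (div_nonneg
    (integral_nonneg fun z => mul_nonneg (TT_nonneg u hc i z) (fF_nonneg u hc _ z)) hA.le)
  have hls : ∑ i, l i = n := by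
    simp only [hl, ← Finset.mul_sum, ← Finset.sum_div]
    rw [← integral_finsetSum _ fun i _ => integrable_TT_mul u hp hc iA i]
    simp only [← Finset.sum_mul]
    have := integral_phi_mul u hp hc iA
    simp only [phi] at this
    rw [this, deg]
    change p * (_ * AA u c p / AA u c p) = n
    simp only [Finset.card_empty, Nat.cast_zero]
    field_simp
    ring
  have hG : ∀ i, Real.exp (-η) * (2 / ρ + l i * (Lam N θ - l i * ρ)) ≤
      (∫ s in Ioi ρ, AA u (Function.update c i ((1 + s) * c i)) p / s ^ 2) / AA u c p +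
      (∫ s in Ioi ρ, BB u (Function.update c i ((1 + s) * c i)) p / s ^ 2) / BB u c p := by
    intro i
    have a1 : IntegrableOn (fun s =>
        AA u (Function.update c i ((1 + s) * c i)) p / s ^ 2 / AA u c p) (Ioi ρ) :=
      ((sA 0).1 i).div_const _
    have a2 : IntegrableOn (fun s =>
        BB u (Function.update c i ((1 + s) * c i)) p / s ^ 2 / BB u c p) (Ioi ρ) :=
      ((sB 0).1 i).div_const _
    rw [← integral_div, ← integral_div, ← integral_add a1 a2]
    refine frullani_lower hθ0 hθ1 (hl0 i) hρ (Real.exp_pos _).le N (a1.add a2) fun s hs => ?_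
    have hs0 : 0 < s := hρ.trans hs
    have hcs := update_pos hc i hs0.le
    have hA' := AA_pos u hu hd hcs hp
    have hB' := BB_pos u hu hd hcs h1
    have b1 := laplace_bound u hu hd hc h1 h2 i hs0.le
    have b2 := hφ _ hcs
    set A' := AA u (Function.update c i ((1 + s) * c i)) p
    set B' := BB u (Function.update c i ((1 + s) * c i)) p
    change A' ≤ AA u c p * (1 + l i * s) ^ (-θ) at b1
    have hy : 0 < 1 + l i * s := by have := hl0 i; positivity
    have hy1 : 1 ≤ (1 + l i * s) ^ θ :=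
      Real.one_le_rpow (by have := mul_nonneg (hl0 i) hs0.le; linarith) hθ0.le
    rw [Real.rpow_neg hy.le] at b1 ⊢
    have b3 : A' / AA u c p ≤ ((1 + l i * s) ^ θ)⁻¹ := by rw [div_le_iff₀' hA]; exact b1
    have b4 := add_inv_mono (div_pos hA' hA) hy1 b3
    have b5 : Real.exp (-η) * (A' / AA u c p)⁻¹ ≤ B' / BB u c p := by
      rw [← Real.log_le_log_iff (by positivity) (by positivity),
        Real.log_mul (Real.exp_pos _).ne' (by positivity), Real.log_exp, Real.log_inv,
        Real.log_div hA'.ne' hA.ne', Real.log_div hB'.ne' hB.ne']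
      simp only [hh] at b2 hη
      linarith
    have b6 : Real.exp (-η) ≤ 1 := Real.exp_le_one_iff.2 (by linarith)
    have b7 := mul_le_mul_of_nonneg_left b4 (Real.exp_pos (-η)).le
    have b8 : Real.exp (-η) * (A' / AA u c p) ≤ A' / AA u c p :=
      mul_le_of_le_one_left (by positivity) b6
    rw [div_right_comm A', div_right_comm B', ← add_div]
    refine div_le_div_of_nonneg_right ?_ (by positivity)
    linarith
  have hG2 := Finset.sum_le_sum fun i (_ : i ∈ Finset.univ) => hG i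
  simp only [Finset.sum_add_distrib, ← Finset.sum_div, ← Finset.mul_sum, mul_sub,
    Finset.sum_sub_distrib, ← Finset.sum_mul, hls, Finset.sum_const, Finset.card_univ,
    nsmul_eq_mul, ← hm] at hG2
  have hl2 : ∑ i, l i * (l i * ρ) ≤ n ^ 2 * ρ := by
    have : ∑ i, l i * (l i * ρ) ≤ ∑ i, l i * (n * ρ) := by
      refine Finset.sum_le_sum fun i _ => mul_le_mul_of_nonneg_left
        (mul_le_mul_of_nonneg_right ?_ hρ.le) (hl0 i)
      rw [← hls]
      exact Finset.single_le_sum (fun i _ => hl0 i) (Finset.mem_univ i)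
    rw [← Finset.sum_mul, hls] at this
    linarith
  have hl3 : 0 ≤ ∑ i, l i * (l i * ρ) :=
    Finset.sum_nonneg fun i _ => mul_nonneg (hl0 i) (mul_nonneg (hl0 i) hρ.le)
  have hL0 := Lam_nonneg N hθ0.le hθ1
  have hL1 := Lam_le N hθ0.le hθθ hθ₀
  have hR := RR_step N hθ0 hκ0.le hκ hθ hθ₀
  have hd0 : deg n p 0 = n * θ := by rw [deg, hθdef]; simp; ring
  have hd1 : deg n p n = n - n * θ := by rw [deg, hθdef]; field_simp; ring
  have g0 : (2 : ℝ) ^ deg n p 0 ≤ 2 ^ n := by
    rw [← Real.rpow_natCast]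
    exact Real.rpow_le_rpow_of_exponent_le one_le_two (by rw [hd0]; nlinarith)
  have g1 : (2 : ℝ) ^ deg n p n ≤ 2 ^ n := by
    rw [← Real.rpow_natCast]
    exact Real.rpow_le_rpow_of_exponent_le one_le_two (by rw [hd1]; nlinarith)
  have hK : stepK (Fintype.card ι) n 0 p κ ρ + stepK (Fintype.card ι) n n p κ ρ ≤
      κ * (2 * m / ρ - n) + (16 * κ * ρ + 96 * κ ^ 2) * m * (2 * 2 ^ n) := by
    have := mul_le_mul_of_nonneg_left (add_le_add g0 g1)
      (show 0 ≤ (16 * κ * ρ + 96 * κ ^ 2) * m by positivity)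
    simp only [stepK, ← hm, Nat.cast_zero]
    rw [show κ * (m / ρ - (1 + EE ρ) * deg n p 0 + EE ρ * 0) =
      κ * (2 * m / ρ - n) - κ * (m / ρ - (1 + EE ρ) * deg n p n + EE ρ * n) by rw [hd0, hd1]; ring]
    linarith
  have e1 : Real.exp (-η) ≤ 1 := Real.exp_le_one_iff.2 (by linarith)
  have e2 := Real.add_one_le_exp (-η)
  have e3 : (1 - η) * (2 * m / ρ + n * Lam N θ) - n ^ 2 * ρ ≤
      Real.exp (-η) * (m * 2 / ρ + (n * Lam N θ - ∑ i, l i * (l i * ρ))) := by
    have f1 : (1 - η) * (2 * m / ρ + n * Lam N θ) ≤ Real.exp (-η) * (2 * m / ρ + n * Lam N θ) :=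
      mul_le_mul_of_nonneg_right (by linarith) (by positivity)
    have f2 : Real.exp (-η) * ∑ i, l i * (l i * ρ) ≤ ∑ i, l i * (l i * ρ) :=
      mul_le_of_le_one_left hl3 e1
    rw [show m * 2 / ρ = 2 * m / ρ by ring]
    linarith
  have e4 := mul_le_mul_of_nonneg_left (e3.trans hG2) hκ0.le
  have e5 : η * (κ * (2 * m / ρ + n * Lam N θ)) ≤ η := by
    refine mul_le_of_le_one_right hη0 (le_trans ?_ hs)
    gcongr
  have e6 := mul_le_mul_of_nonneg_left hR hn0
  simp only [Finset.card_empty, mul_div_assoc κ] at lA lB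
  change Real.log (AA u c p) + (κ * ((∑ i, ∫ s in Ioi ρ,
    AA u (Function.update c i ((1 + s) * c i)) p / s ^ 2) / AA u c p) - _) ≤
    Real.log (AA u (fun i => c i ^ (1 - κ)) (p * (1 - κ))) at lA
  simp only [hh] at hη ⊢
  rw [← div_div, ← hθdef] at *
  linarith

theorem chain (hu : ∀ i, u i ≠ 0) (hd : ∀ z, (∀ i, z ⬝ᵥ u i = 0) → z = 0) (N : ℕ)
    (h1 : 1 < p) (h2 : p < 2) (hc : ∀ i, 0 < c i) :
    Real.log (n.factorial * Real.pi ^ n) - n * RR N (1 / 2) ≤ hh u N c p := by
  have hp : 0 < p := by linarith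
  set φ₀ := Real.log (n.factorial * Real.pi ^ n) - n * RR N (1 / 2) with hφ₀
  set θ₀ := 1 / p with hθ₀
  have hθ1 : θ₀ < 1 := by rw [hθ₀, div_lt_one hp]; exact h1
  have hθ2 : 0 < 1 - θ₀ ^ 2 := by
    have : 0 < θ₀ := by positivity
    nlinarith
  set C₁ : ℝ := n ^ 2 + 32 * Fintype.card ι * 2 ^ n with hC₁
  set C₂ : ℝ := 192 * Fintype.card ι * 2 ^ n + n * (2 + N * (4 / (1 - θ₀ ^ 2) ^ 2)) with hC₂
  have hC1 : 0 ≤ C₁ := by positivity
  have hC2 : 0 ≤ C₂ := by positivity
  refine le_of_forall_pos_le_add fun ε hε => ?_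
  set ρ := ε / (2 * (C₁ + 1)) with hρ
  have hρ0 : 0 < ρ := by positivity
  have hρ1 : ρ * C₁ ≤ ε / 2 := by
    rw [hρ, div_mul_eq_mul_div, div_le_div_iff₀ (by positivity) (by positivity)]
    nlinarith
  set C₃ : ℝ := 2 * Fintype.card ι / ρ + n * (N * (2 / (1 - θ₀ ^ 2))) with hC₃
  have hC3 : 0 ≤ C₃ := by positivity
  obtain ⟨J, hJ⟩ := exists_nat_ge (2 + C₃ + 2 * C₂ / ε)
  have hC4 : 0 ≤ 2 * C₂ / ε := by positivity
  have hJ0 : (0 : ℝ) < J := by linarith
  have hJn : J ≠ 0 := by exact_mod_cast hJ0.ne'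
  set δ := (p / 2) ^ (J : ℝ)⁻¹ with hδ
  have hδ0 : 0 < δ := by positivity
  have hδ1 : δ < 1 := Real.rpow_lt_one (by positivity) (by linarith) (by positivity)
  have hδJ : δ ^ J = p / 2 := Real.rpow_inv_natCast_pow (by positivity) hJn
  set κ := 1 - δ with hκ
  have hκ0 : 0 < κ := by linarith
  have hκJ : J * κ ≤ 1 := by
    have a1 := Real.log_le_sub_one_of_pos hδ0
    have a2 : J * Real.log δ = Real.log (p / 2) := by rw [← Real.log_pow, hδJ]
    have a3 := Real.log_le_sub_one_of_pos (show 0 < (p / 2)⁻¹ by positivity)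
    have a4 : (p / 2)⁻¹ ≤ 2 := by rw [inv_le_comm₀ (by positivity) two_pos]; linarith
    rw [Real.log_inv] at a3
    nlinarith
  have hκ2 : κ ≤ 1 / 2 := by nlinarith
  have hκ3 : κ * C₃ ≤ 1 := by nlinarith
  have hκ4 : κ * C₂ ≤ ε / 2 := by
    have : κ * (2 * C₂ / ε) ≤ 1 := by nlinarith
    rw [← mul_div_assoc, div_le_one hε] at this
    linarith
  have main : ∀ j ≤ J, ∀ c : ι → ℝ, (∀ i, 0 < c i) →
      φ₀ - j * (κ * ρ * C₁ + κ ^ 2 * C₂) ≤ hh u N c (2 * δ ^ j) := by
    intro j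
    induction j with
    | zero =>
      intro _ c hc
      simp only [Nat.cast_zero, zero_mul, sub_zero, pow_zero, mul_one, hh, hφ₀]
      rw [← AB_two u hd hc, Real.log_mul (AA_pos u hu hd hc two_pos).ne'
        (BB_pos u hu hd hc one_lt_two).ne']
    | succ j ih =>
      intro hj c hc
      have a1 : p / 2 ≤ δ ^ (j + 1) := by
        rw [← hδJ]; exact pow_le_pow_of_le_one hδ0.le hδ1.le hj
      have a2 : δ ^ (j + 1) ≤ δ ^ j := pow_le_pow_of_le_one hδ0.le hδ1.le (Nat.le_succ j)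
      have a3 : δ ^ j ≤ 1 := pow_le_one₀ hδ0.le hδ1.le
      have a4 : 2 * δ ^ j * (1 - κ) = 2 * δ ^ (j + 1) := by rw [hκ]; ring
      have := AB_step u hu hd N (p := 2 * δ ^ j) (by linarith) (by linarith) hκ0 hκ2 hρ0
        (θ₀ := θ₀) (by
          rw [div_div, a4, hθ₀]
          exact one_div_le_one_div_of_le hp (by linarith)) hθ1 hκ3 (ih (by omega)) c hc
      rw [a4] at this
      push_cast
      linarith
  have := main J le_rfl c hc
  rw [hδJ, show 2 * (p / 2) = p by ring] at this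
  have b1 : J * (κ * ρ * C₁ + κ ^ 2 * C₂) ≤ ε := by
    have : J * (κ * ρ * C₁ + κ ^ 2 * C₂) = (J * κ) * (ρ * C₁ + κ * C₂) := by ring
    rw [this]
    refine (mul_le_of_le_one_left (by positivity) hκJ).trans (by linarith)
  linarith

theorem AB_lower (hu : ∀ i, u i ≠ 0) (hd : ∀ z, (∀ i, z ⬝ᵥ u i = 0) → z = 0)
    (h1 : 1 < p) (h2 : p < 2) (hc : ∀ i, 0 < c i) :
    n.factorial * (4 * (Real.pi * (1 / p) ^ 2 / Real.sin (Real.pi * (1 / p)))) ^ n ≤
      AA u c p * BB u c p := by
  have hp : 0 < p := by linarith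
  have hθ1 : 1 / p < 1 := by rw [div_lt_one hp]; exact h1
  have hA := AA_pos u hu hd hc hp
  have hB := BB_pos u hu hd hc h1
  have l1 := RR_lim (θ := 1 / p) (by positivity) hθ1
  have l2 := RR_lim (θ := 1 / 2) (by norm_num) (by norm_num)
  have h := le_of_tendsto' (((l1.sub l2).const_mul (n : ℝ)).const_add
    (Real.log (n.factorial * Real.pi ^ n)))
    (b := Real.log (AA u c p) + Real.log (BB u c p)) fun N => by
      have := chain u hu hd N h1 h2 hc
      simp only [hh] at this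
      linarith
  have hs : 0 < Real.sin (Real.pi * (1 / p)) :=
    Real.sin_pos_of_pos_of_lt_pi (by positivity) (by nlinarith [Real.pi_pos])
  have hπ := Real.pi_pos
  rw [← Real.log_le_log_iff (by positivity) (by positivity), Real.log_mul hA.ne' hB.ne']
  refine le_trans (le_of_eq ?_) h
  rw [show Real.pi * (1 / 2) = Real.pi / 2 by ring, Real.sin_pi_div_two,
    show Real.pi * (1 / 2) ^ 2 / 1 = Real.pi / 4 by ring,
    Real.log_mul (by positivity) (by positivity), Real.log_mul (by positivity) (by positivity),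
    Real.log_pow, Real.log_pow, Real.log_mul (by positivity) (by positivity),
    Real.log_div hπ.ne' (by norm_num)]
  ring

end Pool.Agent.MP85210c

end

-- part MP_85210c_gt.Volume
section

/-!
# From integrals to volumes
-/

set_option autoImplicit false

open MeasureTheory Set Filter Matrix
open scoped ENNReal NNReal Topology Pointwise

namespace Pool.Agent.MP85210c

variable {ι : Type*} [Fintype ι] {n : ℕ} (u : ι → Fin n → ℝ) {c : ι → ℝ} {p : ℝ}

theorem lintegral_smul_comp {f : (Fin n → ℝ) → ℝ≥0∞} (hf : Measurable f) {R : ℝ} (hR : 0 < R) :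
    ∫⁻ z, f z = ENNReal.ofReal (R ^ n) * ∫⁻ z, f (R • z) := by
  rw [← lintegral_map hf (measurable_const_smul R), Measure.map_addHaar_smul _ hR.ne',
    lintegral_smul_measure, smul_eq_mul, ← mul_assoc, ← ENNReal.ofReal_mul (by positivity)]
  simp only [Module.finrank_fintype_fun_eq_card, Fintype.card_fin]
  rw [abs_of_pos (by positivity), mul_inv_cancel₀ (by positivity), ENNReal.ofReal_one, one_mul]

theorem layer_cake (hc : ∀ i, 0 < c i) (hp : 0 < p) {W : (Fin n → ℝ) → ℝ} (hW : Measurable W)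
    (hW0 : ∀ z, 0 ≤ W z) {a : ℝ} (ha : ∀ R : ℝ, 0 < R → ∀ z, W (R • z) = R ^ a * W z)
    (hD : 0 < (n + a) / p + 1) :
    ∫⁻ z, ENNReal.ofReal (W z * Real.exp (-phi u c p z)) =
      ENNReal.ofReal (Real.Gamma ((n + a) / p + 1)) *
        ∫⁻ z in {z | phi u c p z < 1}, ENNReal.ofReal (W z) := by
  have hS : ∀ r, MeasurableSet {z | phi u c p z < r} := fun r =>
    measurableSet_lt (measurable_phi u c p) measurable_const
  let G : (Fin n → ℝ) → ℝ → ℝ≥0∞ := fun z r =>
    {x : (Fin n → ℝ) × ℝ | phi u c p x.1 < x.2}.indicator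
      (fun x => ENNReal.ofReal (W x.1) * ENNReal.ofReal (Real.exp (-x.2))) (z, r)
  have hG : Measurable (Function.uncurry G) :=
    ((hW.comp measurable_fst).ennreal_ofReal.mul measurable_snd.neg.exp.ennreal_ofReal).indicator
      (measurableSet_lt ((measurable_phi u c p).comp measurable_fst) measurable_snd)
  have h1 : ∀ z, ENNReal.ofReal (W z * Real.exp (-phi u c p z)) = ∫⁻ r in Ioi 0, G z r := by
    intro z
    have : ∀ r, G z r = (Ioi (phi u c p z)).indicator
        (fun r => ENNReal.ofReal (W z) * ENNReal.ofReal (Real.exp (-r))) r := fun r => rfl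
    simp only [this]
    rw [lintegral_indicator measurableSet_Ioi, Measure.restrict_restrict measurableSet_Ioi,
      inter_eq_left.2 (Ioi_subset_Ioi (phi_nonneg u hc z)),
      lintegral_const_mul' _ _ ENNReal.ofReal_ne_top,
      ← ofReal_integral_eq_lintegral_ofReal (integrableOn_exp_neg_Ioi _)
        (Eventually.of_forall fun _ => (Real.exp_pos _).le), integral_exp_neg_Ioi,
      ENNReal.ofReal_mul (hW0 z)]
  have h2 : ∀ r ∈ Ioi (0 : ℝ), ∫⁻ z, G z r =
      ENNReal.ofReal (Real.exp (-r) * r ^ ((n + a) / p + 1 - 1)) *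
        ∫⁻ z in {z | phi u c p z < 1}, ENNReal.ofReal (W z) := by
    intro r hr
    have hr : 0 < r := hr
    have hR : 0 < r ^ (1 / p) := by positivity
    rw [lintegral_smul_comp (f := fun z => G z r) hG.of_uncurry_right hR,
      ← lintegral_indicator (hS 1), ← lintegral_const_mul' _ _ ENNReal.ofReal_ne_top,
      ← lintegral_const_mul' _ _ ENNReal.ofReal_ne_top]
    refine lintegral_congr fun z => ?_
    have e : phi u c p (r ^ (1 / p) • z) < r ↔ phi u c p z < 1 := by
      rw [phi_smul u hR.le, ← Real.rpow_mul hr.le, one_div_mul_cancel hp.ne', Real.rpow_one]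
      exact mul_lt_iff_lt_one_right hr
    simp only [G, indicator, mem_ofPred_eq, e]
    split_ifs
    · rw [ha _ hR, ← ENNReal.ofReal_mul (mul_nonneg (by positivity) (hW0 z)),
        ← ENNReal.ofReal_mul (by positivity), ← ENNReal.ofReal_mul (by positivity)]
      congr 1
      rw [add_sub_cancel_right, ← Real.rpow_natCast, ← Real.rpow_mul hr.le, ← Real.rpow_mul hr.le,
        show (n + a) / p = 1 / p * n + 1 / p * a by ring, Real.rpow_add hr]
      ring
    · simp
  simp only [h1]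
  rw [lintegral_lintegral_swap hG.aemeasurable, setLIntegral_congr_fun measurableSet_Ioi h2,
    lintegral_mul_const _ (by fun_prop), Real.Gamma_eq_integral hD,
    ofReal_integral_eq_lintegral_ofReal (Real.GammaIntegral_convergent hD)]
  filter_upwards [ae_restrict_mem measurableSet_Ioi] with r hr
  have hr : 0 < r := hr
  positivity

theorem psi_strictMono (hp : 1 < p) : StrictMono fun a : ℝ => |a| ^ (p - 2) * a := by
  have e : ∀ a : ℝ, 0 < a → |a| ^ (p - 2) * a = a ^ (p - 1) := by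
    intro a ha
    rw [abs_of_pos ha, ← Real.rpow_add_one ha.ne']; congr 1; ring
  have h1 : ∀ a b : ℝ, 0 ≤ a → a < b → |a| ^ (p - 2) * a < |b| ^ (p - 2) * b := by
    intro a b ha hab
    rw [e b (ha.trans_lt hab)]
    rcases ha.eq_or_lt with rfl | ha
    · simpa using Real.rpow_pos_of_pos hab _
    · rw [e a ha]; exact Real.rpow_lt_rpow ha.le hab (by linarith)
  intro a b hab
  simp only
  rcases le_or_gt 0 a with ha | ha
  · exact h1 a b ha hab
  rcases le_or_gt b 0 with hb | hb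
  · have := h1 (-b) (-a) (by linarith) (by linarith)
    simp only [abs_neg, mul_neg, neg_lt_neg_iff] at this
    exact this
  · have a1 := h1 0 b le_rfl hb
    have a2 := h1 0 (-a) le_rfl (by linarith)
    simp only [abs_neg, mul_neg, mul_zero] at a1 a2
    linarith

theorem hasDerivAt_psi (p : ℝ) {a : ℝ} (ha : a ≠ 0) :
    HasDerivAt (fun a : ℝ => |a| ^ (p - 2) * a) ((p - 1) * |a| ^ (p - 2)) a := by
  have h1 := (((hasDerivAt_abs ha).rpow_const (p := p - 2) (Or.inl (abs_pos.2 ha).ne')).mul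
    (hasDerivAt_id a))
  refine h1.congr_deriv ?_
  have h2 : (SignType.sign a : ℝ) * a = |a| := sign_mul_self a
  have h3 : |a| ^ (p - 2 - 1) * |a| = |a| ^ (p - 2) := by
    rw [← Real.rpow_add_one (abs_pos.2 ha).ne']; congr 1; ring
  simp only [id]
  linear_combination (p - 2) * |a| ^ (p - 2 - 1) * h2 + (p - 2) * h3

theorem young_psi (hp : 1 < p) (a b : ℝ) :
    b * (|a| ^ (p - 2) * a) ≤ |b| ^ p / p + (1 - 1 / p) * |a| ^ p := by
  have h := Real.young_inequality b (|a| ^ (p - 2) * a) (Real.HolderConjugate.conjExponent hp)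
  refine h.trans (le_of_eq ?_)
  congr 1
  have hp1 : p - 1 ≠ 0 := by linarith
  rw [abs_mul, abs_of_nonneg (by positivity : 0 ≤ |a| ^ (p - 2)), Real.conjExponent,
    ← Real.rpow_add_one' (abs_nonneg a) (by linarith), ← Real.rpow_mul (abs_nonneg a),
    show (p - 2 + 1) * (p / (p - 1)) = p by field_simp; ring]
  field_simp

theorem MM_smul (r : ℝ) (w : ι → ℝ) : (MM u fun i => r * w i) = r • MM u w := by
  ext a b
  simp only [MM, of_apply, Matrix.smul_apply, smul_eq_mul, Finset.mul_sum]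
  exact Finset.sum_congr rfl fun i _ => by ring

theorem det_MM_nonneg {w : ι → ℝ} (hw : ∀ i, 0 ≤ w i) : 0 ≤ (MM u w).det := by
  have h := cauchy_binet u w
  have h2 : 0 ≤ ∑ S : Fin n → ι, (US u S).det ^ 2 * ∏ l, w (S l) :=
    Finset.sum_nonneg fun S _ => mul_nonneg (sq_nonneg _) (Finset.prod_nonneg fun l _ => hw _)
  rw [h] at h2
  exact (mul_nonneg_iff_of_pos_left (by positivity)).1 h2

theorem measurable_det_MM (c : ι → ℝ) (p : ℝ) :
    Measurable fun z => (MM u fun i => c i * |z ⬝ᵥ u i| ^ (p - 2)).det := by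
  simp only [det_apply', MM, of_apply]
  refine Finset.measurable_sum _ fun σ _ => Measurable.const_mul ?_ _
  refine Finset.measurable_prod _ fun a _ => Finset.measurable_sum _ fun i _ => ?_
  exact ((((measurable_dot u i).abs.pow_const _).const_mul _).mul_const _).mul_const _

theorem polar_lower (hu : ∀ i, u i ≠ 0) (hd : ∀ z, (∀ i, z ⬝ᵥ u i = 0) → z = 0)
    (hc : ∀ i, 0 < c i) (hp : 1 < p) :
    ENNReal.ofReal ((p - 1) ^ n) * ∫⁻ z in {z | phi u c p z < 1},
      ENNReal.ofReal (MM u fun i => c i * |z ⬝ᵥ u i| ^ (p - 2)).det ≤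
      volume {y : Fin n → ℝ | ∀ x, phi u c p x ≤ 1 → x ⬝ᵥ y ≤ 1} := by
  let Ψ : (Fin n → ℝ) → Fin n → ℝ := fun z =>
    ∑ i, (c i * (|z ⬝ᵥ u i| ^ (p - 2) * (z ⬝ᵥ u i))) • u i
  let Ψ' : (Fin n → ℝ) → (Fin n → ℝ) →L[ℝ] Fin n → ℝ := fun z =>
    LinearMap.toContinuousLinearMap
      (toLin' ((p - 1) • MM u fun i => c i * |z ⬝ᵥ u i| ^ (p - 2)))
  let s : Set (Fin n → ℝ) := {z | phi u c p z < 1} ∩ {z | ∀ i, z ⬝ᵥ u i ≠ 0}
  have hs : MeasurableSet s := by
    refine (measurableSet_lt (measurable_phi u c p) measurable_const).inter ?_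
    simp only [ofPred_forall]
    exact MeasurableSet.iInter fun i =>
      (measurableSet_eq_fun (measurable_dot u i) measurable_const).compl
  have hdot : ∀ x z, x ⬝ᵥ Ψ z = ∑ i, c i * ((x ⬝ᵥ u i) * (|z ⬝ᵥ u i| ^ (p - 2) * (z ⬝ᵥ u i))) := by
    intro x z
    simp only [Ψ, dotProduct_sum, dotProduct_smul, smul_eq_mul]
    exact Finset.sum_congr rfl fun i _ => by ring
  have hder : ∀ z ∈ s, HasFDerivWithinAt Ψ (Ψ' z) s z := by
    intro z hz
    refine HasFDerivAt.hasFDerivWithinAt ?_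
    let L : ι → (Fin n → ℝ) →L[ℝ] ℝ := fun i => LinearMap.toContinuousLinearMap
      { toFun := fun z => z ⬝ᵥ u i
        map_add' := fun x y => by simp
        map_smul' := fun a x => by simp }
    have h := HasFDerivAt.fun_sum (u := Finset.univ) fun i _ =>
      ((((hasDerivAt_psi p (hz.2 i)).comp_hasFDerivAt z (L i).hasFDerivAt).const_mul
        (c i)).smul_const (u i))
    refine h.congr_fderiv ?_
    ext x a
    simp [Ψ', L, MM, mulVec, dotProduct, Finset.sum_apply, Finset.mul_sum, Finset.sum_mul]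
    rw [Finset.sum_comm]
    exact Finset.sum_congr rfl fun _ _ => Finset.sum_congr rfl fun _ _ => by ring
  have hinj : InjOn Ψ s := by
    intro x _ y _ hxy
    have h1 : ∑ i, c i * ((x ⬝ᵥ u i - y ⬝ᵥ u i) * (|x ⬝ᵥ u i| ^ (p - 2) * (x ⬝ᵥ u i) -
        |y ⬝ᵥ u i| ^ (p - 2) * (y ⬝ᵥ u i))) = 0 := by
      have a1 := hdot (x - y) x
      have a2 := hdot (x - y) y
      rw [hxy, a2, ← sub_eq_zero, ← Finset.sum_sub_distrib] at a1
      rw [← neg_eq_zero, ← Finset.sum_neg_distrib, ← a1]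
      refine Finset.sum_congr rfl fun i _ => ?_
      rw [sub_dotProduct]; ring
    have h2 : ∀ a b : ℝ, a ≠ b → 0 < (a - b) * (|a| ^ (p - 2) * a - |b| ^ (p - 2) * b) := by
      intro a b hab
      rcases lt_or_gt_of_ne hab with h | h
      · exact mul_pos_of_neg_of_neg (by linarith) (sub_neg.2 (psi_strictMono hp h))
      · exact mul_pos (by linarith) (sub_pos.2 (psi_strictMono hp h))
    have h3 : ∀ a b : ℝ, 0 ≤ (a - b) * (|a| ^ (p - 2) * a - |b| ^ (p - 2) * b) := by
      intro a b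
      rcases eq_or_ne a b with rfl | h
      · simp
      · exact (h2 a b h).le
    rw [Finset.sum_eq_zero_iff_of_nonneg fun i _ => mul_nonneg (hc i).le (h3 _ _)] at h1
    refine sub_eq_zero.1 (hd _ fun i => ?_)
    rw [sub_dotProduct, sub_eq_zero]
    by_contra hne
    exact (mul_pos (hc i) (h2 _ _ hne)).ne' (h1 i (Finset.mem_univ i))
  have him : Ψ '' s ⊆ {y : Fin n → ℝ | ∀ x, phi u c p x ≤ 1 → x ⬝ᵥ y ≤ 1} := by
    rintro _ ⟨z, hz, rfl⟩ x hx
    have h1 : x ⬝ᵥ Ψ z ≤ phi u c p x / p + (1 - 1 / p) * phi u c p z := by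
      rw [hdot, phi, phi, Finset.sum_div, Finset.mul_sum, ← Finset.sum_add_distrib]
      refine Finset.sum_le_sum fun i _ => ?_
      refine (mul_le_mul_of_nonneg_left (young_psi hp _ _) (hc i).le).trans (le_of_eq ?_)
      simp only [TT]; ring
    have h2 : phi u c p z ≤ 1 := le_of_lt hz.1
    have h3 : 1 / p < 1 := by rw [div_lt_one (by linarith)]; exact hp
    have h4 : phi u c p x / p ≤ 1 / p := by gcongr
    nlinarith
  refine le_trans (le_of_eq ?_) (measure_mono him)
  rw [← lintegral_abs_det_fderiv_eq_addHaar_image volume hs hder hinj,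
    ← lintegral_const_mul' _ _ ENNReal.ofReal_ne_top]
  have hae : ({z | phi u c p z < 1} : Set (Fin n → ℝ)) =ᵐ[volume] s := by
    filter_upwards [ae_dot u hu] with z hz
    exact propext ⟨fun h => ⟨h, hz⟩, fun h => h.1⟩
  rw [setLIntegral_congr hae]
  refine lintegral_congr fun z => ?_
  have hp1 : 0 < p - 1 := by linarith
  rw [← ENNReal.ofReal_mul (by positivity)]
  congr 1
  simp only [Ψ', ContinuousLinearMap.det, LinearMap.coe_toContinuousLinearMap, LinearMap.det_toLin',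
    det_smul, Fintype.card_fin]
  exact (abs_of_nonneg (mul_nonneg (by positivity)
    (det_MM_nonneg u fun i => mul_nonneg (hc i).le (by positivity)))).symm

/-- The volume of the unit ball of `ℓ_p^n`. -/
noncomputable def VP (n : ℕ) (p : ℝ) : ℝ :=
  (2 * Real.Gamma (1 / p + 1)) ^ n / Real.Gamma (n / p + 1)

theorem VP_pos (n : ℕ) (hp : 0 < p) : 0 < VP n p := by
  have h1 : 0 < Real.Gamma (1 / p + 1) := Real.Gamma_pos_of_pos (by positivity)
  have h2 : 0 < Real.Gamma (n / p + 1) := Real.Gamma_pos_of_pos (by positivity)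
  unfold VP; positivity

theorem discrete_mahler (hu : ∀ i, u i ≠ 0) (hd : ∀ z, (∀ i, z ⬝ᵥ u i = 0) → z = 0)
    (hc : ∀ i, 0 < c i) (h1 : 1 < p) (h2 : p < 2) :
    ENNReal.ofReal (VP n p * VP n (p / (p - 1))) ≤ volume {z | phi u c p z ≤ 1} *
      volume {y : Fin n → ℝ | ∀ x, phi u c p x ≤ 1 → x ⬝ᵥ y ≤ 1} := by
  classical
  have hp : 0 < p := by linarith
  have hp1 : 0 < p - 1 := by linarith
  have l1 := layer_cake u hc hp (W := fun _ => 1) measurable_const (fun _ => zero_le_one) (a := 0)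
    (fun R _ z => by simp) (by positivity)
  have e : ((n : ℝ) + n * (p - 2)) / p = n / (p / (p - 1)) := by field_simp; ring
  have hw : ∀ z i, 0 ≤ c i * |z ⬝ᵥ u i| ^ (p - 2) := fun z i => mul_nonneg (hc i).le (by positivity)
  have l2 := layer_cake u hc hp (measurable_det_MM u c p) (fun z => det_MM_nonneg u (hw z))
    (a := n * (p - 2)) (fun R hR z => by
      have : (fun i => c i * |(R • z) ⬝ᵥ u i| ^ (p - 2)) =
          fun i => R ^ (p - 2) * (c i * |z ⬝ᵥ u i| ^ (p - 2)) := by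
        ext i
        rw [smul_dotProduct, smul_eq_mul, abs_mul, abs_of_pos hR,
          Real.mul_rpow hR.le (abs_nonneg _)]
        ring
      rw [this, MM_smul, det_smul, Fintype.card_fin, ← Real.rpow_natCast, ← Real.rpow_mul hR.le,
        mul_comm (p - 2)]) (by rw [e]; positivity)
  obtain ⟨iB, hB⟩ := BB_eq u hc h1
  have iA : Integrable fun z => Real.exp (-phi u c p z) :=
    (integrable_fF_empty u hd hc hp).congr (Eventually.of_forall fun z => by simp [fF, wF])
  simp only [one_mul, add_zero, ENNReal.ofReal_one, lintegral_const, Measure.restrict_apply_univ]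
    at l1
  rw [← ofReal_integral_eq_lintegral_ofReal iA (Eventually.of_forall fun _ => (Real.exp_pos _).le),
    ← AA_eq] at l1
  rw [← ofReal_integral_eq_lintegral_ofReal iB (Eventually.of_forall fun z =>
    mul_nonneg (det_MM_nonneg u (hw z)) (Real.exp_pos _).le), e] at l2
  have h3 := AB_lower u hu hd h1 h2 hc
  rw [hB, mul_left_comm] at h3
  replace h3 := le_of_mul_le_mul_left h3 (by positivity)
  set B := ∫ z, (MM u fun i => c i * |z ⬝ᵥ u i| ^ (p - 2)).det * Real.exp (-phi u c p z)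
  have hG1 : 0 < Real.Gamma (n / p + 1) := Real.Gamma_pos_of_pos (by positivity)
  have hG2 : 0 < Real.Gamma (n / (p / (p - 1)) + 1) := Real.Gamma_pos_of_pos (by positivity)
  have hA := AA_pos u hu hd hc hp
  refine le_trans ?_ (mul_le_mul' (measure_mono (s := {z | phi u c p z < 1})
    fun z (hz : phi u c p z < 1) => hz.le) (polar_lower u hu hd hc h1))
  rw [← ENNReal.mul_le_mul_iff_right (a := ENNReal.ofReal (Real.Gamma (n / p + 1)) *
    ENNReal.ofReal (Real.Gamma (n / (p / (p - 1)) + 1)))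
    (mul_ne_zero (by simpa using hG1) (by simpa using hG2))
    (ENNReal.mul_ne_top ENNReal.ofReal_ne_top ENNReal.ofReal_ne_top), mul_mul_mul_comm, ← l1,
    mul_left_comm (ENNReal.ofReal (Real.Gamma _)), ← l2, ← ENNReal.ofReal_mul hG1.le,
    ← ENNReal.ofReal_mul (by positivity), ← ENNReal.ofReal_mul (by positivity),
    ← ENNReal.ofReal_mul hA.le]
  refine ENNReal.ofReal_le_ofReal ?_
  rw [mul_left_comm (AA u c p)]
  refine le_trans (le_of_eq ?_) (mul_le_mul_of_nonneg_left h3 (by positivity))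
  have e2 : 2 * Real.Gamma (1 / p + 1) * (2 * Real.Gamma (1 / (p / (p - 1)) + 1)) =
      (p - 1) * (4 * (Real.pi * (1 / p) ^ 2 / Real.sin (Real.pi * (1 / p)))) := by
    rw [show 1 / (p / (p - 1)) = 1 - 1 / p by field_simp, Real.Gamma_add_one (by positivity),
      Real.Gamma_add_one (by rw [show 1 - 1 / p = (p - 1) / p by field_simp]; positivity),
      mul_div_right_comm, ← Real.Gamma_mul_Gamma_one_sub]
    field_simp
    ring
  rw [← mul_pow, ← e2, mul_pow, VP, VP]
  field_simp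

theorem volume_lp_ball (n : ℕ) (hp : 1 ≤ p) :
    volume {x : Fin n → ℝ | ∑ i, |x i| ^ p ≤ 1} = ENNReal.ofReal (VP n p) := by
  rcases Nat.eq_zero_or_pos n with rfl | hn
  · simp [VP, volume_pi]
  have : Nonempty (Fin n) := ⟨⟨0, hn⟩⟩
  have h := MeasureTheory.volume_sum_rpow_le (Fin n) hp 1
  simp only [ENNReal.ofReal_one, one_pow, one_mul, Fintype.card_fin] at h
  rw [VP, ← h]
  congr 1
  ext x
  simp only [mem_ofPred_eq]
  rw [one_div, Real.rpow_inv_le_iff_of_pos (by positivity) zero_le_one (by linarith),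
    Real.one_rpow]

theorem polar_lp_ball (n : ℕ) (hp : 1 < p) :
    {y : Fin n → ℝ | ∀ x : Fin n → ℝ, ∑ i, |x i| ^ p ≤ 1 → ∑ i, x i * y i ≤ 1} ⊆
      {y | ∑ i, |y i| ^ (p / (p - 1)) ≤ 1} := by
  intro y hy
  by_contra hc
  simp only [mem_ofPred_eq, not_le] at hc hy
  set q := p / (p - 1) with hq
  set S := ∑ i, |y i| ^ q with hS
  have hp0 : 0 < p := by linarith
  have hp1 : 0 < p - 1 := by linarith
  have hq1 : 1 < q := by rw [hq, lt_div_iff₀ hp1]; linarith
  have hS0 : 0 < S := by linarith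
  have hR : 0 < S ^ (1 / p) := by positivity
  have h1 := hy (fun i => |y i| ^ (q - 2) * y i / S ^ (1 / p)) (le_of_eq (by
    have : ∀ i, |(|y i| ^ (q - 2) * y i / S ^ (1 / p))| ^ p = |y i| ^ q / S := by
      intro i
      rw [abs_div, abs_mul, abs_of_pos hR, abs_of_nonneg (by positivity : 0 ≤ |y i| ^ (q - 2)),
        ← Real.rpow_add_one' (abs_nonneg _) (by linarith), Real.div_rpow (by positivity) hR.le,
        ← Real.rpow_mul (abs_nonneg _), ← Real.rpow_mul hS0.le, one_div_mul_cancel hp0.ne',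
        Real.rpow_one, show (q - 2 + 1) * p = q by rw [hq]; field_simp; ring]
    simp only [this, ← Finset.sum_div]
    exact div_self hS0.ne'))
  have h2 : ∀ i, |y i| ^ (q - 2) * y i / S ^ (1 / p) * y i = |y i| ^ q / S ^ (1 / p) := by
    intro i
    rw [div_mul_eq_mul_div, mul_assoc, ← sq, ← sq_abs, ← Real.rpow_natCast,
      ← Real.rpow_add' (abs_nonneg _) (by push_cast; linarith)]
    congr 2; push_cast; ring
  simp only [h2, ← Finset.sum_div] at h1
  rw [div_le_one hR] at h1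
  have h3 : S ^ (1 / p) < S ^ (1 : ℝ) :=
    Real.rpow_lt_rpow_of_exponent_lt hc (by rw [div_lt_one hp0]; exact hp)
  rw [Real.rpow_one] at h3
  linarith

theorem exists_discrete {α : Type*} [MeasurableSpace α] {μ : Measure α} [IsFiniteMeasure μ]
    (hp : 1 ≤ p) (f : Fin n → Lp ℝ (ENNReal.ofReal p) μ) {η : ℝ} (hη : 0 < η) :
    ∃ (s : Finset (Fin n → ℝ)) (c : s → ℝ), (∀ i : s, (i : Fin n → ℝ) ≠ 0) ∧ (∀ i, 0 < c i) ∧
      ∀ x : Fin n → ℝ, |phi (fun i : s => (i : Fin n → ℝ)) c p x ^ p⁻¹ - ‖∑ i, x i • f i‖| ≤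
        η * ∑ i, |x i| := by
  classical
  have hp0 : 0 < p := by linarith
  have : Fact (1 ≤ ENNReal.ofReal p) := ⟨ENNReal.one_le_ofReal.2 hp⟩
  have hF : MemLp (fun t i => f i t) (ENNReal.ofReal p) μ :=
    memLp_pi_iff.2 fun i => Lp.memLp (f i)
  obtain ⟨G, hG, hGm⟩ := hF.exists_simpleFunc_eLpNorm_sub_lt ENNReal.ofReal_ne_top
    (ε := ENNReal.ofReal η) (by simpa using hη)
  have hg : ∀ i, MemLp (fun t => G t i) (ENNReal.ofReal p) μ := memLp_pi_iff.1 hGm
  let g : Fin n → Lp ℝ (ENNReal.ofReal p) μ := fun i => (hg i).toLp _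
  have h1 : ∀ i, ‖g i - f i‖ ≤ η := by
    intro i
    rw [Lp.norm_def]
    refine ENNReal.toReal_le_of_le_ofReal hη.le (le_trans (eLpNorm_mono_ae ?_) hG.le)
    filter_upwards [Lp.coeFn_sub (g i) (f i), (hg i).coeFn_toLp] with t a b
    rw [a, Pi.sub_apply, b, norm_sub_rev]
    exact norm_le_pi_norm (((fun t i => f i t) - ⇑G) t) i
  refine ⟨G.range.filter fun v => v ≠ 0 ∧ μ.real (G ⁻¹' {v}) ≠ 0, fun v => μ.real (G ⁻¹' {v.1}),
    fun v => (Finset.mem_filter.1 v.2).2.1,
    fun v => lt_of_le_of_ne measureReal_nonneg (Finset.mem_filter.1 v.2).2.2.symm, fun x => ?_⟩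
  have h2 : phi (fun i : (G.range.filter fun v => v ≠ 0 ∧ μ.real (G ⁻¹' {v}) ≠ 0) =>
      (i : Fin n → ℝ)) (fun v => μ.real (G ⁻¹' {v.1})) p x = ∫ t, |x ⬝ᵥ G t| ^ p ∂μ := by
    have e := SimpleFunc.map_integral G (fun v => |x ⬝ᵥ v| ^ p) (G.integrable_of_isFiniteMeasure)
      (μ := μ) (by simp [hp0.ne'])
    rw [SimpleFunc.integral_eq_integral _ (SimpleFunc.integrable_of_isFiniteMeasure _)] at e
    simp only [SimpleFunc.coe_map, Function.comp_apply, smul_eq_mul] at e
    rw [e, phi]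
    simp only [TT]
    rw [Finset.sum_coe_sort _ (fun v => μ.real (G ⁻¹' {v}) * |x ⬝ᵥ v| ^ p)]
    refine Finset.sum_filter_of_ne fun v _ hv => ⟨?_, left_ne_zero_of_mul hv⟩
    rintro rfl
    simp [hp0.ne'] at hv
  have h3 : ‖∑ i, x i • g i‖ = (∫ t, |x ⬝ᵥ G t| ^ p ∂μ) ^ p⁻¹ := by
    have hae : ⇑(∑ i, x i • g i) =ᵐ[μ] fun t => x ⬝ᵥ G t := by
      have a1 : ∀ᵐ t ∂μ, ∀ i, (x i • g i) t = x i * G t i := by
        rw [ae_all_iff]
        intro i
        filter_upwards [Lp.coeFn_smul (x i) (g i), (hg i).coeFn_toLp] with t a b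
        rw [a, Pi.smul_apply, b, smul_eq_mul]
      filter_upwards [Lp.coeFn_fun_finsetSum Finset.univ fun i => x i • g i, a1] with t a b
      rw [a]
      exact Finset.sum_congr rfl fun i _ => b i
    rw [Lp.norm_def, (Lp.memLp _).eLpNorm_eq_integral_rpow_norm (by simpa using hp0)
      ENNReal.ofReal_ne_top, ENNReal.toReal_ofReal hp0.le, ENNReal.toReal_ofReal (by positivity)]
    congr 1
    refine integral_congr_ae ?_
    filter_upwards [hae] with t ht
    rw [ht, Real.norm_eq_abs]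
  rw [h2, ← h3]
  refine (abs_norm_sub_norm_le _ _).trans ?_
  rw [← Finset.sum_sub_distrib, Finset.mul_sum]
  refine (norm_sum_le _ _).trans (Finset.sum_le_sum fun i _ => ?_)
  rw [← smul_sub, norm_smul, Real.norm_eq_abs, mul_comm]
  exact mul_le_mul_of_nonneg_right (h1 i) (abs_nonneg _)

theorem exists_coord_bound {E : Type*} [NormedAddCommGroup E] [NormedSpace ℝ E] {f : Fin n → E}
    (hf : LinearIndependent ℝ f) :
    ∃ C : ℝ, 0 < C ∧ ∀ x : Fin n → ℝ, ∑ i, |x i| ≤ C * ‖∑ i, x i • f i‖ := by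
  obtain ⟨K, hK, hL⟩ := (Fintype.linearCombination ℝ f).exists_antilipschitzWith
    (LinearMap.ker_eq_bot'.2 fun x hx => funext (Fintype.linearIndependent_iff.1 hf x hx))
  refine ⟨(n + 1) * K, by positivity, fun x => ?_⟩
  have h1 : ‖x‖ ≤ K * ‖∑ i, x i • f i‖ :=
    ZeroHomClass.bound_of_antilipschitz (Fintype.linearCombination ℝ f) hL x
  have h2 : ∑ i, |x i| ≤ n * ‖x‖ := by
    have : ∑ i, |x i| ≤ ∑ _i : Fin n, ‖x‖ := Finset.sum_le_sum fun i _ => norm_le_pi_norm x i
    simpa using this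
  have h3 : (0 : ℝ) ≤ n := Nat.cast_nonneg n
  nlinarith [norm_nonneg x]

theorem mahler_Lp {α : Type*} [MeasurableSpace α] {μ : Measure α} [IsFiniteMeasure μ]
    (h1 : 1 < p) (h2 : p < 2) (f : Fin n → Lp ℝ (ENNReal.ofReal p) μ)
    (hf : LinearIndependent ℝ f) :
    ENNReal.ofReal (VP n p * VP n (p / (p - 1))) ≤
      volume {x : Fin n → ℝ | ‖∑ i, x i • f i‖ ≤ 1} *
      volume {y : Fin n → ℝ | ∀ x : Fin n → ℝ, ‖∑ i, x i • f i‖ ≤ 1 → ∑ i, x i * y i ≤ 1} := by
  have hp0 : 0 < p := by linarith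
  have : Fact (1 ≤ ENNReal.ofReal p) := ⟨ENNReal.one_le_ofReal.2 h1.le⟩
  obtain ⟨C, hC, hCx⟩ := exists_coord_bound hf
  set V := VP n p * VP n (p / (p - 1)) with hV
  have ht : Tendsto (fun ε : ℝ => ENNReal.ofReal (((1 - ε) * (1 + ε)⁻¹) ^ n * V)) (𝓝[>] 0)
      (𝓝 (ENNReal.ofReal V)) := by
    refine ENNReal.tendsto_ofReal (Tendsto.mono_left ?_ nhdsWithin_le_nhds)
    have : ContinuousAt (fun ε : ℝ => ((1 - ε) * (1 + ε)⁻¹) ^ n * V) 0 := by
      fun_prop (disch := norm_num)
    simpa using this.tendsto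
  refine le_of_tendsto ht ?_
  filter_upwards [Ioo_mem_nhdsGT (zero_lt_one' ℝ)] with ε hε
  obtain ⟨hε0, hε1⟩ := hε
  obtain ⟨s, c, hu, hc, hx⟩ := exists_discrete h1.le f (div_pos hε0 hC)
  set u : s → Fin n → ℝ := fun i => i
  have hN : ∀ x, |phi u c p x ^ p⁻¹ - ‖∑ i, x i • f i‖| ≤ ε * ‖∑ i, x i • f i‖ := by
    intro x
    refine (hx x).trans ?_
    rw [div_mul_eq_mul_div, div_le_iff₀ hC]
    nlinarith [hCx x]
  have hle : ∀ x, phi u c p x ≤ 1 ↔ phi u c p x ^ p⁻¹ ≤ 1 := fun x => by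
    rw [Real.rpow_inv_le_iff_of_pos (phi_nonneg u hc x) zero_le_one hp0, Real.one_rpow]
  have hsm : ∀ (r : ℝ) (x : Fin n → ℝ), ‖∑ i, (r • x) i • f i‖ = |r| * ‖∑ i, x i • f i‖ := by
    intro r x
    simp only [Pi.smul_apply, smul_eq_mul, mul_smul, ← Finset.smul_sum, norm_smul,
      Real.norm_eq_abs]
  have hd : ∀ z, (∀ i, z ⬝ᵥ u i = 0) → z = 0 := by
    intro z hz
    have a1 : phi u c p z = 0 := by simp [phi, TT, hz, hp0.ne']
    have a2 := (abs_le.1 (hN z)).1
    rw [a1, Real.zero_rpow (by positivity)] at a2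
    have a3 : ‖∑ i, z i • f i‖ ≤ 0 := by nlinarith [norm_nonneg (∑ i, z i • f i)]
    ext i
    exact Fintype.linearIndependent_iff.1 hf z (norm_le_zero_iff.1 a3) i
  have m := discrete_mahler u hu hd hc h1 h2
  have i1 : (1 - ε) • {z | phi u c p z ≤ 1} ⊆ {x : Fin n → ℝ | ‖∑ i, x i • f i‖ ≤ 1} := by
    rintro _ ⟨z, hz, rfl⟩
    have a1 := (hle z).1 hz
    have a2 := (abs_le.1 (hN z)).1
    simp only [mem_ofPred_eq]
    rw [hsm, abs_of_pos (by linarith)]
    linarith
  have i2 : (1 + ε)⁻¹ • {y : Fin n → ℝ | ∀ x, phi u c p x ≤ 1 → x ⬝ᵥ y ≤ 1} ⊆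
      {y : Fin n → ℝ | ∀ x : Fin n → ℝ, ‖∑ i, x i • f i‖ ≤ 1 → ∑ i, x i * y i ≤ 1} := by
    rintro _ ⟨y, hy, rfl⟩ x hx
    have a0 : 0 < (1 + ε)⁻¹ := by positivity
    have a1 := hy ((1 + ε)⁻¹ • x) ((hle _).2 (by
      have a2 := (abs_le.1 (hN ((1 + ε)⁻¹ • x))).2
      rw [hsm, abs_of_pos a0] at a2
      have a3 : (1 + ε) * ((1 + ε)⁻¹ * ‖∑ i, x i • f i‖) = ‖∑ i, x i • f i‖ := by field_simp
      linarith))
    change x ⬝ᵥ ((1 + ε)⁻¹ • y) ≤ 1
    rwa [dotProduct_smul, ← smul_dotProduct]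
  refine le_trans ?_ (mul_le_mul' (measure_mono i1) (measure_mono i2))
  rw [Measure.addHaar_smul_of_nonneg _ (by linarith), Measure.addHaar_smul_of_nonneg _
    (by positivity), mul_mul_mul_comm, ← ENNReal.ofReal_mul (pow_nonneg (by linarith) _),
    ← mul_pow, ENNReal.ofReal_mul (pow_nonneg (mul_nonneg (by linarith) (by positivity)) _)]
  simp only [Module.finrank_fintype_fun_eq_card, Fintype.card_fin]
  exact mul_le_mul_right m _

theorem reference_le (n : ℕ) (hp : 1 < p) :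
    volume {x : Fin n → ℝ | ∑ i, |x i| ^ p ≤ 1} *
      volume {y : Fin n → ℝ | ∀ x : Fin n → ℝ, ∑ i, |x i| ^ p ≤ 1 → ∑ i, x i * y i ≤ 1} ≤
      ENNReal.ofReal (VP n p * VP n (p / (p - 1))) := by
  rw [ENNReal.ofReal_mul (VP_pos n (by linarith)).le, ← volume_lp_ball n hp.le,
    ← volume_lp_ball n (by rw [le_div_iff₀ (by linarith)]; linarith)]
  exact mul_le_mul_right (measure_mono (polar_lp_ball n hp)) _

end Pool.Agent.MP85210c

end
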